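import Mathlib

/-!
Stretched exponentially small sequences.
-/

open Filter
open scoped Topology

namespace Pool.Agent.K1H53.KZ

lemma se_of_ev {f : ℕ → ℝ} {s C B : ℝ} (hs : 0 < s) (hB : ∀ n, f n ≤ B)
    (h : ∀ᶠ n : ℕ in atTop, f n ≤ C * Real.exp (-(n : ℝ) ^ s)) :
    ∃ C' : ℝ, 0 ≤ C' ∧ ∀ n : ℕ, 1 ≤ n → f n ≤ C' * Real.exp (-(n : ℝ) ^ s) := by
  obtain ⟨N, hN⟩ := eventually_atTop.1 h
  refine ⟨max |C| (|B| * Real.exp ((N : ℝ) ^ s)), le_max_of_le_left (abs_nonneg _), fun n hn => ?_⟩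
  rcases le_or_gt N n with hle | hlt
  · refine (hN n hle).trans (mul_le_mul_of_nonneg_right ?_ (Real.exp_pos _).le)
    exact (le_abs_self C).trans (le_max_left _ _)
  · have h1 : (n : ℝ) ^ s ≤ (N : ℝ) ^ s :=
      Real.rpow_le_rpow (Nat.cast_nonneg n) (by exact_mod_cast hlt.le) hs.le
    calc f n ≤ |B| := (hB n).trans (le_abs_self B)
      _ = |B| * Real.exp ((N : ℝ) ^ s) * Real.exp (-(N : ℝ) ^ s) := by
          rw [mul_assoc, ← Real.exp_add]; simp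
      _ ≤ |B| * Real.exp ((N : ℝ) ^ s) * Real.exp (-(n : ℝ) ^ s) := by
          apply mul_le_mul_of_nonneg_left _ (by positivity)
          exact Real.exp_le_exp.2 (by linarith)
      _ ≤ _ := mul_le_mul_of_nonneg_right (le_max_right _ _) (Real.exp_pos _).le

lemma poly_exp' (k : ℕ) {s : ℝ} (hs : 0 < s) :
    Tendsto (fun n : ℕ => (2 * (n : ℝ) + 1) ^ k * Real.exp (-(n : ℝ) ^ s)) atTop (𝓝 0) := by
  have h1 : Tendsto (fun n : ℕ => (n : ℝ) ^ s) atTop atTop :=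
    (tendsto_rpow_atTop hs).comp tendsto_natCast_atTop_atTop
  obtain ⟨m, hm⟩ := exists_nat_gt ((k : ℝ) / s)
  have hkm : (k : ℝ) ≤ s * m := by
    rw [div_lt_iff₀ hs] at hm
    linarith
  have h2 := (Real.tendsto_pow_mul_exp_neg_atTop_nhds_zero m).comp h1
  have h3 := h2.const_mul ((3 : ℝ) ^ k)
  rw [mul_zero] at h3
  refine squeeze_zero' (Eventually.of_forall fun n => by positivity) ?_ h3
  filter_upwards [eventually_ge_atTop 1] with n hn
  have hnR : (1 : ℝ) ≤ n := by exact_mod_cast hn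
  simp only [Function.comp_apply]
  rw [← mul_assoc]
  apply mul_le_mul_of_nonneg_right _ (Real.exp_pos _).le
  calc (2 * (n : ℝ) + 1) ^ k ≤ (3 * n) ^ k := pow_le_pow_left₀ (by positivity) (by linarith) k
    _ = 3 ^ k * (n : ℝ) ^ k := mul_pow _ _ _
    _ ≤ 3 ^ k * ((n : ℝ) ^ s) ^ m := by
        apply mul_le_mul_of_nonneg_left _ (by positivity)
        rw [← Real.rpow_natCast, ← Real.rpow_natCast, ← Real.rpow_mul (by linarith)]
        exact Real.rpow_le_rpow_of_exponent_le hnR hkm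

/-- polynomial factors are absorbed -/
lemma poly_se (k : ℕ) {s : ℝ} (hs : 0 < s) : ∀ᶠ n : ℕ in atTop,
    (2 * (n : ℝ) + 1) ^ k * Real.exp (-(n : ℝ) ^ s) ≤ Real.exp (-(n : ℝ) ^ (s / 2)) := by
  have h1 := (poly_exp' k (half_pos hs)).eventually_le_const one_pos
  have h2 : Tendsto (fun n : ℕ => (n : ℝ) ^ (s / 2)) atTop atTop :=
    (tendsto_rpow_atTop (half_pos hs)).comp tendsto_natCast_atTop_atTop
  filter_upwards [h1, h2.eventually_ge_atTop 2] with n h3 h4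
  have e1 : (n : ℝ) ^ s = (n : ℝ) ^ (s / 2) * (n : ℝ) ^ (s / 2) := by
    rcases Nat.eq_zero_or_pos n with h0 | h0
    · subst h0
      simp [Real.zero_rpow hs.ne', Real.zero_rpow (half_pos hs).ne']
    · rw [← Real.rpow_add (by exact_mod_cast h0)]
      congr 1; ring
  have h5 : Real.exp (-(n : ℝ) ^ s) ≤
      Real.exp (-(n : ℝ) ^ (s / 2)) * Real.exp (-(n : ℝ) ^ (s / 2)) := by
    rw [← Real.exp_add]
    apply Real.exp_le_exp.2
    rw [e1]
    nlinarith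
  calc (2 * (n : ℝ) + 1) ^ k * Real.exp (-(n : ℝ) ^ s) ≤
      (2 * (n : ℝ) + 1) ^ k * (Real.exp (-(n : ℝ) ^ (s / 2)) * Real.exp (-(n : ℝ) ^ (s / 2))) :=
        mul_le_mul_of_nonneg_left h5 (by positivity)
    _ = ((2 * (n : ℝ) + 1) ^ k * Real.exp (-(n : ℝ) ^ (s / 2))) * Real.exp (-(n : ℝ) ^ (s / 2)) := by
        ring
    _ ≤ 1 * Real.exp (-(n : ℝ) ^ (s / 2)) := mul_le_mul_of_nonneg_right h3 (Real.exp_pos _).le
    _ = _ := one_mul _

/-- change of the scale -/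
lemma scale_se {s τ : ℝ} (hs : 0 < s) {τ' : ℝ} (hττ : τ' < τ) {u : ℕ → ℝ}
    (hu : ∀ᶠ n : ℕ in atTop, (n : ℝ) ^ τ / 2 ≤ u n) : ∀ᶠ n : ℕ in atTop,
    Real.exp (-(u n) ^ s) ≤ Real.exp (-(n : ℝ) ^ (τ' * s)) := by
  have h2 : Tendsto (fun n : ℕ => (n : ℝ) ^ (τ - τ')) atTop atTop :=
    (tendsto_rpow_atTop (by linarith)).comp tendsto_natCast_atTop_atTop
  filter_upwards [hu, h2.eventually_ge_atTop 2, eventually_ge_atTop 1] with n h3 h4 h5
  have hn0 : (0 : ℝ) < n := by exact_mod_cast h5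
  apply Real.exp_le_exp.2
  have e1 : (n : ℝ) ^ τ = (n : ℝ) ^ (τ - τ') * (n : ℝ) ^ τ' := by
    rw [← Real.rpow_add hn0]; congr 1; ring
  have h6 : (n : ℝ) ^ τ' ≤ u n := by
    refine le_trans ?_ h3
    rw [e1]
    have : 0 < (n : ℝ) ^ τ' := by positivity
    nlinarith
  rw [Real.rpow_mul hn0.le]
  have := Real.rpow_le_rpow (by positivity) h6 hs.le
  linarith

/-- sums of powers -/
lemma pow_lt_ev {x y A B : ℝ} (hxy : x < y) (hy : 0 < y) :
    ∀ᶠ s : ℕ in atTop, A * (s : ℝ) ^ x + B ≤ (s : ℝ) ^ y := by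
  have h1 : Tendsto (fun s : ℕ => (s : ℝ) ^ (-(y - x))) atTop (nhds 0) :=
    (tendsto_rpow_neg_atTop (by linarith)).comp tendsto_natCast_atTop_atTop
  have h2 : Tendsto (fun s : ℕ => (s : ℝ) ^ (-y)) atTop (nhds 0) :=
    (tendsto_rpow_neg_atTop hy).comp tendsto_natCast_atTop_atTop
  have h3 : Tendsto (fun s : ℕ => A * (s : ℝ) ^ (-(y - x)) + B * (s : ℝ) ^ (-y)) atTop
      (nhds (A * 0 + B * 0)) := (h1.const_mul A).add (h2.const_mul B)
  rw [mul_zero, mul_zero, add_zero] at h3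
  filter_upwards [h3.eventually_le_const (show (0 : ℝ) < 1 by norm_num),
    eventually_ge_atTop 1] with s hs hs1
  have hsR : (0 : ℝ) < s := by exact_mod_cast hs1
  have e1 : (s : ℝ) ^ x = (s : ℝ) ^ (-(y - x)) * (s : ℝ) ^ y := by
    rw [← Real.rpow_add hsR]; congr 1; ring
  have e2 : (1 : ℝ) = (s : ℝ) ^ (-y) * (s : ℝ) ^ y := by
    rw [← Real.rpow_add hsR]; simp
  calc A * (s : ℝ) ^ x + B = (A * (s : ℝ) ^ (-(y - x)) + B * (s : ℝ) ^ (-y)) * (s : ℝ) ^ y := by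
        rw [e1, add_mul, mul_assoc B, ← e2]; ring
    _ ≤ 1 * (s : ℝ) ^ y := mul_le_mul_of_nonneg_right hs (Real.rpow_nonneg hsR.le _)
    _ = _ := one_mul _

end Pool.Agent.K1H53.KZ
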