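import Pool.Agent.K1H53.KZ.Plan

/-!
Real analysis for the relation between the exponents: Lebesgue density for arbitrary sets and the
second order expansion of a convex function at almost every point.
-/

set_option autoImplicit false

open MeasureTheory ProbabilityTheory Set Filter Asymptotics
open scoped Topology

namespace Pool.Agent.K1H53.KZ

lemma an_nb {E : Set ℝ} {h t : ℝ} (ht : 0 < t)
    (hd : (3 / 4 : ENNReal) < volume (E ∩ Metric.closedBall h t) / volume (Metric.closedBall h t)) :
    (∃ g ∈ E, h + t / 2 ≤ g ∧ g ≤ h + t) ∧ ∃ g ∈ E, h - t ≤ g ∧ g ≤ h - t / 2 := by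
  have hv : volume (Metric.closedBall h t) = ENNReal.ofReal (2 * t) := Real.volume_closedBall h t
  have key : ∀ a b : ℝ, b - a = 3 / 2 * t → ¬ (E ∩ Metric.closedBall h t ⊆ Icc a b) := by
    intro a b hab hsub
    have h1 : volume (E ∩ Metric.closedBall h t) ≤ ENNReal.ofReal (3 / 2 * t) := by
      refine (measure_mono hsub).trans ?_
      rw [Real.volume_Icc, hab]
    have h2 : volume (E ∩ Metric.closedBall h t) / volume (Metric.closedBall h t) ≤
        (3 / 4 : ENNReal) := by
      rw [hv]
      refine (ENNReal.div_le_div_right h1 _).trans ?_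
      rw [← ENNReal.ofReal_div_of_pos (by positivity)]
      have e : 3 / 2 * t / (2 * t) = 3 / 4 := by field_simp; norm_num
      rw [e]
      rw [show (3 / 4 : ℝ) = 3 / 4 from rfl, ENNReal.ofReal_div_of_pos (by norm_num)]
      simp
    exact absurd hd (not_lt.2 h2)
  constructor
  · by_contra hcon
    push Not at hcon
    refine key (h - t) (h + t / 2) (by ring) ?_
    rintro g ⟨hg, hgb⟩
    rw [Metric.mem_closedBall, Real.dist_eq, abs_le] at hgb
    refine ⟨by linarith, ?_⟩
    by_contra hlt
    push Not at hlt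
    have := hcon g hg hlt.le
    linarith
  · by_contra hcon
    push Not at hcon
    refine key (h - t / 2) (h + t) (by ring) ?_
    rintro g ⟨hg, hgb⟩
    rw [Metric.mem_closedBall, Real.dist_eq, abs_le] at hgb
    refine ⟨?_, by linarith⟩
    by_contra hlt
    push Not at hlt
    have := hcon g hg (by linarith)
    linarith

theorem dens : S_dens := by
  intro E
  have h1 := ae_imp_of_ae_restrict
    (Besicovitch.ae_tendsto_measure_inter_div (volume : Measure ℝ) E)
  filter_upwards [h1] with h hh hE
  have h2 := hh hE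
  have h3 : ∀ᶠ t in 𝓝[>] (0 : ℝ), (3 / 4 : ENNReal) <
      volume (E ∩ Metric.closedBall h t) / volume (Metric.closedBall h t) := by
    refine h2.eventually (lt_mem_nhds ?_)
    rw [ENNReal.div_lt_iff (Or.inl (by norm_num)) (Or.inl (by norm_num))]
    norm_num
  rw [eventually_nhdsWithin_iff, Metric.eventually_nhds_iff] at h3
  obtain ⟨r, hr, h3⟩ := h3
  refine ⟨r / 2, by positivity, fun t ht htr => an_nb ht (h3 ?_ ht)⟩
  rw [Real.dist_eq, sub_zero, abs_of_pos ht]
  linarith

theorem alex : S_alex := by
  intro p hp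
  have hm : Monotone (fun x => derivWithin p (Ioi x) x) := by
    have := hp.monotoneOn_rightDeriv
    rw [interior_univ] at this
    exact monotoneOn_univ.1 this
  have hcont : Continuous p := by
    rw [← continuousOn_univ]
    exact hp.continuousOn isOpen_univ
  have hright : ∀ x : ℝ, HasDerivWithinAt p (derivWithin p (Ioi x) x) (Ici x) x := by
    intro x
    have hx : x ∈ interior (univ : Set ℝ) := by simp
    exact (hp.hasDerivWithinAt_rightDeriv_of_mem_interior hx).Ici_of_Ioi
  filter_upwards [hm.ae_differentiableAt] with h hd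
  set D : ℝ → ℝ := fun x => derivWithin p (Ioi x) x with hD
  set q : ℝ := deriv D h with hq
  have hq0 : 0 ≤ q := hm.deriv_nonneg
  have hDh : HasDerivAt D q h := hd.hasDerivAt
  -- expansion
  have hexp : ∀ ε : ℝ, 0 < ε → ∃ δ : ℝ, 0 < δ ∧ ∀ t : ℝ, |t| ≤ δ →
      |p (h + t) - (p h + D h * t + q / 2 * t ^ 2)| ≤ ε * t ^ 2 := by
    intro ε hε
    have h1 := (hasDerivAt_iff_isLittleO.1 hDh).bound hε
    rw [Metric.eventually_nhds_iff] at h1
    obtain ⟨r, hr, h1⟩ := h1
    refine ⟨r / 2, by positivity, fun t ht => ?_⟩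
    have hb : ∀ x : ℝ, |x - h| ≤ |t| → |D x - D h - q * (x - h)| ≤ ε * |t| := by
      intro x hx
      have h2 := h1 (y := x) (by rw [Real.dist_eq]; linarith)
      rw [Real.norm_eq_abs, Real.norm_eq_abs, smul_eq_mul] at h2
      rw [mul_comm q]
      exact h2.trans (mul_le_mul_of_nonneg_left hx hε.le)
    set f : ℝ → ℝ := fun x => p x - (p h + D h * (x - h) + q / 2 * (x - h) ^ 2) with hf
    have hfc : Continuous f := by rw [hf]; fun_prop
    have hfd : ∀ x : ℝ, HasDerivWithinAt f (D x - D h - q * (x - h)) (Ici x) x := by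
      intro x
      have h3 : HasDerivAt (fun x : ℝ => p h + D h * (x - h) + q / 2 * (x - h) ^ 2)
          (D h + q * (x - h)) x := by
        have h4 : HasDerivAt (fun x : ℝ => x - h) 1 x := (hasDerivAt_id x).sub_const h
        have h5 := ((h4.const_mul (D h)).const_add (p h)).add ((h4.pow 2).const_mul (q / 2))
        refine h5.congr_deriv ?_
        norm_num
        ring
      have h6 := (hright x).sub h3.hasDerivWithinAt
      refine h6.congr_deriv ?_
      ring
    have hfh : f h = 0 := by simp [hf]
    have hft : f (h + t) = p (h + t) - (p h + D h * t + q / 2 * t ^ 2) := by simp [hf]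
    rw [← hft]
    rcases le_total 0 t with h0 | h0
    · have h7 := norm_image_sub_le_of_norm_deriv_right_le_segment (f := f) (a := h) (b := h + t)
        (C := ε * |t|) hfc.continuousOn (fun x _ => hfd x) (fun x hx => by
          rw [Real.norm_eq_abs]
          refine hb x ?_
          rw [abs_of_nonneg (by linarith [hx.1]), abs_of_nonneg h0]
          linarith [hx.2]) (h + t) ⟨by linarith, le_rfl⟩
      rw [hfh, sub_zero, Real.norm_eq_abs, abs_of_nonneg h0] at h7
      refine h7.trans (le_of_eq ?_)
      ring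
    · have h7 := norm_image_sub_le_of_norm_deriv_right_le_segment (f := f) (a := h + t) (b := h)
        (C := ε * |t|) hfc.continuousOn (fun x _ => hfd x) (fun x hx => by
          rw [Real.norm_eq_abs]
          refine hb x ?_
          rw [abs_of_nonpos (by linarith [hx.2]), abs_of_nonpos h0]
          linarith [hx.1]) h ⟨by linarith, le_rfl⟩
      rw [hfh, zero_sub, norm_neg, Real.norm_eq_abs, abs_of_nonpos h0] at h7
      refine h7.trans (le_of_eq ?_)
      ring
  refine ⟨D h, q, hq0, ?_, hexp⟩
  rw [hasDerivAt_iff_isLittleO_nhds_zero]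
  obtain ⟨δ, hδ, h1⟩ := hexp 1 one_pos
  have h2 : (fun t : ℝ => p (h + t) - p h - t • D h) =O[𝓝 0] fun t : ℝ => t ^ 2 := by
    refine IsBigO.of_bound (q / 2 + 1) ?_
    rw [Metric.eventually_nhds_iff]
    refine ⟨δ, hδ, fun t ht => ?_⟩
    rw [Real.dist_eq, sub_zero] at ht
    have h3 := h1 t ht.le
    rw [smul_eq_mul, Real.norm_eq_abs, Real.norm_eq_abs, abs_of_nonneg (sq_nonneg t)]
    rw [abs_le] at h3 ⊢
    constructor
    · nlinarith [h3.1, mul_nonneg hq0 (sq_nonneg t)]
    · nlinarith [h3.2, mul_nonneg hq0 (sq_nonneg t)]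
  refine h2.trans_isLittleO ?_
  have h4 : (fun t : ℝ => t ^ 2) =o[𝓝 0] fun t : ℝ => t ^ 1 :=
    isLittleO_pow_pow (by norm_num)
  simpa using h4

end Pool.Agent.K1H53.KZ
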