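import Pool.Agent.K1H53.KZ.Plan
import Pool.Agent.K1H53.KP.Lower
import Pool.Agent.K1H38.DP.Bridge

/-!
Centring the tails of the free energy at the mean, and the lower bound of the fluctuations from
confinement.
-/

open MeasureTheory ProbabilityTheory Set Filter
open scoped Topology

set_option linter.unusedSectionVars false

namespace Pool.Agent.K1H53.KZ

open Pool.Agent.K1H53.SD Pool.Agent.K1H53.SF Pool.Agent.K1H53.KP

variable {Ω : Type*} [MeasurableSpace Ω] {P : Measure Ω} [IsProbabilityMeasure P]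
variable {ω : ℕ → ℤ → Ω → ℝ}

lemma ZB_eq (β h : ℝ) (η : ℕ → ℤ → ℝ) (n : ℕ) :
    K1H38.DP.ZB β h η n = Fr (wt β η) (dr h) n 0 := by
  rw [Fr_sum]
  rfl

lemma LB_eq (β h : ℝ) (n : ℕ) : K1H38.DP.LB P ω β h n = FL P ω β h n := by
  unfold K1H38.DP.LB FL
  simp_rw [ZB_eq]

/-- the free energy is measurable and integrable, with variance at most linear -/
lemma moments (he : IsEnv P ω) (hexp : HasExp P ω) (β : ℝ) :
    ∃ K : ℝ, 0 < K ∧ ∀ (h : ℝ) (n : ℕ), 1 ≤ n →
      Measurable (fun a => Real.log (Fr (wt β (fld ω a)) (dr h) n 0)) ∧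
      Integrable (fun a => Real.log (Fr (wt β (fld ω a)) (dr h) n 0)) P ∧
      Integrable (fun a => (Real.log (Fr (wt β (fld ω a)) (dr h) n 0) - FL P ω β h n) ^ 2) P ∧
      ∫ a, (Real.log (Fr (wt β (fld ω a)) (dr h) n 0) - FL P ω β h n) ^ 2 ∂P ≤ K * n := by
  have he' := K1H38.DP.isEnv_up he
  have hexp' := K1H38.DP.hasExp_up hexp
  obtain ⟨K, hK, hV⟩ := K1H38.DP.Vr_linear he' hexp' β
  refine ⟨K, hK, fun h n hn => ?_⟩
  have e0 : ∀ a, K1H38.DP.Zd β (fun _ : Fin 1 => h)
      (K1H38.DP.fld (fun (i : ℕ) (x : Fin 1 → ℤ) => ω i (x 0)) a) n =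
      Fr (wt β (fld ω a)) (dr h) n 0 := by
    intro a
    rw [K1H38.DP.fld_up, K1H38.DP.Zd_up, ZB_eq]
  have e1 : K1H38.DP.Lm P (fun (i : ℕ) (x : Fin 1 → ℤ) => ω i (x 0)) β (fun _ => h) n =
      FL P ω β h n := by
    rw [K1H38.DP.Lm_up, LB_eq]
  have h1 := K1H38.DP.integrable_log_Zd he' hexp' β (fun _ => h) n
  have h2 := K1H38.DP.integrable_sq he' hexp' β (fun _ => h) hn
  have h3 := hV (fun _ => h) n hn
  unfold K1H38.DP.Vr at h3
  simp only [e0] at h1
  simp only [e0, e1] at h2 h3
  refine ⟨?_, h1, h2, h3⟩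
  have h4 := Real.measurable_log.comp
    ((K1H38.DP.measurable_Zd β (fun _ : Fin 1 => h) n).comp (K1H38.DP.measurable_fld he'))
  have h5 : (Real.log ∘ ((fun η => K1H38.DP.Zd β (fun _ : Fin 1 => h) η n) ∘
      K1H38.DP.fld (fun (i : ℕ) (x : Fin 1 → ℤ) => ω i (x 0)))) =
      fun a => Real.log (Fr (wt β (fld ω a)) (dr h) n 0) := by
    funext a
    simp only [Function.comp]
    rw [e0]
  rwa [h5] at h4

theorem center_thm (he : IsEnv P ω) (hexp : HasExp P ω) (β : ℝ) : S_center P ω β := by
  intro h c' hc' hex c'' hcc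
  obtain ⟨s, C, hs, H⟩ := hex
  obtain ⟨K, hK, hmom⟩ := moments he hexp β
  have q0 := ((K1H38.DP.poly_exp 2 hs).mul_const (|C| * (K + 1)))
  rw [zero_mul] at q0
  have q1 := q0.eventually_lt_const (show (0 : ℝ) < 1 / 2 by norm_num)
  have q2 : ∀ᶠ n : ℕ in atTop, 3 * (n : ℝ) ^ c' + 2 ≤ (n : ℝ) ^ c'' :=
    rpow_lt_eventually hcc (by linarith)
  obtain ⟨N₀, hN₀⟩ := eventually_atTop.1 (q1.and q2)
  refine ⟨by linarith, s, |C| + Real.exp ((N₀ : ℝ) ^ s), hs, fun n hn => ?_⟩
  have hnR : (1 : ℝ) ≤ n := by exact_mod_cast hn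
  have hn0 : (0 : ℝ) < n := by linarith
  rcases lt_or_ge n N₀ with hlt | hge
  · have h1 : (n : ℝ) ^ s ≤ (N₀ : ℝ) ^ s :=
      Real.rpow_le_rpow hn0.le (by exact_mod_cast hlt.le) hs.le
    have h2 : 1 ≤ Real.exp ((N₀ : ℝ) ^ s) * Real.exp (-(n : ℝ) ^ s) := by
      rw [← Real.exp_add]
      apply Real.one_le_exp
      linarith
    have h3 : 0 ≤ |C| * Real.exp (-(n : ℝ) ^ s) := by positivity
    refine le_trans measureReal_le_one ?_
    rw [add_mul]
    linarith
  · obtain ⟨r1, r2⟩ := hN₀ n hge
    obtain ⟨m, hm⟩ := H n hn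
    obtain ⟨mX, iX, iY2, hV⟩ := hmom h n hn
    set X : Ω → ℝ := fun a => Real.log (Fr (wt β (fld ω a)) (dr h) n 0) with hX
    set E := FL P ω β h n with hE
    have hE' : E = ∫ a, X a ∂P := rfl
    set A : Set Ω := {x | (n : ℝ) ^ c' < |X x - m|} with hA
    have mA : MeasurableSet A := measurableSet_lt measurable_const (mX.sub_const m).abs
    have pA : P.real A ≤ |C| * Real.exp (-(n : ℝ) ^ s) :=
      hm.trans (mul_le_mul_of_nonneg_right (le_abs_self _) (Real.exp_pos _).le)
    -- the probability of `A` is small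
    have hsm : P.real A * (K + 1) * n ≤ 1 / 2 := by
      have h6 : (n : ℝ) ≤ (2 * (n : ℝ) + 1) ^ 2 := by nlinarith
      calc P.real A * (K + 1) * n ≤ (|C| * Real.exp (-(n : ℝ) ^ s)) * (K + 1) *
            (2 * (n : ℝ) + 1) ^ 2 := by
            apply mul_le_mul _ h6 hn0.le (by positivity)
            exact mul_le_mul_of_nonneg_right pA (by linarith)
        _ = (2 * (n : ℝ) + 1) ^ 2 * Real.exp (-(n : ℝ) ^ s) * (|C| * (K + 1)) := by ring
        _ ≤ 1 / 2 := r1.le
    have pA0 : 0 ≤ P.real A := measureReal_nonneg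
    have hsm1 : P.real A ≤ 1 / 2 := by
      have : P.real A * 1 ≤ P.real A * ((K + 1) * n) :=
        mul_le_mul_of_nonneg_left (by nlinarith) pA0
      nlinarith
    have hsm2 : P.real A * (K * n) ≤ 1 / 2 := by
      have : P.real A * (K * n) ≤ P.real A * ((K + 1) * n) :=
        mul_le_mul_of_nonneg_left (by nlinarith) pA0
      nlinarith
    -- the centring is near the mean
    have hKn : 0 < K * n := by positivity
    have hpt : ∀ a, |X a - m| ≤ (n : ℝ) ^ c' + (1 / (2 * (K * n)) * (X a - E) ^ 2 +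
        A.indicator (fun _ => K * n / 2 + |E - m|) a) := by
      intro a
      have h0 : 0 ≤ 1 / (2 * (K * n)) * (X a - E) ^ 2 := by positivity
      by_cases ha : a ∈ A
      · rw [Set.indicator_of_mem ha]
        have h1 : |X a - m| ≤ |X a - E| + |E - m| := abs_sub_le _ _ _
        have h2 : |X a - E| ≤ 1 / (2 * (K * n)) * (X a - E) ^ 2 + K * n / 2 := by
          rw [← sq_abs (X a - E)]
          have e : 1 / (2 * (K * n)) * |X a - E| ^ 2 + K * n / 2 - |X a - E| =
              (|X a - E| - K * n) ^ 2 / (2 * (K * n)) := by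
            field_simp; ring
          have : 0 ≤ (|X a - E| - K * n) ^ 2 / (2 * (K * n)) := by positivity
          linarith
        have := Real.rpow_nonneg hn0.le c'
        linarith
      · rw [Set.indicator_of_notMem ha]
        have : |X a - m| ≤ (n : ℝ) ^ c' := by
          rw [hA] at ha
          simpa using ha
        linarith
    have iI : Integrable (A.indicator (fun _ => K * n / 2 + |E - m|)) P :=
      (integrable_const _).indicator mA
    have iR : Integrable (fun a => 1 / (2 * (K * n)) * (X a - E) ^ 2 +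
        A.indicator (fun _ => K * n / 2 + |E - m|) a) P := (iY2.const_mul _).add iI
    have iXm : Integrable (fun a => X a - m) P := iX.sub (integrable_const m)
    have hEm : |E - m| ≤ (n : ℝ) ^ c' + (1 / 2 + (1 / 4 + |E - m| / 2)) := by
      have e1 : E - m = ∫ a, (X a - m) ∂P := by
        rw [integral_sub iX (integrable_const m), ← hE']
        simp
      calc |E - m| = |∫ a, (X a - m) ∂P| := by rw [← e1]
        _ ≤ ∫ a, |X a - m| ∂P := abs_integral_le_integral_abs
        _ ≤ ∫ a, ((n : ℝ) ^ c' + (1 / (2 * (K * n)) * (X a - E) ^ 2 +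
            A.indicator (fun _ => K * n / 2 + |E - m|) a)) ∂P :=
            integral_mono iXm.abs ((integrable_const _).add iR) hpt
        _ = (n : ℝ) ^ c' + (1 / (2 * (K * n)) * ∫ a, (X a - E) ^ 2 ∂P +
            P.real A * (K * n / 2 + |E - m|)) := by
            rw [integral_add (integrable_const _) iR, integral_add (iY2.const_mul _) iI,
              integral_const_mul, integral_indicator_const _ mA, integral_const, probReal_univ,
              one_smul, smul_eq_mul]
        _ ≤ _ := by
            have h1 : 1 / (2 * (K * n)) * ∫ a, (X a - E) ^ 2 ∂P ≤ 1 / 2 := by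
              calc 1 / (2 * (K * n)) * ∫ a, (X a - E) ^ 2 ∂P ≤ 1 / (2 * (K * n)) * (K * n) :=
                    mul_le_mul_of_nonneg_left hV (by positivity)
                _ = 1 / 2 := by field_simp
            have h2 : P.real A * (K * n / 2 + |E - m|) ≤ 1 / 4 + |E - m| / 2 := by
              have : P.real A * |E - m| ≤ 1 / 2 * |E - m| :=
                mul_le_mul_of_nonneg_right hsm1 (abs_nonneg _)
              nlinarith
            linarith
    have hEm2 : |E - m| ≤ 2 * (n : ℝ) ^ c' + 2 := by linarith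
    have hsub : {x | (n : ℝ) ^ c'' < |frEnergy β h (fun i y => ω i y x) n -
        ∫ x', frEnergy β h (fun i y => ω i y x') n ∂P|} ⊆ A := by
      intro x hx
      simp only [frEnergy_eq, mem_ofPred_eq] at hx
      have hx' : (n : ℝ) ^ c'' < |X x - E| := hx
      rw [hA]
      simp only [mem_ofPred_eq]
      have h1 : |X x - E| ≤ |X x - m| + |m - E| := abs_sub_le _ _ _
      rw [abs_sub_comm m E] at h1
      linarith
    refine (measureReal_mono hsub (measure_ne_top _ _)).trans (pA.trans ?_)
    apply mul_le_mul_of_nonneg_right _ (Real.exp_pos _).le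
    have := Real.exp_pos ((N₀ : ℝ) ^ s)
    linarith

theorem anti_thm (he : IsEnv P ω) (hexp : HasExp P ω) (β : ℝ) : S_anti P ω β := by
  intro hβ hnc h v c a h1 h2 hc ha
  -- the typical fluctuations
  have htyp : c ∈ TypSet P ω β h := by
    obtain ⟨hc0, s, C, hs, H⟩ := hc
    obtain ⟨K, hK, hmom⟩ := moments he hexp β
    refine ⟨hc0, fun δ hδ => ?_⟩
    have q0 := ((K1H38.DP.poly_exp 2 hs).mul_const |C|)
    rw [zero_mul] at q0
    filter_upwards [q0.eventually_lt_const hδ, eventually_ge_atTop 1] with n hn1 hn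
    have hnR : (1 : ℝ) ≤ n := by exact_mod_cast hn
    obtain ⟨mX, -, -, -⟩ := hmom h n hn
    have mX' : Measurable (fun x => frEnergy β h (fun i y => ω i y x) n) := by
      simp only [frEnergy_eq]
      exact mX
    set E := ∫ x', frEnergy β h (fun i y => ω i y x') n ∂P with hE
    refine ⟨E, ?_⟩
    set A : Set Ω := {x | (n : ℝ) ^ c < |frEnergy β h (fun i y => ω i y x) n - E|} with hA
    have mA : MeasurableSet A := measurableSet_lt measurable_const (mX'.sub_const E).abs
    have hAc : Aᶜ = {x | |frEnergy β h (fun i y => ω i y x) n - E| ≤ (n : ℝ) ^ c} := by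
      ext x
      rw [hA]
      simp
    rw [← hAc, compl_bound mA]
    have pA : P.real A ≤ |C| * Real.exp (-(n : ℝ) ^ s) :=
      (H n hn).trans (mul_le_mul_of_nonneg_right (le_abs_self _) (Real.exp_pos _).le)
    have h6 : 1 * (|C| * Real.exp (-(n : ℝ) ^ s)) ≤
        (2 * (n : ℝ) + 1) ^ 2 * (|C| * Real.exp (-(n : ℝ) ^ s)) :=
      mul_le_mul_of_nonneg_right (by nlinarith) (by positivity)
    nlinarith
  have hlow := lower he hexp hnc hβ h1 h2 htyp (v := v)
  -- the wandering exponent
  have hwa : wanderingExpF P ω β h v ≤ a := by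
    obtain ⟨ha0, s, C, hs, H⟩ := ha
    apply csInf_le ⟨0, fun _ hc => hc.1.le⟩
    refine ⟨ha0, ?_⟩
    set g : ℕ → Ω → ℝ := fun n x => 1 - frProb β h (fun i y => ω i y x)
      (tube n v ((n : ℝ) ^ a)) with hg
    have mg : ∀ n, Measurable (g n) := fun n => (measurable_frProb he β h n _).const_sub 1
    have g0 : ∀ n x, 0 ≤ g n x := fun n x => sub_nonneg.2 (frProb_le_one β h _ n _)
    have g1 : ∀ n x, g n x ≤ 1 := fun n x => by
      have := frProb_nonneg β h (fun i y => ω i y x) n (tube n v ((n : ℝ) ^ a))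
      rw [hg]
      simp only
      linarith
    have ig : ∀ n, Integrable (g n) P := fun n =>
      Integrable.mono' (integrable_const (1 : ℝ)) (mg n).aestronglyMeasurable
        (Eventually.of_forall fun x => by rw [Real.norm_of_nonneg (g0 n x)]; exact g1 n x)
    have hsum : Summable (fun n : ℕ => ∫ x, g n x ∂P) := by
      have h0 := (K1H38.DP.summable_poly_exp 0 hs).mul_left |C|
      refine Summable.of_norm_bounded_eventually_nat h0 ?_
      filter_upwards [eventually_ge_atTop 1] with n hn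
      rw [Real.norm_of_nonneg (integral_nonneg (g0 n)), pow_zero, one_mul]
      exact (H n hn).trans (mul_le_mul_of_nonneg_right (le_abs_self _) (Real.exp_pos _).le)
    have hlint : ∑' n : ℕ, ∫⁻ x, ENNReal.ofReal (g n x) ∂P ≠ ⊤ := by
      have e1 : ∀ n, ∫⁻ x, ENNReal.ofReal (g n x) ∂P = ENNReal.ofReal (∫ x, g n x ∂P) := fun n =>
        (ofReal_integral_eq_lintegral_ofReal (ig n) (Eventually.of_forall (g0 n))).symm
      simp_rw [e1]
      exact hsum.tsum_ofReal_ne_top
    rw [← lintegral_tsum (fun n => (mg n).ennreal_ofReal.aemeasurable)] at hlint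
    have hae := ae_lt_top' (AEMeasurable.tsum
      (fun n => (mg n).ennreal_ofReal.aemeasurable)) hlint
    have hlim : ∀ᵐ x ∂P, liminf (fun n : ℕ => ENNReal.ofReal (frProb β h
        (fun i y => ω i y x) (tube n v ((n : ℝ) ^ a)))) atTop = 1 := by
      filter_upwards [hae] with x hx
      apply Tendsto.liminf_eq
      have t1 := ENNReal.tendsto_atTop_zero_of_tsum_ne_top hx.ne
      have t2 : Tendsto (fun n => g n x) atTop (𝓝 0) := by
        have t3 := (ENNReal.tendsto_toReal (ENNReal.zero_ne_top)).comp t1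
        simp only [ENNReal.toReal_zero] at t3
        refine t3.congr (fun n => ?_)
        simp only [Function.comp]
        rw [ENNReal.toReal_ofReal (g0 n x)]
      rw [← ENNReal.ofReal_one]
      apply ENNReal.tendsto_ofReal
      have t4 := t2.const_sub (1 : ℝ)
      rw [sub_zero] at t4
      refine t4.congr (fun n => ?_)
      rw [hg]
      simp only
      ring
    rw [lintegral_congr_ae hlim]
    simp
  linarith

end Pool.Agent.K1H53.KZ
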