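import Pool.Agent.K1H53.KZ.Fix

/-!
The lower half: tails of the free polymer from tails of point-to-point polymers and confinement.
-/

open MeasureTheory ProbabilityTheory Set Filter
open scoped Topology
open Classical

set_option linter.unusedSectionVars false

namespace Pool.Agent.K1H53.KZ

open Pool.Agent.K1H53.SD Pool.Agent.K1H53.SF Pool.Agent.K1H53.KP

variable {Ω : Type*} [MeasurableSpace Ω] {P : Measure Ω} [IsProbabilityMeasure P]
variable {ω : ℕ → ℤ → Ω → ℝ}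

lemma se_ex {F : ℕ → ℝ → ℝ} {s C : ℝ} (hs : 0 < s) (hB : ∀ n m, F n m ≤ 1)
    (h : ∀ᶠ n : ℕ in atTop, ∃ m, F n m ≤ C * Real.exp (-(n : ℝ) ^ s)) :
    ∃ C' : ℝ, 0 ≤ C' ∧ ∀ n : ℕ, 1 ≤ n → ∃ m, F n m ≤ C' * Real.exp (-(n : ℝ) ^ s) := by
  set μ : ℕ → ℝ := fun n => if hn : ∃ m, F n m ≤ C * Real.exp (-(n : ℝ) ^ s) then hn.choose else 0
    with hμ
  obtain ⟨C', h0, hC'⟩ := se_of_ev (f := fun n => F n (μ n)) hs (fun n => hB n _) (by
    filter_upwards [h] with n hn
    simp only [hμ]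
    rw [dif_pos hn]
    exact hn.choose_spec)
  exact ⟨C', h0, fun n hn => ⟨_, hC' n hn⟩⟩

/-- translation of point-to-point deviations -/
lemma pp_shift (he : IsEnv P ω) (β : ℝ) (x0 : ℤ) (s : ℕ) (m : ℤ) (lam c : ℝ) :
    P.real {a | lam < |Real.log (Z (wt β (fld ω a)) x0 s m) - c|} =
      P.real {a | lam < |Real.log (Z (wt β (fld ω a)) 0 s (m - x0)) - c|} := by
  have hτ : Function.Injective (fun p : ℕ × ℤ => ((p.1, p.2 + x0) : ℕ × ℤ)) := by
    rintro ⟨i, x⟩ ⟨j, y⟩ hh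
    simp only [Prod.mk.injEq] at hh
    ext <;> simp <;> omega
  have hS : MeasurableSet {η : ℕ → ℤ → ℝ | lam < |Real.log (Z (wt β η) 0 s (m - x0)) - c|} :=
    measurableSet_lt measurable_const (((Real.measurable_log.comp
      (measurable_Z (fun i x => measurable_wt β i x) 0 s (m - x0))).sub_const c).abs)
  have h1 := prob_inv he (τ := fun i x => (i, x + x0)) hτ hS
  simp only [Set.mem_ofPred_eq] at h1
  have h2 : {a | lam < |Real.log (Z (wt β (fld ω a)) 0 s (m - x0)) - c|} =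
      {a | lam < |Real.log (Z (wt β (fun i x => ω i x a)) 0 s (m - x0)) - c|} := rfl
  rw [h2, ← h1]
  congr 1
  ext a
  simp only [Set.mem_ofPred_eq]
  rw [Z_trans (wt β (fld ω a)) x0 x0, sub_self]
  rfl

lemma geo2 {s r : ℕ} (hs : 1 ≤ s) (hr : 3 ≤ r) {v : ℝ} (hb1 : (r : ℝ) * 16 ≤ s * (1 + v))
    (hb2 : (r : ℝ) * 16 ≤ s * (1 - v)) :
    ∃ b l D : ℤ, Gm s v b l D r ∧ ∀ m : ℤ, b - D ≤ m → m ≤ b + D + l →
      |(m : ℝ) - s * v| ≤ 16 * r ∧ |m| ≤ (s : ℤ) := by
  obtain ⟨b, l, D, g, hD, k1, k2, k3, k4⟩ := gm_of hs hr hb1 hb2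
  set k := ⌊(s : ℝ) * (1 + v) / 2⌋ with hk
  refine ⟨b, l, D, g, fun m hm1 hm2 => ?_⟩
  have e1 := Int.floor_le ((s : ℝ) * (1 + v) / 2)
  have e2 := Int.lt_floor_add_one ((s : ℝ) * (1 + v) / 2)
  rw [← hk] at e1 e2
  have hrR : (3 : ℝ) ≤ r := by exact_mod_cast hr
  constructor
  · rw [abs_le]
    constructor
    · have h1 : 2 * (k - 7 * r) - s - 2 ≤ m := by omega
      have h2 : ((2 * (k - 7 * r) - s - 2 : ℤ) : ℝ) ≤ m := by exact_mod_cast h1
      push_cast at h2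
      linarith
    · have h1 : m ≤ 2 * (k + 7 * r) - s := by omega
      have h2 : (m : ℝ) ≤ ((2 * (k + 7 * r) - s : ℤ) : ℝ) := by exact_mod_cast h1
      push_cast at h2
      linarith
  · rw [abs_le]; omega

/-- deviations at a fixed scale -/
def PPh (P : Measure Ω) (ω : ℕ → ℤ → Ω → ℝ) (β h v : ℝ) (s : ℕ) (R lam f ε : ℝ) : Prop :=
  ∀ m : ℤ, |m| ≤ (s : ℤ) → (m - s) % 2 = 0 → |(m : ℝ) - s * v| ≤ R →
    P.real {x | lam < |Real.log (Z (wt β (fld ω x)) 0 s m) - (f - h * m)|} ≤ ε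

lemma gf_tail (he : IsEnv P ω) {β h v : ℝ} {s r : ℕ} {b l D : ℤ} (g : Gm s v b l D r)
    {R lam f ε : ℝ} (hR : 16 * (r : ℝ) ≤ R)
    (hg : ∀ m : ℤ, b - D ≤ m → m ≤ b + D + l → |(m : ℝ) - s * v| ≤ 16 * r ∧ |m| ≤ (s : ℤ))
    (H : PPh P ω β h v s R lam f ε) :
    P.real {a | 4 * lam < GF (wt β (fld ω a)) s b l D} ≤ 4 * ε := by
  have c1 := g.hb; have c2 := g.hl; have c3 := g.hl0; have c4 := g.hD; have c5 := g.hlD
  set A : ℤ → ℤ → ℝ → Set Ω := fun x0 m c =>
    {a | lam < |Real.log (Z (wt β (fld ω a)) x0 s m) - c|} with hA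
  have bd : ∀ x0 m : ℤ, (m - x0 - s) % 2 = 0 → b - D ≤ m - x0 → m - x0 ≤ b + D + l →
      P.real (A x0 m (f - h * ((m - x0 : ℤ) : ℝ))) ≤ ε := by
    intro x0 m h1 h2 h3
    rw [hA]
    simp only
    rw [pp_shift he]
    obtain ⟨g1, g2⟩ := hg (m - x0) h2 h3
    exact H (m - x0) g2 h1 (g1.trans hR)
  have b1 := bd D (b + D + l) (by omega) (by omega) (by omega)
  have b2 := bd 0 (b + D + l) (by omega) (by omega) (by omega)
  have b3 := bd D b (by omega) (by omega) (by omega)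
  have b4 := bd 0 b (by omega) (by omega) (by omega)
  have hsub : {a | 4 * lam < GF (wt β (fld ω a)) s b l D} ⊆
      (A D (b + D + l) (f - h * ((b + D + l - D : ℤ) : ℝ)) ∪
        A 0 (b + D + l) (f - h * ((b + D + l - 0 : ℤ) : ℝ))) ∪
      (A D b (f - h * ((b - D : ℤ) : ℝ)) ∪ A 0 b (f - h * ((b - 0 : ℤ) : ℝ))) := by
    intro a ha
    by_contra hcon
    simp only [hA, Set.mem_union, Set.mem_ofPred_eq, not_or, not_lt] at hcon
    obtain ⟨⟨n1, n2⟩, n3, n4⟩ := hcon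
    have ha' : 4 * lam < GF (wt β (fld ω a)) s b l D := ha
    unfold GF at ha'
    have t1 := abs_le.1 n1
    have t2 := abs_le.1 n2
    have t3 := abs_le.1 n3
    have t4 := abs_le.1 n4
    push_cast at t1 t2 t3 t4
    nlinarith [t1.1, t1.2, t2.1, t2.2, t3.1, t3.2, t4.1, t4.2]
  have u0 := measureReal_mono (μ := P) hsub (measure_ne_top _ _)
  have u1 := measureReal_union_le (μ := P) (A D (b + D + l) (f - h * ((b + D + l - D : ℤ) : ℝ)) ∪
        A 0 (b + D + l) (f - h * ((b + D + l - 0 : ℤ) : ℝ)))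
      (A D b (f - h * ((b - D : ℤ) : ℝ)) ∪ A 0 b (f - h * ((b - 0 : ℤ) : ℝ)))
  have u2 := measureReal_union_le (μ := P) (A D (b + D + l) (f - h * ((b + D + l - D : ℤ) : ℝ)))
        (A 0 (b + D + l) (f - h * ((b + D + l - 0 : ℤ) : ℝ)))
  have u3 := measureReal_union_le (μ := P) (A D b (f - h * ((b - D : ℤ) : ℝ)))
      (A 0 b (f - h * ((b - 0 : ℤ) : ℝ)))
  linarith

lemma block_tail {β h v : ℝ} {s r : ℕ} {b l D : ℤ} (g : Gm s v b l D r)
    {R lam f ε : ℝ} (hR : 16 * (r : ℝ) ≤ R) (hε : 0 ≤ ε)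
    (hg : ∀ m : ℤ, b - D ≤ m → m ≤ b + D + l → |(m : ℝ) - s * v| ≤ 16 * r ∧ |m| ≤ (s : ℤ))
    (H : PPh P ω β h v s R lam f ε) :
    1 - (2 * s + 1) * ε ≤ P.real {a | ∀ m, b ≤ m → m ≤ b + l → (m - s) % 2 = 0 →
      |Real.log (Z (wt β (fld ω a)) 0 s m) - (f - h * m)| ≤ lam} := by
  have c3 := g.hl0; have c4 := g.hD; have c5 := g.hlD
  set G := {a | ∀ m, b ≤ m → m ≤ b + l → (m - s) % 2 = 0 →
      |Real.log (Z (wt β (fld ω a)) 0 s m) - (f - h * m)| ≤ lam} with hG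
  set A : ℤ → Set Ω := fun m => if (m - s) % 2 = 0 then
    {a | lam < |Real.log (Z (wt β (fld ω a)) 0 s m) - (f - h * m)|} else ∅ with hA
  have hsub : (Set.univ : Set Ω) ⊆ G ∪ ⋃ m ∈ Finset.Icc b (b + l), A m := by
    intro a _
    by_cases ha : a ∈ G
    · exact Or.inl ha
    · right
      simp only [hG, Set.mem_ofPred_eq] at ha
      push Not at ha
      obtain ⟨m, m1, m2, m3, m4⟩ := ha
      simp only [Set.mem_iUnion]
      refine ⟨m, Finset.mem_Icc.2 ⟨m1, m2⟩, ?_⟩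
      simp only [hA]
      rw [if_pos m3]
      exact m4
  have h1 : P.real (⋃ m ∈ Finset.Icc b (b + l), A m) ≤ (2 * s + 1) * ε := by
    refine (measureReal_biUnion_finset_le _ _).trans ?_
    have h2 : ∑ m ∈ Finset.Icc b (b + l), P.real (A m) ≤ ∑ _m ∈ Finset.Icc b (b + l), ε := by
      apply Finset.sum_le_sum
      intro m hm
      rw [Finset.mem_Icc] at hm
      simp only [hA]
      split_ifs with hp
      · obtain ⟨g1, g2⟩ := hg m (by omega) (by omega)
        exact H m g2 hp (g1.trans hR)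
      · simpa using hε
    refine h2.trans ?_
    rw [Finset.sum_const, nsmul_eq_mul]
    apply mul_le_mul_of_nonneg_right _ hε
    rw [Int.card_Icc]
    obtain ⟨-, g3⟩ := hg b (by omega) (by omega)
    obtain ⟨-, g4⟩ := hg (b + l) (by omega) (by omega)
    rw [abs_le] at g3 g4
    have : ((b + l + 1 - b).toNat : ℤ) ≤ 2 * s + 1 := by omega
    exact_mod_cast this
  have h3 := (measureReal_mono (μ := P) hsub (measure_ne_top _ _)).trans
    (measureReal_union_le _ _)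
  rw [probReal_univ] at h3
  linarith

/-- the bound at a fixed scale -/
lemma low_step (he : IsEnv P ω) {β h v : ℝ} {s k r : ℕ} (hs : 1 ≤ s) (hr : 3 ≤ r)
    (hb1 : (r : ℝ) * 16 ≤ s * (1 + v)) (hb2 : (r : ℝ) * 16 ≤ s * (1 - v))
    {R lam f ε δ : ℝ} (hR : 16 * (r : ℝ) ≤ R) (hε : 0 ≤ ε) (hδ : 0 ≤ δ)
    (H : PPh P ω β h v s R lam f ε)
    (h1 : 1 - δ ≤ qf P ω β h (s + k) v r (3 / 4)) (h3 : 1 - δ ≤ qf P ω β h k v r (3 / 4))
    (h4 : 4 * ε ≤ δ) (h5 : (2 * s + 1) * ε ≤ δ) :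
    ∃ m, P.real {a | 9 * lam + 4 < |Real.log (Fr (wt β (fld ω a)) (dr h) (s + k) 0) - m|} ≤
      15 * δ := by
  obtain ⟨b, l, D, g, hg⟩ := geo2 hs hr hb1 hb2
  have e4 := (gf_tail he g hR hg H).trans h4
  have e5 : 1 - δ ≤ _ := le_trans (by linarith) (block_tail g hR hε hg H)
  obtain ⟨m, hm⟩ := fixed2 he β h g (fun m => f - h * m) (q := 3 / 4) (t := 4 * lam) (lam := lam)
    (δ := δ) (by norm_num) (by norm_num) hδ h1 h3 e4 e5
  refine ⟨m, ?_⟩
  have hM : MeasurableSet {a | |Real.log (Fr (wt β (fld ω a)) (dr h) (s + k) 0) - m| ≤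
      2 * (4 * lam) + lam + 4} :=
    measurableSet_le (((Real.measurable_log.comp
      (measurable_Fr (fun i x => measurable_wt' he β i x) _ _ _)).sub_const _).abs) measurable_const
  have hc := compl_bound (P := P) hM
  have e : {a | 9 * lam + 4 < |Real.log (Fr (wt β (fld ω a)) (dr h) (s + k) 0) - m|} =
      {a | |Real.log (Fr (wt β (fld ω a)) (dr h) (s + k) 0) - m| ≤ 2 * (4 * lam) + lam + 4}ᶜ := by
    ext a
    simp only [Set.mem_ofPred_eq, Set.mem_compl_iff, not_le]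
    constructor <;> intro h <;> linarith
  rw [e, hc]
  linarith

/-- confinement in probability from averaged confinement -/
lemma qf_of_conf (he : IsEnv P ω) {β h v κ : ℝ} {n : ℕ} {B : ℝ}
    (H : ∫ x, (1 - frProb β h (fun i y => ω i y x) (tube n v ((n : ℝ) ^ κ))) ∂P ≤ B) :
    1 - 4 * B ≤ qf P ω β h n v (⌈(n : ℝ) ^ κ⌉₊ + 3) (3 / 4) := by
  set X : Ω → ℝ := fun x => 1 - frProb β h (fun i y => ω i y x) (tube n v ((n : ℝ) ^ κ)) with hX
  have mX : Measurable X := (measurable_frProb he β h n _).const_sub 1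
  have h0 : ∀ x, 0 ≤ X x := fun x => sub_nonneg.2 (frProb_le_one β h _ n _)
  have h1 : ∀ x, X x ≤ 1 := fun x => by
    have := frProb_nonneg β h (fun i y => ω i y x) n (tube n v ((n : ℝ) ^ κ))
    simp only [hX]; linarith
  have hi : Integrable X P := by
    refine Integrable.of_bound (C := 1) mX.aestronglyMeasurable (Eventually.of_forall fun x => ?_)
    rw [Real.norm_of_nonneg (h0 x)]
    exact h1 x
  have hM := mul_meas_ge_le_integral_of_nonneg (μ := P) (f := X)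
    (Eventually.of_forall h0) hi (1 / 4)
  set A := {x | X x ≤ 1 / 4} with hA
  have mA : MeasurableSet A := measurableSet_le mX measurable_const
  have h2 : P.real Aᶜ ≤ P.real {x | 1 / 4 ≤ X x} := by
    apply measureReal_mono _ (measure_ne_top _ _)
    intro x hx
    simp only [hA, Set.mem_compl_iff, Set.mem_ofPred_eq, not_le] at hx ⊢
    exact hx.le
  rw [compl_bound mA] at h2
  have h3 : P.real A ≤ qf P ω β h n v (⌈(n : ℝ) ^ κ⌉₊ + 3) (3 / 4) := by
    unfold qf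
    apply measureReal_mono _ (measure_ne_top _ _)
    intro x hx
    refine CF_of_prob (R := (n : ℝ) ^ κ) ?_ ?_
    · have h9 := Nat.le_ceil ((n : ℝ) ^ κ)
      push_cast
      linarith
    · have hx' : X x ≤ 1 / 4 := hx
      simp only [hX] at hx'
      show 3 / 4 ≤ frProb β h (fun i y => ω i y x) (tube n v ((n : ℝ) ^ κ))
      linarith
  linarith

/-- monotonicity in the exponent -/
lemma exp_mono_pow {n : ℕ} (hn : 1 ≤ n) {x y : ℝ} (hxy : x ≤ y) :
    Real.exp (-(n : ℝ) ^ y) ≤ Real.exp (-(n : ℝ) ^ x) := by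
  apply Real.exp_le_exp.2
  have := Real.rpow_le_rpow_of_exponent_le (show (1 : ℝ) ≤ n by exact_mod_cast hn) hxy
  linarith

theorem low_thm (he : IsEnv P ω) (β : ℝ) : S_low P ω β := by
  intro h v a κ c' hv1 hv2 ha ha1 hκ hκa hconf hc' hPP
  obtain ⟨-, s₀, C₀, hs₀, hC₀⟩ := hconf
  obtain ⟨f, K, s', C', hK, hs', hC', hpp⟩ := hPP 16 (by norm_num)
  have h2a : 0 < 2 * a - 1 := by linarith
  have ha0 : 0 < a := by linarith
  have hvm : 0 < 1 - |v| := by
    have := abs_lt.2 ⟨hv1, hv2⟩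
    linarith
  have e1 : κ / a < min 1 (c' / (2 * a - 1)) := by
    apply lt_min
    · rw [div_lt_one ha0]; exact hκa
    · rw [div_lt_div_iff₀ ha0 h2a]
      rw [div_lt_iff₀ ha0] at hc'
      linarith
  obtain ⟨σ, hσ1, hσ2⟩ := exists_between e1
  have hσ0 : 0 < σ := lt_trans (by positivity) hσ1
  have hσ3 : σ < 1 := lt_of_lt_of_le hσ2 (min_le_left _ _)
  have hσ4 : σ * (2 * a - 1) < c' := by
    have := lt_of_lt_of_le hσ2 (min_le_right _ _)
    rwa [lt_div_iff₀ h2a] at this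
  have hσ5 : κ < σ * a := by rwa [div_lt_iff₀ ha0] at hσ1
  have hc'0 : 0 < c' := lt_trans (by positivity) hσ4
  set S : ℕ → ℕ := fun n => ⌊(n : ℝ) ^ σ⌋₊ with hS
  have hpow : Tendsto (fun n : ℕ => (n : ℝ) ^ σ) atTop atTop :=
    (tendsto_rpow_atTop hσ0).comp tendsto_natCast_atTop_atTop
  have TS : Tendsto S atTop atTop := tendsto_nat_floor_atTop.comp hpow
  have hSle : ∀ n : ℕ, (S n : ℝ) ≤ (n : ℝ) ^ σ := fun n =>
    Nat.floor_le (Real.rpow_nonneg (Nat.cast_nonneg n) _)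
  have hSge : ∀ᶠ n : ℕ in atTop, (n : ℝ) ^ σ / 2 ≤ S n := by
    filter_upwards [hpow.eventually_ge_atTop 2] with n hn
    have := Nat.lt_floor_add_one ((n : ℝ) ^ σ)
    simp only [hS]
    linarith
  have hS2 : ∀ᶠ n : ℕ in atTop, 2 * (n : ℝ) ^ σ + 0 ≤ (n : ℝ) ^ (1 : ℝ) :=
    pow_lt_ev hσ3 one_pos
  set s₃ := min (min (σ / 2 * (s' / 2)) s₀) (1 / 2 * s₀) with hs₃
  have hs₃0 : 0 < s₃ := by rw [hs₃]; positivity
  -- the three stretched exponentials
  have A1 : ∀ᶠ n : ℕ in atTop, (2 * (S n : ℝ) + 1) * Real.exp (-(S n : ℝ) ^ s') ≤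
      Real.exp (-(n : ℝ) ^ s₃) := by
    have h1 := TS.eventually (poly_se 1 hs')
    have h2 := scale_se (s := s' / 2) (τ := σ) (half_pos hs') (τ' := σ / 2) (by linarith)
      (u := fun n => (S n : ℝ)) hSge
    filter_upwards [h1, h2, eventually_ge_atTop 1] with n h3 h4 h5
    rw [pow_one] at h3
    refine h3.trans (h4.trans (exp_mono_pow h5 ?_))
    exact (min_le_left _ _).trans (min_le_left _ _)
  have hk : ∀ᶠ n : ℕ in atTop, (n : ℝ) ^ (1 : ℝ) / 2 ≤ ((n - S n : ℕ) : ℝ) := by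
    filter_upwards [hS2] with n hn
    rw [Real.rpow_one] at hn ⊢
    have h1 := hSle n
    have h2 : S n ≤ n := by
      have : (S n : ℝ) ≤ n := by
        have : (0 : ℝ) ≤ n := Nat.cast_nonneg n
        linarith
      exact_mod_cast this
    rw [Nat.cast_sub h2]
    linarith
  have A2 : ∀ᶠ n : ℕ in atTop, Real.exp (-((n - S n : ℕ) : ℝ) ^ s₀) ≤
      Real.exp (-(n : ℝ) ^ s₃) := by
    have h2 := scale_se (s := s₀) (τ := 1) hs₀ (τ' := 1 / 2) (by norm_num)
      (u := fun n => ((n - S n : ℕ) : ℝ)) hk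
    filter_upwards [h2, eventually_ge_atTop 1] with n h4 h5
    exact h4.trans (exp_mono_pow h5 (min_le_right _ _))
  have A3 : ∀ᶠ n : ℕ in atTop, Real.exp (-(n : ℝ) ^ s₀) ≤ Real.exp (-(n : ℝ) ^ s₃) := by
    filter_upwards [eventually_ge_atTop 1] with n h5
    exact exp_mono_pow h5 ((min_le_left _ _).trans (min_le_right _ _))
  -- geometry
  have B1 : ∀ᶠ n : ℕ in atTop, (2 : ℝ) ^ a * (n : ℝ) ^ κ + 4 * (2 : ℝ) ^ a ≤ (n : ℝ) ^ (σ * a) :=
    pow_lt_ev hσ5 (by positivity)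
  have B2 : ∀ᶠ n : ℕ in atTop, (16 / (1 - |v|)) * (S n : ℝ) ^ a + 0 ≤ (S n : ℝ) ^ (1 : ℝ) :=
    TS.eventually (pow_lt_ev ha1 one_pos)
  have B3 : ∀ᶠ n : ℕ in atTop, (9 * K) * (n : ℝ) ^ (σ * (2 * a - 1)) + 4 ≤ (n : ℝ) ^ c' :=
    pow_lt_ev hσ4 hc'0
  set CC := 15 * (5 * C' + 4 * |C₀| + 4 * |C₀|) with hCC
  obtain ⟨C'', h0, hfin⟩ := se_ex (F := fun n m => P.real {x | (n : ℝ) ^ c' <
      |Real.log (Fr (wt β (fld ω x)) (dr h) n 0) - m|}) (C := CC) hs₃0
    (fun n m => measureReal_le_one) (by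
      filter_upwards [A1, A2, A3, B1, B2, B3, hSge, hk, hS2, TS.eventually_ge_atTop 1,
        eventually_ge_atTop 2] with n a1 a2 a3 b1 b2 b3 hsge hk hs2 hS1 hn2
      have hnR : (0 : ℝ) < n := by
        have : 0 < n := by omega
        exact_mod_cast this
      rw [Real.rpow_one] at hk
      set s := S n with hs
      have hsR : (0 : ℝ) < s := by exact_mod_cast hS1
      have hsn : s ≤ n := by
        have h1 := hSle n
        rw [Real.rpow_one] at hs2
        have : (s : ℝ) ≤ n := by linarith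
        exact_mod_cast this
      obtain ⟨k, hk'⟩ : ∃ k, n = s + k := ⟨n - s, by omega⟩
      have hks : n - s = k := by omega
      rw [hks] at hk a2
      have hk1 : 1 ≤ k := by
        have : (1 : ℝ) ≤ k := by
          have : (2 : ℝ) ≤ n := by exact_mod_cast hn2
          linarith
        exact_mod_cast this
      set r := ⌈(n : ℝ) ^ κ⌉₊ + 3 with hr
      have hra : (r : ℝ) ≤ (s : ℝ) ^ a := by
        have h1 : ((n : ℝ) ^ σ / 2) ^ a ≤ (s : ℝ) ^ a :=
          Real.rpow_le_rpow (by positivity) hsge ha0.le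
        rw [Real.div_rpow (by positivity) (by norm_num), ← Real.rpow_mul hnR.le] at h1
        have h2 : (n : ℝ) ^ κ + 4 ≤ (n : ℝ) ^ (σ * a) / 2 ^ a := by
          rw [le_div_iff₀ (by positivity)]
          linarith
        have h3 : ((⌈(n : ℝ) ^ κ⌉₊ : ℕ) : ℝ) < (n : ℝ) ^ κ + 1 :=
          Nat.ceil_lt_add_one (Real.rpow_nonneg hnR.le _)
        rw [hr]
        push_cast
        linarith
      rw [add_zero, Real.rpow_one, div_mul_eq_mul_div, div_le_iff₀ hvm] at b2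
      have hb1 : (r : ℝ) * 16 ≤ s * (1 + v) := by
        have : (s : ℝ) * (1 - |v|) ≤ s * (1 + v) :=
          mul_le_mul_of_nonneg_left (by linarith [neg_abs_le v]) hsR.le
        linarith
      have hb2 : (r : ℝ) * 16 ≤ s * (1 - v) := by
        have : (s : ℝ) * (1 - |v|) ≤ s * (1 - v) :=
          mul_le_mul_of_nonneg_left (by linarith [le_abs_self v]) hsR.le
        linarith
      set ε := C' * Real.exp (-(s : ℝ) ^ s') with hε
      have hε0 : 0 ≤ ε := by positivity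
      set E := Real.exp (-(n : ℝ) ^ s₃) with hE
      have hE0 : 0 < E := Real.exp_pos _
      have hH : PPh P ω β h v s (16 * (s : ℝ) ^ a) (K * (s : ℝ) ^ (2 * a - 1)) (f s) ε :=
        fun m m1 m2 m3 => hpp s hS1 m m1 m2 m3
      set δ := (5 * C' + 4 * |C₀| + 4 * |C₀|) * E with hδ
      have hδ0 : 0 ≤ δ := by positivity
      have t1 : (2 * (s : ℝ) + 1) * ε ≤ C' * E := by
        calc (2 * (s : ℝ) + 1) * ε = C' * ((2 * (s : ℝ) + 1) * Real.exp (-(s : ℝ) ^ s')) := by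
              rw [hε]; ring
          _ ≤ C' * E := mul_le_mul_of_nonneg_left a1 hC'
      have t0 : 0 ≤ |C₀| * E := by positivity
      have t2 : ε ≤ C' * E := by
        refine le_trans ?_ t1
        have : (1 : ℝ) ≤ 2 * s + 1 := by linarith
        nlinarith
      have cn : ∫ x, (1 - frProb β h (fun i y => ω i y x) (tube n v ((n : ℝ) ^ κ))) ∂P ≤
          |C₀| * E := by
        refine (hC₀ n (by omega)).trans ?_
        calc C₀ * Real.exp (-(n : ℝ) ^ s₀) ≤ |C₀| * Real.exp (-(n : ℝ) ^ s₀) :=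
              mul_le_mul_of_nonneg_right (le_abs_self _) (Real.exp_pos _).le
          _ ≤ |C₀| * E := mul_le_mul_of_nonneg_left a3 (abs_nonneg _)
      have ck : ∫ x, (1 - frProb β h (fun i y => ω i y x) (tube k v ((k : ℝ) ^ κ))) ∂P ≤
          |C₀| * E := by
        refine (hC₀ k hk1).trans ?_
        calc C₀ * Real.exp (-(k : ℝ) ^ s₀) ≤ |C₀| * Real.exp (-(k : ℝ) ^ s₀) :=
              mul_le_mul_of_nonneg_right (le_abs_self _) (Real.exp_pos _).le
          _ ≤ |C₀| * E := mul_le_mul_of_nonneg_left a2 (abs_nonneg _)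
      have q1 : 1 - δ ≤ qf P ω β h (s + k) v r (3 / 4) := by
        have := qf_of_conf he cn
        rw [← hk']
        have hCE : 0 ≤ C' * E := by positivity
        rw [hδ]
        linarith
      have q3 : 1 - δ ≤ qf P ω β h k v r (3 / 4) := by
        have h5 := qf_of_conf he ck
        have h6 : qf P ω β h k v (⌈(k : ℝ) ^ κ⌉₊ + 3) (3 / 4) ≤ qf P ω β h k v r (3 / 4) := by
          apply qf_mono
          rw [hr]
          apply Nat.add_le_add_right
          apply Nat.ceil_le_ceil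
          apply Real.rpow_le_rpow (Nat.cast_nonneg k) _ hκ.le
          have : k ≤ n := by omega
          exact_mod_cast this
        have hCE : 0 ≤ C' * E := by positivity
        rw [hδ]
        linarith
      obtain ⟨m, hm⟩ := low_step he hS1 (by omega) hb1 hb2 (k := k) (δ := δ)
        (mul_le_mul_of_nonneg_left hra (by norm_num)) hε0 hδ0 hH q1 q3
        (by
          have hCE : 0 ≤ C' * E := by positivity
          rw [hδ]; linarith)
        (by
          have hCE : 0 ≤ C' * E := by positivity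
          rw [hδ]; linarith)
      refine ⟨m, ?_⟩
      have hfin : 15 * δ = CC * E := by rw [hδ, hCC]; ring
      rw [← hfin]
      refine le_trans (measureReal_mono ?_ (measure_ne_top _ _)) hm
      intro x hx
      have hx' : (n : ℝ) ^ c' < |Real.log (Fr (wt β (fld ω x)) (dr h) n 0) - m| := hx
      rw [hk'] at hx'
      simp only [Set.mem_ofPred_eq]
      refine lt_of_le_of_lt ?_ hx'
      rw [← hk']
      have h5 : (s : ℝ) ^ (2 * a - 1) ≤ (n : ℝ) ^ (σ * (2 * a - 1)) := by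
        rw [Real.rpow_mul hnR.le]
        exact Real.rpow_le_rpow hsR.le (hSle n) h2a.le
      have h6 : K * (s : ℝ) ^ (2 * a - 1) ≤ K * (n : ℝ) ^ (σ * (2 * a - 1)) :=
        mul_le_mul_of_nonneg_left h5 hK.le
      linarith)
  exact ⟨s₃, C'', hs₃0, hfin⟩

end Pool.Agent.K1H53.KZ
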