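import Pool.Agent.K1H53.KZ.PP

/-!
Tails of the point-to-point polymers from tails of the free polymers: all scales.
-/

open MeasureTheory ProbabilityTheory Set Filter
open scoped Topology
open Classical

set_option linter.unusedSectionVars false

namespace Pool.Agent.K1H53.KZ

open Pool.Agent.K1H53.SD Pool.Agent.K1H53.SF Pool.Agent.K1H53.KP

/-- the numerical conditions -/
lemma pp_num {s v ρ c₂ C₁ A κ₀ κ₁ w t X lam lam' h gm gp g' m M Fh Fp F' Fm ph pp p' pm : ℝ}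
    (hs : 0 ≤ s) (hρ : 0 < ρ) (hc₂ : 0 < c₂) (hC₁ : 0 < C₁) (hlam : 0 ≤ lam) (hlam' : 0 ≤ lam')
    (hA : 0 ≤ A) (hκ₀ : c₂ * κ₀ = 2 * (ρ + 1)) (hκ₁ : κ₁ = 16 * C₁ * κ₀ + 1) (hw : 1 ≤ w)
    (ht : 0 < t) (hst : s * t = κ₀ * w) (hwt : w * t = κ₀ * X)
    (gp1 : h + t / 2 ≤ gp) (gp2 : gp ≤ h + t) (g1 : h + 2 * t ≤ g') (g2 : g' ≤ h + 4 * t)
    (gm1 : h - t ≤ gm) (gm2 : gm ≤ h - t / 2) (hm : |m - s * v| ≤ ρ * w)
    (hM1 : s * v + κ₁ * w ≤ M) (hM2 : M ≤ s * v + κ₁ * w + 1)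
    (b1 : ph + v * (gp - h) + c₂ * (gp - h) ^ 2 ≤ pp)
    (b2 : p' ≤ ph + v * (g' - h) + C₁ * (g' - h) ^ 2)
    (b3 : ph + v * (gm - h) + c₂ * (gm - h) ^ 2 ≤ pm)
    (i1 : |Fp - Fh - s * (pp - ph)| ≤ A * lam) (i2 : |F' - Fp - s * (p' - pp)| ≤ A * lam)
    (i3 : |Fm - Fh - s * (pm - ph)| ≤ A * lam)
    (E1 : (A + 2) * lam + Real.log 4 ≤ κ₀ * X / 2)
    (E3 : A * lam + 2 * lam' + Real.log 2 ≤ κ₀ * X / 2)
    (E4 : (A + 2) * lam + lam' + Real.log (8 * s) ≤ X) (hL : 0 ≤ Real.log (8 * s)) :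
    ((gp - h) * m + Fh + lam ≤ Fp - lam - Real.log 4) ∧
    (-((g' - gp) * M) + F' + lam ≤ Fp - lam - Real.log 4) ∧
    (Fh - h * m + lam' ≤ Fm - gm * m - lam' - Real.log 2) ∧
    (Fh - h * m - (κ₀ * (2 * κ₁ + ρ + 2) + 1) * X ≤
      Fp - gm * m - (gp - gm) * M - 2 * lam - lam' - Real.log (8 * s)) ∧
    lam ≤ (κ₀ * (2 * κ₁ + ρ + 2) + 1) * X := by
  have hκ0 : 0 < κ₀ := by
    by_contra hcon
    push Not at hcon
    nlinarith
  have hκ1 : 0 < κ₁ := by rw [hκ₁]; positivity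
  obtain ⟨m1, m2⟩ := abs_le.1 hm
  obtain ⟨j1, j1'⟩ := abs_le.1 i1
  obtain ⟨j2, j2'⟩ := abs_le.1 i2
  obtain ⟨j3, j3'⟩ := abs_le.1 i3
  have hlog4 : 0 < Real.log 4 := Real.log_pos (by norm_num)
  have hX : 0 ≤ X := by
    by_contra hcon
    push Not at hcon
    have : κ₀ * X < 0 := mul_neg_of_pos_of_neg hκ0 hcon
    have h5 : 0 ≤ (A + 2) * lam := by positivity
    linarith
  -- forward
  set τ := gp - h with hτ
  have τ1 : t / 2 ≤ τ := by linarith
  have τ2 : τ ≤ t := by linarith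
  have τ0 : 0 < τ := by linarith
  set σ := h - gm with hσ
  have σ1 : t / 2 ≤ σ := by linarith
  have σ2 : σ ≤ t := by linarith
  have σ0 : 0 < σ := by linarith
  have key : ∀ u : ℝ, t / 2 ≤ u → (ρ + 1) * w * u ≤ s * (c₂ * u ^ 2) := by
    intro u hu
    have hu0 : 0 < u := by linarith
    have h1 : s * (c₂ * u ^ 2) = (c₂ * s * u) * u := by ring
    have h2 : (c₂ * s * u) * (t / 2) ≤ (c₂ * s * u) * u :=
      mul_le_mul_of_nonneg_left hu (by positivity)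
    have h3 : (c₂ * s * u) * (t / 2) = u * (c₂ * (s * t)) / 2 := by ring
    rw [hst] at h3
    have h4 : u * (c₂ * (κ₀ * w)) / 2 = u * ((c₂ * κ₀) * w) / 2 := by ring
    rw [h4, hκ₀] at h3
    have h5 : u * (2 * (ρ + 1) * w) / 2 = (ρ + 1) * w * u := by ring
    linarith
  have key2 : ∀ u : ℝ, t / 2 ≤ u → κ₀ * X / 2 ≤ w * u := by
    intro u hu
    have h1 : w * (t / 2) ≤ w * u := mul_le_mul_of_nonneg_left hu (by linarith)
    have h2 : w * (t / 2) = w * t / 2 := by ring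
    rw [hwt] at h2
    linarith
  have kp := key τ τ1
  have kp2 := key2 τ τ1
  have km := key σ σ1
  have km2 := key2 σ σ1
  refine ⟨?_, ?_, ?_, ?_, ?_⟩
  · -- n1
    have h1 : s * (v * τ + c₂ * τ ^ 2) ≤ s * (pp - ph) :=
      mul_le_mul_of_nonneg_left (by linarith) hs
    have h2 : τ * m ≤ τ * (s * v + ρ * w) := mul_le_mul_of_nonneg_left (by linarith) τ0.le
    have e1 : s * (v * τ + c₂ * τ ^ 2) = τ * (s * v) + s * (c₂ * τ ^ 2) := by ring
    have e2 : τ * (s * v + ρ * w) = τ * (s * v) + ρ * (w * τ) := by ring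
    have e3 : (ρ + 1) * w * τ = ρ * (w * τ) + w * τ := by ring
    linarith
  · -- n2
    have hpp : ph + v * τ ≤ pp := by
      have : 0 ≤ c₂ * τ ^ 2 := by positivity
      linarith
    set τ' := g' - h with hτ'
    have e0 : g' - gp = τ' - τ := by rw [hτ', hτ]; ring
    have τ'1 : 2 * t ≤ τ' := by linarith
    have τ'2 : τ' ≤ 4 * t := by linarith
    have h1 : s * (p' - pp) ≤ s * (v * (τ' - τ) + C₁ * τ' ^ 2) :=
      mul_le_mul_of_nonneg_left (by linarith) hs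
    have h2 : τ' ^ 2 ≤ (4 * t) ^ 2 := pow_le_pow_left₀ (by linarith) τ'2 2
    have h3 : s * (C₁ * τ' ^ 2) ≤ s * (C₁ * (4 * t) ^ 2) :=
      mul_le_mul_of_nonneg_left (mul_le_mul_of_nonneg_left h2 hC₁.le) hs
    have e1 : s * (C₁ * (4 * t) ^ 2) = 16 * C₁ * t * (s * t) := by ring
    rw [hst] at e1
    have e2 : 16 * C₁ * t * (κ₀ * w) = (16 * C₁ * κ₀) * (w * t) := by ring
    have h4 : (τ' - τ) * (s * v + κ₁ * w) ≤ (τ' - τ) * M :=
      mul_le_mul_of_nonneg_left hM1 (by linarith)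
    have h5 : t * (κ₁ * w) ≤ (τ' - τ) * (κ₁ * w) :=
      mul_le_mul_of_nonneg_right (by linarith) (by positivity)
    have e3 : s * (v * (τ' - τ) + C₁ * τ' ^ 2) = (τ' - τ) * (s * v) + s * (C₁ * τ' ^ 2) := by ring
    have e4 : (τ' - τ) * (s * v + κ₁ * w) = (τ' - τ) * (s * v) + (τ' - τ) * (κ₁ * w) := by ring
    have e5 : t * (κ₁ * w) = (16 * C₁ * κ₀) * (w * t) + w * t := by rw [hκ₁]; ring
    have e6 : 0 ≤ κ₀ * X := by positivity
    rw [e0]
    linarith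
  · -- n3
    have h1 : s * (v * (gm - h) + c₂ * (gm - h) ^ 2) ≤ s * (pm - ph) :=
      mul_le_mul_of_nonneg_left (by linarith) hs
    have e1 : s * (v * (gm - h) + c₂ * (gm - h) ^ 2) = -(σ * (s * v)) + s * (c₂ * σ ^ 2) := by
      rw [hσ]; ring
    have h2 : σ * (s * v - ρ * w) ≤ σ * m := mul_le_mul_of_nonneg_left (by linarith) σ0.le
    have e2 : σ * (s * v - ρ * w) = σ * (s * v) - ρ * (w * σ) := by ring
    have e3 : (ρ + 1) * w * σ = ρ * (w * σ) + w * σ := by ring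
    have e4 : Fh - h * m = Fh - gm * m - σ * m := by rw [hσ]; ring
    linarith
  · -- n4
    have hpp : s * (v * τ) ≤ s * (pp - ph) := by
      apply mul_le_mul_of_nonneg_left _ hs
      have : 0 ≤ c₂ * τ ^ 2 := by positivity
      linarith
    have e0 : gp - gm = τ + σ := by rw [hτ, hσ]; ring
    have e4 : Fh - h * m = Fh - gm * m - σ * m := by rw [hσ]; ring
    have h1 : τ * M ≤ τ * (s * v + κ₁ * w + 1) := mul_le_mul_of_nonneg_left hM2 τ0.le
    have h2 : σ * M ≤ σ * (s * v + κ₁ * w + 1) := mul_le_mul_of_nonneg_left hM2 σ0.le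
    have h3 : σ * (s * v - ρ * w) ≤ σ * m := mul_le_mul_of_nonneg_left (by linarith) σ0.le
    have h4 : τ * (κ₁ * w + 1) ≤ t * (κ₁ * w + w) :=
      mul_le_mul τ2 (by linarith) (by positivity) ht.le
    have h5 : σ * (κ₁ * w + 1 + ρ * w) ≤ t * (κ₁ * w + w + ρ * w) :=
      mul_le_mul σ2 (by linarith) (by positivity) ht.le
    have e5 : t * (κ₁ * w + w) + t * (κ₁ * w + w + ρ * w) = (2 * κ₁ + ρ + 2) * (w * t) := by ring
    rw [hwt] at e5
    have e6 : (2 * κ₁ + ρ + 2) * (κ₀ * X) = κ₀ * (2 * κ₁ + ρ + 2) * X := by ring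
    have e7 : (κ₀ * (2 * κ₁ + ρ + 2) + 1) * X = κ₀ * (2 * κ₁ + ρ + 2) * X + X := by ring
    have e8 : (τ + σ) * M = τ * M + σ * M := by ring
    have e9 : τ * (s * v + κ₁ * w + 1) = s * (v * τ) + τ * (κ₁ * w + 1) := by ring
    have e10 : σ * (s * v + κ₁ * w + 1) = σ * (s * v - ρ * w) + σ * (κ₁ * w + 1 + ρ * w) := by
      ring
    rw [e0, e8, e7]
    linarith
  · have e7 : (κ₀ * (2 * κ₁ + ρ + 2) + 1) * X = κ₀ * (2 * κ₁ + ρ + 2) * X + X := by ring
    have h1 : 0 ≤ κ₀ * (2 * κ₁ + ρ + 2) * X := by positivity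
    have h2 : (A + 2) * lam = A * lam + 2 * lam := by ring
    have h3 : 0 ≤ A * lam := by positivity
    linarith

lemma se_all {Q : ℕ → ℤ → Prop} {F : ℕ → ℤ → ℝ} {s C : ℝ} (hs : 0 < s) (hB : ∀ n m, F n m ≤ 1)
    (h : ∀ᶠ n : ℕ in atTop, ∀ m, Q n m → F n m ≤ C * Real.exp (-(n : ℝ) ^ s)) :
    ∃ C' : ℝ, 0 ≤ C' ∧ ∀ n : ℕ, 1 ≤ n → ∀ m, Q n m → F n m ≤ C' * Real.exp (-(n : ℝ) ^ s) := by
  obtain ⟨N, hN⟩ := eventually_atTop.1 h
  refine ⟨max |C| (Real.exp ((N : ℝ) ^ s)), le_max_of_le_left (abs_nonneg _), fun n hn m hm => ?_⟩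
  rcases le_or_gt N n with hle | hlt
  · refine (hN n hle m hm).trans (mul_le_mul_of_nonneg_right ?_ (Real.exp_pos _).le)
    exact (le_abs_self C).trans (le_max_left _ _)
  · have h1 : (n : ℝ) ^ s ≤ (N : ℝ) ^ s :=
      Real.rpow_le_rpow (Nat.cast_nonneg n) (by exact_mod_cast hlt.le) hs.le
    calc F n m ≤ 1 := hB n m
      _ = Real.exp ((N : ℝ) ^ s) * Real.exp (-(N : ℝ) ^ s) := by
          rw [← Real.exp_add]; simp
      _ ≤ Real.exp ((N : ℝ) ^ s) * Real.exp (-(n : ℝ) ^ s) := by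
          apply mul_le_mul_of_nonneg_left _ (Real.exp_pos _).le
          exact Real.exp_le_exp.2 (by linarith)
      _ ≤ _ := mul_le_mul_of_nonneg_right (le_max_right _ _) (Real.exp_pos _).le

variable {Ω : Type*} [MeasurableSpace Ω] {P : Measure Ω} [IsProbabilityMeasure P]
variable {ω : ℕ → ℤ → Ω → ℝ}

theorem pp_thm (he : IsEnv P ω) (β : ℝ) {p : ℝ → ℝ} (hincr : S_incr P ω β p)
    (hrev : S_rev P ω β) : S_pp P ω β p := by
  intro c s₀ C hc hc1 hs₀ h v C₁ c₂ r hG hc₂ hlo a ρ ha ha1 hρ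
  obtain ⟨A, s1, C1, hA, hs1, hC1, hI1, hI2⟩ := hincr c s₀ C hc hc1 hs₀
  obtain ⟨A', s2, C2, hA', hs2, hC2, hR⟩ := hrev c s₀ C (|h| + 1) hc hc1 hs₀
  set κ₀ := 2 * (ρ + 1) / c₂ with hκ₀
  have hκ00 : 0 < κ₀ := by rw [hκ₀]; positivity
  set κ₁ := 16 * C₁ * κ₀ + 1 with hκ₁
  have hC10 := hG.C0
  have hκ10 : 0 < κ₁ := by rw [hκ₁]; positivity
  set K := κ₀ * (2 * κ₁ + ρ + 2) + 1 with hK
  have hK0 : 0 < K := by rw [hK]; positivity
  set s3 := min (s1 / 2) s2 with hs3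
  have hs30 : 0 < s3 := by rw [hs3]; positivity
  obtain ⟨C', hC', hfin⟩ := se_all (Q := fun N m => |m| ≤ (N : ℤ) ∧ (m - N) % 2 = 0 ∧
        |(m : ℝ) - N * v| ≤ ρ * (N : ℝ) ^ a)
    (F := fun N m => P.real {x | K * (N : ℝ) ^ (2 * a - 1) <
      |Real.log (Z (wt β (fld ω x)) 0 N m) - (FL P ω β h N - h * m)|})
    (C := 3 * C1 + 2 * C2) hs30 (fun n m => measureReal_le_one) (by
      have t0 : Tendsto (fun N : ℕ => 4 * (κ₀ * (N : ℝ) ^ (a - 1))) atTop (𝓝 0) := by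
        have h1 : Tendsto (fun N : ℕ => (N : ℝ) ^ (-(1 - a))) atTop (𝓝 0) :=
          (tendsto_rpow_neg_atTop (by linarith)).comp tendsto_natCast_atTop_atTop
        have h2 := (h1.const_mul κ₀).const_mul 4
        rw [mul_zero, mul_zero] at h2
        refine h2.congr (fun N => ?_)
        rw [neg_sub]
      have e1 : ∀ᶠ N : ℕ in atTop, ((A + 2) * (2 / κ₀)) * (N : ℝ) ^ c + Real.log 4 * (2 / κ₀) ≤
          (N : ℝ) ^ (2 * a - 1) := pow_lt_ev (by linarith) (by linarith)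
      have e3 : ∀ᶠ N : ℕ in atTop, ((A + 2 * A') * (2 / κ₀)) * (N : ℝ) ^ c +
          Real.log 2 * (2 / κ₀) ≤ (N : ℝ) ^ (2 * a - 1) := pow_lt_ev (by linarith) (by linarith)
      have e4 : ∀ᶠ N : ℕ in atTop, ((A + 2) + A' + 8 ^ c / c) * (N : ℝ) ^ c + 0 ≤
          (N : ℝ) ^ (2 * a - 1) := pow_lt_ev (by linarith) (by linarith)
      filter_upwards [t0.eventually_le_const hG.r0, e1, e3, e4, poly_se 1 hs1,
        eventually_ge_atTop 1] with N u0 u1 u3 u4 u5 hN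
      rintro m ⟨hm1, hm2, hm3⟩
      have hNR : (1 : ℝ) ≤ N := by exact_mod_cast hN
      have hN0 : (0 : ℝ) < N := by linarith
      set t := κ₀ * (N : ℝ) ^ (a - 1) with ht
      have ht0 : 0 < t := by rw [ht]; positivity
      have hr1 := hG.r1
      have htr : t ≤ r := by linarith
      obtain ⟨gp, hgpE, gp1, gp2⟩ := hG.nbp t ht0 htr
      obtain ⟨g', hg'E, g1, g2⟩ := hG.nbp (4 * t) (by positivity) u0
      obtain ⟨gm, hgmE, gm1, gm2⟩ := hG.nbm t ht0 htr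
      set w := (N : ℝ) ^ a with hw
      set X := (N : ℝ) ^ (2 * a - 1) with hX
      set lam := (N : ℝ) ^ c with hlam
      have hw1 : 1 ≤ w := Real.one_le_rpow hNR (by linarith)
      have hst : (N : ℝ) * t = κ₀ * w := by
        rw [ht, hw]
        have : (N : ℝ) ^ a = N * (N : ℝ) ^ (a - 1) := by
          rw [← Real.rpow_one_add' hN0.le (by linarith)]
          congr 1; ring
        rw [this]; ring
      have hwt : w * t = κ₀ * X := by
        rw [ht, hw, hX]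
        have : (N : ℝ) ^ (2 * a - 1) = (N : ℝ) ^ a * (N : ℝ) ^ (a - 1) := by
          rw [← Real.rpow_add hN0]; congr 1; ring
        rw [this]; ring
      set M := ⌈(N : ℝ) * v + κ₁ * w⌉ with hM
      have hM1 : (N : ℝ) * v + κ₁ * w ≤ M := Int.le_ceil _
      have hM2 : (M : ℝ) ≤ (N : ℝ) * v + κ₁ * w + 1 := (Int.ceil_lt_add_one _).le
      have b1 : p h + v * (gp - h) + c₂ * (gp - h) ^ 2 ≤ p gp := by
        have := hlo (gp - h) (by rw [abs_le]; constructor <;> linarith)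
        rwa [add_sub_cancel] at this
      have b2 : p g' ≤ p h + v * (g' - h) + C₁ * (g' - h) ^ 2 := by
        have := hG.up (g' - h) (by rw [abs_le]; constructor <;> linarith)
        rwa [add_sub_cancel] at this
      have b3 : p h + v * (gm - h) + c₂ * (gm - h) ^ 2 ≤ p gm := by
        have := hlo (gm - h) (by rw [abs_le]; constructor <;> linarith)
        rwa [add_sub_cancel] at this
      have i1 := hI1 h hG.mem gp hgpE (by rw [abs_le]; constructor <;> linarith) N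
      have i2 := hI1 gp hgpE g' hg'E (by rw [abs_le]; constructor <;> linarith) N
      have i3 := hI1 h hG.mem gm hgmE (by rw [abs_le]; constructor <;> linarith) N
      have hE1 : (A + 2) * lam + Real.log 4 ≤ κ₀ * X / 2 := by
        have h1 : (A + 2) * (2 / κ₀) * lam + Real.log 4 * (2 / κ₀) =
          ((A + 2) * lam + Real.log 4) * (2 / κ₀) := by ring
        rw [h1, mul_div_assoc', div_le_iff₀ hκ00] at u1
        linarith
      have hE3 : A * lam + 2 * (A' * lam) + Real.log 2 ≤ κ₀ * X / 2 := by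
        have h1 : (A + 2 * A') * (2 / κ₀) * lam + Real.log 2 * (2 / κ₀) =
          (A * lam + 2 * (A' * lam) + Real.log 2) * (2 / κ₀) := by ring
        rw [h1, mul_div_assoc', div_le_iff₀ hκ00] at u3
        linarith
      have hE4 : (A + 2) * lam + A' * lam + Real.log (8 * N) ≤ X := by
        have h1 := Real.log_le_rpow_div (x := 8 * (N : ℝ)) (by positivity) hc
        rw [Real.mul_rpow (by norm_num) hN0.le] at h1
        have h2 : (8 : ℝ) ^ c * (N : ℝ) ^ c / c = 8 ^ c / c * lam := by rw [hlam]; ring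
        rw [h2] at h1
        linarith
      have hL : 0 ≤ Real.log (8 * (N : ℝ)) := Real.log_nonneg (by linarith)
      obtain ⟨n1, n2, n3, n4, n5⟩ := pp_num (s := (N : ℝ)) (v := v) (ρ := ρ) (c₂ := c₂) (C₁ := C₁)
        (A := A) (κ₀ := κ₀) (κ₁ := κ₁) (w := w) (t := t) (X := X) (lam := lam) (lam' := A' * lam)
        (h := h) (gm := gm) (gp := gp) (g' := g') (m := (m : ℝ)) (M := (M : ℝ))
        (Fh := FL P ω β h N) (Fp := FL P ω β gp N) (F' := FL P ω β g' N) (Fm := FL P ω β gm N)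
        (ph := p h) (pp := p gp) (p' := p g') (pm := p gm)
        hN0.le hρ hc₂ hC10 (by positivity) (by positivity) hA (by rw [hκ₀]; field_simp) hκ₁ hw1
        ht0 hst hwt gp1 gp2 (by linarith) g2 gm1 gm2 hm3 hM1 hM2 b1 b2 b3 i1 i2 i3 hE1 hE3 hE4 hL
      have d1 := hI2 h hG.mem N hN N le_rfl
      have d2 := hI2 gp hgpE N hN N le_rfl
      have d3 := hI2 g' hg'E N hN N le_rfl
      have d4 := hI2 gm hgmE N hN N le_rfl
      have hgmG : |gm| ≤ |h| + 1 := by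
        have h1 : |gm - h| ≤ 1 := by rw [abs_le]; constructor <;> linarith
        have h2 := abs_add_le (gm - h) h
        rw [sub_add_cancel] at h2
        linarith
      have d5 := hR gm hgmE hgmG N hN m
      have d6 := hR h hG.mem (by linarith) N hN m
      have hfinal := pp_prob he hN (m := m) (M := M) hm1 hm2 (h := h) (gm := gm) (gp := gp)
        (g' := g') (by linarith) (by linarith) (by linarith) (lam := lam) (lam' := A' * lam)
        (Lam := K * X) (e1 := C1 * Real.exp (-(N : ℝ) ^ s1)) (e2 := C2 * Real.exp (-(N : ℝ) ^ s2))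
        (by positivity) d1 d2 d3 d4 d5 d6 n1 n2 n3 n4 n5
      refine hfinal.trans ?_
      rw [pow_one] at u5
      have v1 : Real.exp (-(N : ℝ) ^ (s1 / 2)) ≤ Real.exp (-(N : ℝ) ^ s3) := by
        apply Real.exp_le_exp.2
        have := Real.rpow_le_rpow_of_exponent_le hNR (min_le_left (s1 / 2) s2)
        linarith
      have v2 : Real.exp (-(N : ℝ) ^ s2) ≤ Real.exp (-(N : ℝ) ^ s3) := by
        apply Real.exp_le_exp.2
        have := Real.rpow_le_rpow_of_exponent_le hNR (min_le_right (s1 / 2) s2)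
        linarith
      have w1 : 3 * (2 * (N : ℝ) + 1) * (C1 * Real.exp (-(N : ℝ) ^ s1)) ≤
          3 * C1 * Real.exp (-(N : ℝ) ^ s3) := by
        calc 3 * (2 * (N : ℝ) + 1) * (C1 * Real.exp (-(N : ℝ) ^ s1)) =
            3 * C1 * ((2 * (N : ℝ) + 1) * Real.exp (-(N : ℝ) ^ s1)) := by ring
          _ ≤ 3 * C1 * Real.exp (-(N : ℝ) ^ s3) :=
              mul_le_mul_of_nonneg_left (u5.trans v1) (by positivity)
      have w2 : 2 * (C2 * Real.exp (-(N : ℝ) ^ s2)) ≤ 2 * C2 * Real.exp (-(N : ℝ) ^ s3) := by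
        calc 2 * (C2 * Real.exp (-(N : ℝ) ^ s2)) = 2 * C2 * Real.exp (-(N : ℝ) ^ s2) := by ring
          _ ≤ _ := mul_le_mul_of_nonneg_left v2 (by positivity)
      have w3 : (3 * C1 + 2 * C2) * Real.exp (-(N : ℝ) ^ s3) =
          3 * C1 * Real.exp (-(N : ℝ) ^ s3) + 2 * C2 * Real.exp (-(N : ℝ) ^ s3) := by ring
      rw [w3]
      exact add_le_add w1 w2)
  refine ⟨K, s3, C', hK0, hs30, hC', fun N hN m hm1 hm2 hm3 => ?_⟩
  exact hfin N hN m ⟨hm1, hm2, hm3⟩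

end Pool.Agent.K1H53.KZ
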