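import Pool.Agent.K1H53.KZ.Plan
import Pool.Agent.K1H38.DP.Bridge

/-!
Tails of the reversed free polymer (fixed end point, free starting point).
-/

open MeasureTheory ProbabilityTheory Set Filter
open scoped Topology

set_option linter.unusedSectionVars false

namespace Pool.Agent.K1H53.KZ

open Pool.Agent.K1H53.SD Pool.Agent.K1H53.SF Pool.Agent.K1H53.KP

/-! ### the deterministic identity -/

lemma Z_rev_step {K : ℕ → ℤ → ℝ} (hK : ∀ i x, 0 < K i x) (n : ℕ) (x z : ℤ) :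
    Z K x (n + 1) z = K (n + 1) z * (Z (fun i u => K (n + 1 - i) u) z n (x - 1) +
      Z (fun i u => K (n + 1 - i) u) z n (x + 1)) := by
  have h := Z_rev K (n + 1) x z
  rw [Z_succ (fun i u => K (n + 1 - i) u)] at h
  simp only [Nat.sub_self] at h
  apply mul_right_cancel₀ (hK 0 x).ne'
  rw [h]
  ring

lemma sum_shift_left {f : ℤ → ℝ} {z : ℤ} {n : ℕ} (hf : ∀ u, (n : ℤ) < |u - z| → f u = 0) :
    ∑ x ∈ Finset.Icc (z - ((n + 1 : ℕ) : ℤ)) (z + ((n + 1 : ℕ) : ℤ)), f (x - 1) =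
      ∑ u ∈ Finset.Icc (z - n) (z + n), f u := by
  have h1 : ∑ x ∈ Finset.Icc (z - ((n + 1 : ℕ) : ℤ)) (z + ((n + 1 : ℕ) : ℤ)), f (x - 1) =
      ∑ u ∈ Finset.Icc (z - ((n + 1 : ℕ) : ℤ) - 1) (z + ((n + 1 : ℕ) : ℤ) - 1), f u := by
    refine Finset.sum_nbij' (fun x => x - 1) (fun u => u + 1) ?_ ?_ ?_ ?_ ?_
    · intro m hm; rw [Finset.mem_Icc] at hm ⊢; omega
    · intro m hm; rw [Finset.mem_Icc] at hm ⊢; omega
    · intro m _; ring
    · intro m _; ring
    · intro m _; rfl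
  rw [h1]
  symm
  apply Finset.sum_subset
  · intro u hu
    rw [Finset.mem_Icc] at hu ⊢
    push_cast
    omega
  · intro u _ hu
    apply hf
    rw [Finset.mem_Icc] at hu
    rcases abs_cases (u - z) with h | h <;> omega

lemma sum_shift_right {f : ℤ → ℝ} {z : ℤ} {n : ℕ} (hf : ∀ u, (n : ℤ) < |u - z| → f u = 0) :
    ∑ x ∈ Finset.Icc (z - ((n + 1 : ℕ) : ℤ)) (z + ((n + 1 : ℕ) : ℤ)), f (x + 1) =
      ∑ u ∈ Finset.Icc (z - n) (z + n), f u := by
  have h1 : ∑ x ∈ Finset.Icc (z - ((n + 1 : ℕ) : ℤ)) (z + ((n + 1 : ℕ) : ℤ)), f (x + 1) =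
      ∑ u ∈ Finset.Icc (z - ((n + 1 : ℕ) : ℤ) + 1) (z + ((n + 1 : ℕ) : ℤ) + 1), f u := by
    refine Finset.sum_nbij' (fun x => x + 1) (fun u => u - 1) ?_ ?_ ?_ ?_ ?_
    · intro m hm; rw [Finset.mem_Icc] at hm ⊢; omega
    · intro m hm; rw [Finset.mem_Icc] at hm ⊢; omega
    · intro m _; ring
    · intro m _; ring
    · intro m _; rfl
  rw [h1]
  symm
  apply Finset.sum_subset
  · intro u hu
    rw [Finset.mem_Icc] at hu ⊢
    push_cast
    omega
  · intro u _ hu
    apply hf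
    rw [Finset.mem_Icc] at hu
    rcases abs_cases (u - z) with h | h <;> omega

/-- time reversal and reflection of the free polymer -/
lemma Rv_eq {K : ℕ → ℤ → ℝ} (hK : ∀ i x, 0 < K i x) (g : ℝ) (n : ℕ) (z : ℤ) :
    Rv K g (n + 1) z = K (n + 1) z * (Real.exp g + Real.exp (-g)) *
      (Real.exp (-(g * z)) * Fr (fun i u => K (n + 1 - i) (z - u)) (dr g) n 0) := by
  set L : ℕ → ℤ → ℝ := fun i u => K (n + 1 - i) u with hL
  have hs : ∀ u, (n : ℤ) < |u - z| → Z L z n u = 0 := Z_supp L z n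
  have e1 : ∀ x : ℤ, Z K x (n + 1) z * Real.exp (-(g * x)) =
      K (n + 1) z * (Real.exp (-g) * (Z L z n (x - 1) * Real.exp (-(g * ((x - 1 : ℤ) : ℝ)))) +
        Real.exp g * (Z L z n (x + 1) * Real.exp (-(g * ((x + 1 : ℤ) : ℝ))))) := by
    intro x
    rw [Z_rev_step hK]
    have a1 : Real.exp (-(g * x)) = Real.exp (-g) * Real.exp (-(g * ((x - 1 : ℤ) : ℝ))) := by
      rw [← Real.exp_add]; congr 1; push_cast; ring
    have a2 : Real.exp (-(g * x)) = Real.exp g * Real.exp (-(g * ((x + 1 : ℤ) : ℝ))) := by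
      rw [← Real.exp_add]; congr 1; push_cast; ring
    calc K (n + 1) z * (Z L z n (x - 1) + Z L z n (x + 1)) * Real.exp (-(g * x)) =
        K (n + 1) z * (Z L z n (x - 1) * Real.exp (-(g * x)) +
          Z L z n (x + 1) * Real.exp (-(g * x))) := by ring
      _ = K (n + 1) z * (Z L z n (x - 1) * (Real.exp (-g) * Real.exp (-(g * ((x - 1 : ℤ) : ℝ)))) +
          Z L z n (x + 1) * (Real.exp g * Real.exp (-(g * ((x + 1 : ℤ) : ℝ))))) := by
        rw [← a1, ← a2]
      _ = _ := by ring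
  unfold Rv
  rw [Finset.sum_congr rfl (fun x _ => e1 x), ← Finset.mul_sum, Finset.sum_add_distrib,
    ← Finset.mul_sum, ← Finset.mul_sum]
  have s1 := sum_shift_left (f := fun u => Z L z n u * Real.exp (-(g * (u : ℝ)))) (z := z) (n := n)
    (fun u hu => by rw [hs u hu, zero_mul])
  have s2 := sum_shift_right (f := fun u => Z L z n u * Real.exp (-(g * (u : ℝ)))) (z := z) (n := n)
    (fun u hu => by rw [hs u hu, zero_mul])
  rw [s1, s2]
  have e2 : ∑ u ∈ Finset.Icc (z - n) (z + n), Z L z n u * Real.exp (-(g * (u : ℝ))) =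
      Real.exp (-(g * z)) * Fr (fun i u => K (n + 1 - i) (z - u)) (dr g) n 0 := by
    unfold Fr
    rw [Finset.mul_sum]
    refine Finset.sum_nbij' (fun u => z - u) (fun y => z - y) ?_ ?_ ?_ ?_ ?_
    · intro m hm; rw [Finset.mem_Icc] at hm ⊢; omega
    · intro m hm; rw [Finset.mem_Icc] at hm ⊢; omega
    · intro m _; ring
    · intro m _; ring
    · intro u _
      rw [Z_refl L z z, sub_self]
      unfold dr
      have a1 : Real.exp (-(g * u)) = Real.exp (-(g * z)) * Real.exp (g * ((z - u : ℤ) : ℝ)) := by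
        rw [← Real.exp_add]; congr 1; push_cast; ring
      rw [a1]
      ring
  rw [e2]
  ring

lemma Fr_congr_le {K L : ℕ → ℤ → ℝ} {n : ℕ} (h : ∀ i x, 1 ≤ i → i ≤ n → K i x = L i x)
    (φ : ℤ → ℝ) (x0 : ℤ) : Fr K φ n x0 = Fr L φ n x0 := by
  unfold Fr
  apply Finset.sum_congr rfl
  intro z _
  congr 1
  apply Z_congr
  intro i x h1 h2 _
  exact h i x h1 h2

variable {Ω : Type*} [MeasurableSpace Ω] {P : Measure Ω} [IsProbabilityMeasure P]
variable {ω : ℕ → ℤ → Ω → ℝ}

/-- the reversed field has the same law -/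
lemma prob_rev (he : IsEnv P ω) (β g : ℝ) (n : ℕ) (z : ℤ) (c0 lam : ℝ) :
    P.real {a | lam < |Real.log (Fr (fun i u => wt β (fld ω a) (n + 1 - i) (z - u)) (dr g) n 0) -
      c0|} = P.real {a | lam < |Real.log (Fr (wt β (fld ω a)) (dr g) n 0) - c0|} := by
  set τ : ℕ → ℤ → ℕ × ℤ := fun i u => (if i ≤ n + 1 then n + 1 - i else i, z - u) with hτd
  have hτ : Function.Injective (fun p : ℕ × ℤ => τ p.1 p.2) := by
    rintro ⟨i, x⟩ ⟨j, y⟩ hh
    simp only [hτd, Prod.mk.injEq] at hh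
    obtain ⟨h1, h2⟩ := hh
    have hij : i = j := by split_ifs at h1 <;> omega
    have hxy : x = y := by omega
    rw [hij, hxy]
  have hS : MeasurableSet {η : ℕ → ℤ → ℝ | lam < |Real.log (Fr (wt β η) (dr g) n 0) - c0|} := by
    have h1 : Measurable (fun η : ℕ → ℤ → ℝ => Fr (wt β η) (dr g) n 0) :=
      measurable_Fr (fun i x => measurable_wt β i x) _ _ _
    exact measurableSet_lt measurable_const
      (((Real.measurable_log.comp h1).sub_const c0).abs)
  have h1 := prob_inv he hτ hS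
  simp only [Set.mem_ofPred_eq] at h1
  rw [← h1]
  congr 1
  ext a
  simp only [Set.mem_ofPred_eq]
  have e : Fr (fun i u => wt β (fld ω a) (n + 1 - i) (z - u)) (dr g) n 0 =
      Fr (wt β (fun i x => ω (τ i x).1 (τ i x).2 a)) (dr g) n 0 := by
    apply Fr_congr_le
    intro i x _ h2
    unfold wt
    simp only [hτd]
    rw [if_pos (by omega)]
  rw [e]

/-- exponential tails at a site -/
lemma prob_site (he : IsEnv P ω) (hexp : HasExp P ω) (β : ℝ) (i : ℕ) (x : ℤ) (lam : ℝ) :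
    P.real {a | lam < |β * ω i x a|} ≤
      (mgf (ω 1 0) P β + mgf (ω 1 0) P (-β)) * Real.exp (-lam) := by
  have h1 := measure_ge_le_exp_mul_mgf (μ := P) (X := fun a => β * ω i x a) lam
    (t := 1) zero_le_one (by
      simp only [one_mul]
      exact integrable_exp he hexp β i x)
  have h2 := measure_ge_le_exp_mul_mgf (μ := P) (X := fun a => (-β) * ω i x a) lam
    (t := 1) zero_le_one (by
      simp only [one_mul]
      exact integrable_exp he hexp (-β) i x)
  have m1 : mgf (fun a => β * ω i x a) P 1 = mgf (ω 1 0) P β := by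
    rw [← mgf_site he β i x]
    unfold mgf
    simp only [one_mul]
  have m2 : mgf (fun a => (-β) * ω i x a) P 1 = mgf (ω 1 0) P (-β) := by
    rw [← mgf_site he (-β) i x]
    unfold mgf
    simp only [one_mul]
  rw [m1] at h1
  rw [m2] at h2
  have hsub : {a | lam < |β * ω i x a|} ⊆ {a | lam ≤ β * ω i x a} ∪ {a | lam ≤ (-β) * ω i x a} := by
    intro a ha
    simp only [Set.mem_ofPred_eq, Set.mem_union] at ha ⊢
    rcases lt_abs.1 ha with h | h
    · exact Or.inl h.le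
    · right; rw [neg_mul]; exact h.le
  refine (measureReal_mono hsub (measure_ne_top _ _)).trans
    ((measureReal_union_le _ _).trans ?_)
  have e : -(1 : ℝ) * lam = -lam := by ring
  rw [e] at h1 h2
  linarith

open Pool.Agent.K1H38.DP in
lemma ZB_Fr (β g : ℝ) (η : ℕ → ℤ → ℝ) (n : ℕ) : ZB β g η n = Fr (wt β η) (dr g) n 0 :=
  (Fr_sum β g η n).symm

open Pool.Agent.K1H38.DP in
lemma Lm_FL (β g : ℝ) (n : ℕ) :
    Lm P (fun (i : ℕ) (x : Fin 1 → ℤ) => ω i (x 0)) β (fun _ => g) n = FL P ω β g n := by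
  rw [Lm_up]
  unfold LB FL
  simp_rw [ZB_Fr]

open Pool.Agent.K1H38.DP in
lemma dev_DV (β g : ℝ) (n : ℕ) (lam : ℝ) :
    dev P (fun (i : ℕ) (x : Fin 1 → ℤ) => ω i (x 0)) β (fun _ => g) n lam =
      DV P ω β g n lam := by
  unfold dev DV
  simp_rw [fld_up, Zd_up, Lm_FL, ZB_Fr]

/-- the drifts as vectors -/
def TS (P : Measure Ω) (ω : ℕ → ℤ → Ω → ℝ) (β c s C : ℝ) : Set (Fin 1 → ℝ) :=
  {h | h 0 ∈ TE P ω β c s C}

lemma vec_eq (h : Fin 1 → ℝ) : h = fun _ => h 0 := by
  funext k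
  rw [Subsingleton.elim k 0]

open Pool.Agent.K1H38.DP in
lemma tail_H {β c s C : ℝ} : ∀ n : ℕ, 1 ≤ n → ∀ h ∈ TS P ω β c s C,
    P.real (dev P (fun (i : ℕ) (x : Fin 1 → ℤ) => ω i (x 0)) β h n ((n : ℝ) ^ c)) ≤
      C * Real.exp (-(n : ℝ) ^ s) := by
  intro n hn h hh
  rw [vec_eq h, dev_DV]
  exact hh n hn

open Pool.Agent.K1H38.DP in
/-- tails of the reversed free polymer -/
theorem rev_thm (he : K1H53.SD.IsEnv P ω) (hexp : K1H53.SD.HasExp P ω) (β : ℝ) :
    S_rev P ω β := by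
  intro c s C G hc hc1 hs
  have he' := isEnv_up he
  have hexp' := hasExp_up hexp
  obtain ⟨s', C', hs', hC', hu⟩ := tail_unif he' hexp' β hc hs (S := TS P ω β c s C) tail_H
  obtain ⟨N₀, hN₀⟩ := additive he' hexp' β hc hs (S := TS P ω β c s C) tail_H
  set M := mgf (ω 1 0) P β + mgf (ω 1 0) P (-β) with hM
  have hM0 : 0 ≤ M := add_nonneg mgf_nonneg mgf_nonneg
  set t := min s' c with ht
  have ht0 : 0 < t := lt_min hs' hc
  have hlog2 : 0 ≤ Real.log 2 := Real.log_nonneg (by norm_num)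
  refine ⟨5 + Real.log 2 + 2 * |G| + |FL P ω β 0 1|, t, M + C' + Real.exp ((N₀ : ℝ) ^ t),
    by positivity, ht0, by positivity, ?_⟩
  intro g hg hgG N hN m
  have hNR : (1 : ℝ) ≤ N := by exact_mod_cast hN
  have hG0 : 0 ≤ G := (abs_nonneg g).trans hgG
  rcases lt_or_ge N N₀ with hlt | hge
  · -- small N
    have h1 : P.real {a | (5 + Real.log 2 + 2 * |G| + |FL P ω β 0 1|) * (N : ℝ) ^ c <
        |Real.log (Rv (wt β (fld ω a)) g N m) - (FL P ω β g N - g * m)|} ≤ 1 := by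
      rw [← probReal_univ (μ := P)]
      exact measureReal_mono (Set.subset_univ _) (measure_ne_top _ _)
    refine h1.trans ?_
    have h2 : (N : ℝ) ^ t ≤ (N₀ : ℝ) ^ t :=
      Real.rpow_le_rpow (by positivity) (by exact_mod_cast hlt.le) ht0.le
    have h3 : (1 : ℝ) ≤ Real.exp ((N₀ : ℝ) ^ t) * Real.exp (-(N : ℝ) ^ t) := by
      rw [← Real.exp_add]
      exact Real.one_le_exp (by linarith)
    have h4 : 0 ≤ (M + C') * Real.exp (-(N : ℝ) ^ t) := by positivity
    calc (1 : ℝ) ≤ Real.exp ((N₀ : ℝ) ^ t) * Real.exp (-(N : ℝ) ^ t) := h3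
      _ ≤ (M + C' + Real.exp ((N₀ : ℝ) ^ t)) * Real.exp (-(N : ℝ) ^ t) := by
        rw [add_mul (M + C')]; linarith
  · obtain ⟨n, rfl⟩ : ∃ n, N = n + 1 := ⟨N - 1, by omega⟩
    set E := ((n + 1 : ℕ) : ℝ) ^ c with hE
    have hE1 : 1 ≤ E := Real.one_le_rpow hNR hc.le
    -- additivity
    have hgS : (fun _ : Fin 1 => g) ∈ TS P ω β c s C := hg
    have hadd := hN₀ _ hgS n 1 hge
    rw [Lm_FL, Lm_FL, Lm_FL] at hadd
    have hF1 : |FL P ω β g 1| ≤ |FL P ω β 0 1| + G := by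
      have hl := Lm_lip he' hexp' β (h := fun _ : Fin 1 => g) (g := fun _ : Fin 1 => (0 : ℝ))
        (r := G) (fun k => by simpa using hgG) 1
      rw [Lm_FL, Lm_FL] at hl
      push_cast at hl
      rw [one_mul] at hl
      have := abs_sub_abs_le_abs_sub (FL P ω β g 1) (FL P ω β 0 1)
      linarith
    -- the two bad events
    set B1 := {a | E < |β * ω (n + 1) m a|} with hB1
    set B2 := {a | E < |Real.log (Fr (fun i u => wt β (fld ω a) (n + 1 - i) (m - u)) (dr g) n 0) -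
      FL P ω β g n|} with hB2
    have hP1 : P.real B1 ≤ M * Real.exp (-E) := prob_site he hexp β (n + 1) m E
    have hP2 : P.real B2 ≤ C' * Real.exp (-((n + 1 : ℕ) : ℝ) ^ s') := by
      rw [hB2, prob_rev he]
      have := hu (n + 1) (by omega) n (by omega) _ hgS
      rw [dev_DV] at this
      exact this
    have hcosh : Real.log (Real.exp g + Real.exp (-g)) ≤ Real.log 2 + G ∧
        0 ≤ Real.log (Real.exp g + Real.exp (-g)) := by
      have e1 : Real.exp g ≤ Real.exp G := Real.exp_le_exp.2 ((le_abs_self g).trans hgG)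
      have e2 : Real.exp (-g) ≤ Real.exp G := Real.exp_le_exp.2 ((neg_le_abs g).trans hgG)
      constructor
      · rw [← Real.log_exp G, ← Real.log_mul (by norm_num) (Real.exp_pos _).ne']
        apply Real.log_le_log (by positivity)
        linarith
      · apply Real.log_nonneg
        have a1 := Real.add_one_le_exp g
        have a2 := Real.add_one_le_exp (-g)
        linarith
    have hsub : {a | (5 + Real.log 2 + 2 * |G| + |FL P ω β 0 1|) * E <
        |Real.log (Rv (wt β (fld ω a)) g (n + 1) m) - (FL P ω β g (n + 1) - g * m)|} ⊆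
        B1 ∪ B2 := by
      intro a ha
      by_contra hcon
      simp only [Set.mem_union, not_or] at hcon
      obtain ⟨c1, c2⟩ := hcon
      simp only [hB1, hB2, Set.mem_ofPred_eq, not_lt] at c1 c2
      simp only [Set.mem_ofPred_eq] at ha
      have hFp : 0 < Fr (fun i u => wt β (fld ω a) (n + 1 - i) (m - u)) (dr g) n 0 :=
        Fr_pos (fun i x => wt_pos _ _ _ _) (fun x => Real.exp_pos _) _ _
      have hKp : 0 < wt β (fld ω a) (n + 1) m := wt_pos _ _ _ _
      have hlw : Real.log (wt β (fld ω a) (n + 1) m) = β * ω (n + 1) m a := by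
        unfold wt
        rw [Real.log_exp]
      rw [Rv_eq (fun i x => wt_pos _ _ _ _), Real.log_mul (by positivity) (by positivity),
        Real.log_mul hKp.ne' (by positivity), Real.log_mul (by positivity) hFp.ne',
        Real.log_exp, hlw] at ha
      have hGa : |G| = G := abs_of_nonneg hG0
      rw [hGa] at ha
      have b1 := abs_le.1 c1
      have b2 := abs_le.1 c2
      have b3 := abs_le.1 hadd
      have b4 := abs_le.1 hF1
      have hb : |β * ω (n + 1) m a + Real.log (Real.exp g + Real.exp (-g)) +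
          (-(g * m) + Real.log (Fr (fun i u => wt β (fld ω a) (n + 1 - i) (m - u)) (dr g) n 0)) -
          (FL P ω β g (n + 1) - g * m)| ≤ 5 * E + (Real.log 2 + 2 * G + |FL P ω β 0 1|) := by
        rw [abs_le]
        constructor <;> linarith [b1.1, b1.2, b2.1, b2.2, b3.1, b3.2, b4.1, b4.2, hcosh.1, hcosh.2]
      have hz : 0 ≤ Real.log 2 + 2 * G + |FL P ω β 0 1| := by positivity
      have hk : (Real.log 2 + 2 * G + |FL P ω β 0 1|) * 1 ≤
          (Real.log 2 + 2 * G + |FL P ω β 0 1|) * E := mul_le_mul_of_nonneg_left hE1 hz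
      have : (5 + Real.log 2 + 2 * G + |FL P ω β 0 1|) * E =
          5 * E + (Real.log 2 + 2 * G + |FL P ω β 0 1|) * E := by ring
      rw [this] at ha
      linarith
    refine (measureReal_mono hsub (measure_ne_top _ _)).trans
      ((measureReal_union_le _ _).trans ?_)
    have r1 : Real.exp (-E) ≤ Real.exp (-((n + 1 : ℕ) : ℝ) ^ t) := by
      apply Real.exp_le_exp.2
      have : ((n + 1 : ℕ) : ℝ) ^ t ≤ E :=
        Real.rpow_le_rpow_of_exponent_le hNR (min_le_right _ _)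
      linarith
    have r2 : Real.exp (-((n + 1 : ℕ) : ℝ) ^ s') ≤ Real.exp (-((n + 1 : ℕ) : ℝ) ^ t) := by
      apply Real.exp_le_exp.2
      have : ((n + 1 : ℕ) : ℝ) ^ t ≤ ((n + 1 : ℕ) : ℝ) ^ s' :=
        Real.rpow_le_rpow_of_exponent_le hNR (min_le_left _ _)
      linarith
    have r3 := mul_le_mul_of_nonneg_left r1 hM0
    have r4 := mul_le_mul_of_nonneg_left r2 hC'
    have r5 : 0 ≤ Real.exp ((N₀ : ℝ) ^ t) * Real.exp (-((n + 1 : ℕ) : ℝ) ^ t) := by positivity
    calc P.real B1 + P.real B2 ≤ M * Real.exp (-((n + 1 : ℕ) : ℝ) ^ t) +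
        C' * Real.exp (-((n + 1 : ℕ) : ℝ) ^ t) := by linarith
      _ ≤ (M + C' + Real.exp ((N₀ : ℝ) ^ t)) * Real.exp (-((n + 1 : ℕ) : ℝ) ^ t) := by
        rw [add_mul, add_mul]; linarith

end Pool.Agent.K1H53.KZ
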