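import Pool.Agent.K1H53.KZ.Plan
import Pool.Agent.K1H38.DP.Bridge

/-!
The upper half of the relation: confinement of the free polymer from tails of its free energy at
drifts taken from a set; increments of the mean free energies; uniform tails.
-/

open MeasureTheory ProbabilityTheory Set Filter
open scoped Topology
open Classical

set_option linter.unusedSectionVars false

namespace Pool.Agent.K1H53.KZ

open Pool.Agent.K1H53.SD Pool.Agent.K1H53.SF Pool.Agent.K1H53.KP

variable {Ω : Type*} [MeasurableSpace Ω] {P : Measure Ω} [IsProbabilityMeasure P]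
  {ω : ℕ → ℤ → Ω → ℝ}

/-- the environment on `Fin 1 → ℤ` -/
def om (ω : ℕ → ℤ → Ω → ℝ) : ℕ → (Fin 1 → ℤ) → Ω → ℝ := fun i x => ω i (x 0)

lemma cst (h : Fin 1 → ℝ) : h = fun _ => h 0 := by
  funext k
  have : k = 0 := Subsingleton.elim _ _
  rw [this]

lemma Fr_Zd (β h : ℝ) (a : Ω) (n : ℕ) : Fr (wt β (fld ω a)) (dr h) n 0 =
    K1H38.DP.Zd β (fun _ => h) (K1H38.DP.fld (om ω) a) n := by
  have e1 : K1H38.DP.fld (om ω) a = K1H38.DP.up (fld ω a) := rfl
  rw [e1, K1H38.DP.Zd_up, Fr_sum]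
  rfl

lemma FL_Lm (β h : ℝ) (n : ℕ) : FL P ω β h n = K1H38.DP.Lm P (om ω) β (fun _ => h) n := by
  unfold FL K1H38.DP.Lm
  simp_rw [Fr_Zd]

lemma FL_LB (β h : ℝ) (n : ℕ) : FL P ω β h n = K1H38.DP.LB P ω β h n := by
  rw [FL_Lm, ← K1H38.DP.Lm_up]
  rfl

lemma DV_dev (β h : ℝ) (n : ℕ) (lam : ℝ) :
    DV P ω β h n lam = K1H38.DP.dev P (om ω) β (fun _ => h) n lam := by
  unfold DV K1H38.DP.dev
  simp_rw [Fr_Zd, FL_Lm]

lemma env_om (he : IsEnv P ω) : TH967.DP.IsEnv P (om ω) := K1H38.DP.isEnv_up he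

lemma exp_om (hexp : HasExp P ω) : K1H38.DP.HasExp P (om ω) := K1H38.DP.hasExp_up hexp

/-- the limiting free energy -/
theorem exists_p1 (he : IsEnv P ω) (hexp : HasExp P ω) (β : ℝ) :
    ∃ p : ℝ → ℝ, ConvexOn ℝ univ p ∧
      ∀ h, Tendsto (fun n : ℕ => FL P ω β h n / n) atTop (𝓝 (p h)) := by
  obtain ⟨p, hc, -, hl, -⟩ := K1H38.DP.bridge_p he hexp β
  refine ⟨p, hc, fun h => ?_⟩
  simp_rw [FL_LB]
  exact hl h

/-- every exponent in `(1/2, 1]` is a tail exponent -/
theorem tail_half1 (he : IsEnv P ω) (hexp : HasExp P ω) (β h : ℝ) {c : ℝ} (hc : 1 / 2 < c)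
    (hc1 : c ≤ 1) : c ∈ TailSet P ω β h := by
  obtain ⟨s, C, hs, -, H⟩ := K1H38.DP.tail_half (env_om he) (exp_om hexp) β hc hc1
  refine ⟨by linarith, s, C, hs, fun n hn => ?_⟩
  have := H n hn (fun _ => h)
  rw [← DV_dev] at this
  unfold DV FL at this
  simp_rw [frEnergy_eq]
  exact this

/-- the drifts on `Fin 1` -/
def SE (P : Measure Ω) (ω : ℕ → ℤ → Ω → ℝ) (β c s C : ℝ) : Set (Fin 1 → ℝ) :=
  {g | g 0 ∈ TE P ω β c s C}

lemma SE_dev {β c s C : ℝ} : ∀ n : ℕ, 1 ≤ n → ∀ h ∈ SE P ω β c s C,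
    P.real (K1H38.DP.dev P (om ω) β h n ((n : ℝ) ^ c)) ≤ C * Real.exp (-(n : ℝ) ^ s) := by
  intro n hn h hh
  have := hh n hn
  rw [DV_dev] at this
  rw [cst h]
  exact this

lemma lim_two {β : ℝ} {p : ℝ → ℝ}
    (hp : ∀ h, Tendsto (fun n : ℕ => FL P ω β h n / n) atTop (𝓝 (p h))) (h : Fin 1 → ℝ) :
    Tendsto (fun k : ℕ => K1H38.DP.Lm P (om ω) β h (2 ^ k) / 2 ^ k) atTop
      (𝓝 ((fun h : Fin 1 → ℝ => p (h 0)) h)) := by
  have h1 := (hp (h 0)).comp (tendsto_pow_atTop_atTop_of_one_lt (r := 2) one_lt_two)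
  refine h1.congr (fun k => ?_)
  simp only [Function.comp_apply]
  rw [FL_Lm, ← cst h]
  push_cast
  rfl

/-- increments of the mean free energies and uniform tails -/
theorem incr_thm (he : IsEnv P ω) (hexp : HasExp P ω) (β : ℝ) {p : ℝ → ℝ}
    (hp : ∀ h, Tendsto (fun n : ℕ => FL P ω β h n / n) atTop (𝓝 (p h))) : S_incr P ω β p := by
  intro c s C hc hc1 hs
  obtain ⟨A, hA, hincr⟩ := K1H38.DP.incr (env_om he) (exp_om hexp) β hc hc1 hs
    (S := SE P ω β c s C) SE_dev (p := fun h => p (h 0)) (lim_two hp)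
  obtain ⟨s', C', hs', hC', hu⟩ := K1H38.DP.tail_unif (env_om he) (exp_om hexp) β hc hs
    (S := SE P ω β c s C) SE_dev
  refine ⟨A, s', C', hA, hs', hC', ?_, ?_⟩
  · intro h hh g hg hgh m
    have := hincr (fun _ => h) hh (fun _ => g) hg (fun _ => hgh) m
    rw [← FL_Lm, ← FL_Lm] at this
    exact this
  · intro g hg N hN n hn
    have := hu N hN n hn (fun _ => g) hg
    rw [← DV_dev] at this
    exact this

/-- the drifts used at one scale -/
noncomputable def G3 (h gp gm : ℝ) : Option Bool → Fin 1 → ℝ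
  | none => fun _ => h
  | some true => fun _ => gp
  | some false => fun _ => gm

/-- elementary asymptotics -/
lemma ev_small (k : ℕ) {e b : ℝ} (h0 : 0 < e) (h1 : e < b) (D : ℝ) :
    ∀ᶠ N : ℕ in atTop, D * (2 * (N : ℝ) + 1) ^ k * Real.exp (-(N : ℝ) ^ b) ≤
      1 / 2 * Real.exp (-(N : ℝ) ^ e) := by
  have h2 := (K1H38.DP.poly_exp k h0).const_mul |D|
  rw [mul_zero] at h2
  have h3 := h2.eventually_lt_const (show (0 : ℝ) < 1 / 2 by norm_num)
  have h4 : Tendsto (fun N : ℕ => (N : ℝ) ^ (b - e)) atTop atTop :=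
    (tendsto_rpow_atTop (by linarith)).comp tendsto_natCast_atTop_atTop
  filter_upwards [h3, h4.eventually_ge_atTop 2, eventually_ge_atTop 1] with N hN1 hN2 hN3
  have hNR : (1 : ℝ) ≤ N := by exact_mod_cast hN3
  have e1 : (N : ℝ) ^ b = (N : ℝ) ^ (b - e) * (N : ℝ) ^ e := by
    rw [← Real.rpow_add (by linarith)]; congr 1; ring
  have hNe : 0 < (N : ℝ) ^ e := by positivity
  have h5 : 2 * (N : ℝ) ^ e ≤ (N : ℝ) ^ b := by
    rw [e1]
    exact mul_le_mul_of_nonneg_right hN2 hNe.le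
  have hex : Real.exp (-(N : ℝ) ^ b) ≤ Real.exp (-(N : ℝ) ^ e) * Real.exp (-(N : ℝ) ^ e) := by
    rw [← Real.exp_add]
    apply Real.exp_le_exp.2
    linarith
  calc D * (2 * (N : ℝ) + 1) ^ k * Real.exp (-(N : ℝ) ^ b) ≤
      |D| * (2 * (N : ℝ) + 1) ^ k * Real.exp (-(N : ℝ) ^ b) := by
        apply mul_le_mul_of_nonneg_right _ (Real.exp_pos _).le
        exact mul_le_mul_of_nonneg_right (le_abs_self _) (by positivity)
    _ ≤ |D| * (2 * (N : ℝ) + 1) ^ k * (Real.exp (-(N : ℝ) ^ e) * Real.exp (-(N : ℝ) ^ e)) :=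
        mul_le_mul_of_nonneg_left hex (by positivity)
    _ = (|D| * ((2 * (N : ℝ) + 1) ^ k * Real.exp (-(N : ℝ) ^ e))) * Real.exp (-(N : ℝ) ^ e) := by
        ring
    _ ≤ 1 / 2 * Real.exp (-(N : ℝ) ^ e) := mul_le_mul_of_nonneg_right hN1.le (Real.exp_pos _).le

/-- confinement at one scale -/
lemma conf_scale {β c h v C₁ r A a : ℝ} (hc : 0 < c) {N : ℕ}
    (hN : 1 ≤ N) {gp gm t : ℝ} (ht : 0 < t) (htr : t ≤ r) (hC1 : 0 < C₁)
    {p : ℝ → ℝ} (hA : 0 ≤ A)
    (hup : ∀ t : ℝ, |t| ≤ r → p (h + t) ≤ p h + v * t + C₁ * t ^ 2)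
    (hgp1 : h + t / 2 ≤ gp) (hgp2 : gp ≤ h + t) (hgm1 : h - t ≤ gm) (hgm2 : gm ≤ h - t / 2)
    (hip : ∀ m : ℕ, |FL P ω β gp m - FL P ω β h m - m * (p gp - p h)| ≤ A * (m : ℝ) ^ c)
    (him : ∀ m : ℕ, |FL P ω β gm m - FL P ω β h m - m * (p gm - p h)| ≤ A * (m : ℝ) ^ c)
    (hta : 4 * C₁ * t = (N : ℝ) ^ (a - 1))
    (hsm : 2 * (2 * (N : ℝ) + 1) * Real.exp (-(3 / (32 * C₁) * (N : ℝ) ^ (2 * a - 1)) +
      (A + 6) * (N : ℝ) ^ c) ≤ Real.exp (-(N : ℝ) ^ c))
    {x : Ω} (hx : x ∉ K1H38.DP.BadEv P (om ω) β c (G3 h gp gm) N) :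
    1 - frProb β h (fld ω x) (tube N v ((N : ℝ) ^ a)) ≤ Real.exp (-(N : ℝ) ^ c) := by
  have hNR : (1 : ℝ) ≤ N := by exact_mod_cast hN
  have hN0 : (0 : ℝ) < N := by linarith
  set R := (N : ℝ) ^ a with hR
  have hR0 : 0 < R := by rw [hR]; positivity
  have hNt : (N : ℝ) * (C₁ * t) = R / 4 := by
    have : C₁ * t = (N : ℝ) ^ (a - 1) / 4 := by linarith
    rw [this, hR]
    have e1 : (N : ℝ) ^ a = N * (N : ℝ) ^ (a - 1) := by
      rw [mul_comm, ← Real.rpow_add_one hN0.ne']
      congr 1; ring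
    rw [e1]
    ring
  have hRt : R * t = 1 / (4 * C₁) * (N : ℝ) ^ (2 * a - 1) := by
    have : t = (N : ℝ) ^ (a - 1) / (4 * C₁) := by
      rw [eq_div_iff (by positivity)]; linarith
    rw [this, hR]
    have e1 : (N : ℝ) ^ (2 * a - 1) = (N : ℝ) ^ a * (N : ℝ) ^ (a - 1) := by
      rw [← Real.rpow_add hN0]; congr 1; ring
    rw [e1]
    ring
  -- the drift for a sign
  have key : ∀ b : Bool, ∃ g : ℝ, G3 h gp gm (some b) = (fun _ => g) ∧
      t / 2 ≤ K1H38.DP.sg b * (g - h) ∧ K1H38.DP.sg b * (g - h) ≤ t ∧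
      ∀ m : ℕ, |FL P ω β g m - FL P ω β h m - m * (p g - p h)| ≤ A * (m : ℝ) ^ c := by
    intro b
    cases b with
    | true =>
      refine ⟨gp, rfl, ?_, ?_, hip⟩
      · simp only [K1H38.DP.sg, if_true]; linarith
      · simp only [K1H38.DP.sg, if_true]; linarith
    | false =>
      refine ⟨gm, rfl, ?_, ?_, him⟩
      · simp only [K1H38.DP.sg, Bool.false_eq_true, if_false]; linarith
      · simp only [K1H38.DP.sg, Bool.false_eq_true, if_false]; linarith
  -- one constraint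
  have one : ∀ i ≤ N, ∀ b : Bool, K1H38.DP.frProb β (fun _ => h) (K1H38.DP.fld (om ω) x)
      {w : Fin N → TH967.DP.Step 1 | R ≤ K1H38.DP.sg b *
        ((TH967.DP.pos w i 0 : ℝ) - i * v)} ≤
      Real.exp (-(3 / (32 * C₁) * (N : ℝ) ^ (2 * a - 1)) + (A + 6) * (N : ℝ) ^ c) := by
    intro i hi b
    obtain ⟨g, hg1, hg2, hg3, hg4⟩ := key b
    have hiN : (i : ℝ) ≤ N := by exact_mod_cast hi
    set τ := g - h with hτ
    set u := K1H38.DP.sg b * τ with hu
    have hsg := K1H38.DP.sg_sq b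
    have hτu : τ = K1H38.DP.sg b * u := by
      rw [hu, ← mul_assoc, hsg, one_mul]
    have hu0 : 0 < u := by linarith
    have hτ2 : τ ^ 2 = u ^ 2 := by
      rw [hτu, mul_pow, pow_two (K1H38.DP.sg b), hsg, one_mul]
    have hτa : |τ| = u := by
      rw [hτu, abs_mul, K1H38.DP.abs_sg, one_mul, abs_of_pos hu0]
    have hch := K1H38.DP.cher (P := P) (β := β) (c := c) hi hx none (some b) (j := 0) (τ := τ) (by
      rw [hg1]
      funext k
      have : k = 0 := Subsingleton.elim _ _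
      subst this
      simp only [G3, Pi.add_apply, Pi.smul_apply, Pi.single_eq_same, smul_eq_mul, mul_one]
      rw [hτ]; ring)
      (u * R + τ * (i * v))
    have hsub : {w : Fin N → TH967.DP.Step 1 | R ≤ K1H38.DP.sg b *
        ((TH967.DP.pos w i 0 : ℝ) - i * v)} ⊆
        {w : Fin N → TH967.DP.Step 1 | u * R + τ * (i * v) ≤ τ * TH967.DP.pos w i 0} := by
      intro w hw
      simp only [Set.mem_ofPred_eq] at hw ⊢
      have := mul_le_mul_of_nonneg_left hw hu0.le
      rw [hτu]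
      linarith
    have e9 : G3 h gp gm none = fun _ => h := rfl
    rw [e9] at hch
    refine (K1H38.DP.frProb_mono β (fun _ => h) _ hsub).trans (hch.trans ?_)
    apply Real.exp_le_exp.2
    rw [hg1, ← FL_Lm, ← FL_Lm]
    have h1 := (abs_le.1 (hg4 i)).2
    have h2 : p g ≤ p h + v * τ + C₁ * τ ^ 2 := by
      have := hup τ (by rw [hτa]; linarith)
      rwa [show h + τ = g by rw [hτ]; ring] at this
    have h3 : (i : ℝ) * (p g - p h) ≤ i * (τ * v) + N * (C₁ * τ ^ 2) := by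
      have h4 : (i : ℝ) * (p g - p h) ≤ i * (τ * v + C₁ * τ ^ 2) :=
        mul_le_mul_of_nonneg_left (by linarith) (Nat.cast_nonneg i)
      have h5 : (i : ℝ) * (C₁ * τ ^ 2) ≤ N * (C₁ * τ ^ 2) :=
        mul_le_mul_of_nonneg_right hiN (by positivity)
      linarith
    have h4 : A * (i : ℝ) ^ c ≤ A * (N : ℝ) ^ c :=
      mul_le_mul_of_nonneg_left (Real.rpow_le_rpow (Nat.cast_nonneg i) hiN hc.le) hA
    have h5 : (N : ℝ) * (C₁ * τ ^ 2) ≤ u * (R / 4) := by
      rw [hτ2]
      have h6 : (N : ℝ) * (C₁ * u) ≤ R / 4 := by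
        rw [← hNt]
        apply mul_le_mul_of_nonneg_left _ hN0.le
        exact mul_le_mul_of_nonneg_left hg3 hC1.le
      calc (N : ℝ) * (C₁ * u ^ 2) = u * (N * (C₁ * u)) := by ring
        _ ≤ u * (R / 4) := mul_le_mul_of_nonneg_left h6 hu0.le
    have h6 : 3 / (32 * C₁) * (N : ℝ) ^ (2 * a - 1) = 3 / 8 * (R * t) := by
      rw [hRt]
      field_simp
      ring
    have h7 : t / 2 * R ≤ u * R := mul_le_mul_of_nonneg_right hg2 hR0.le
    have h8 : τ * (i * v) = i * (τ * v) := by ring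
    rw [h6]
    linarith
  -- union
  set F : Finset (ℕ × Bool) := Finset.range (N + 1) ×ˢ Finset.univ with hF
  have hun := K1H38.DP.frProb_union β (fun _ : Fin 1 => h) (K1H38.DP.fld (om ω) x) F
    (fun q => {w : Fin N → TH967.DP.Step 1 |
      R ≤ K1H38.DP.sg q.2 * ((TH967.DP.pos w q.1 0 : ℝ) - q.1 * v)})
    (B := (K1H38.DP.tube N (fun _ => v) R)ᶜ) (by
    intro w hw
    obtain ⟨i, hi, k, b, hb⟩ := K1H38.DP.exit_tube hR0.le hw
    have : k = 0 := Subsingleton.elim _ _
    subst this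
    refine ⟨(i, b), ?_, ?_⟩
    · rw [hF, Finset.mem_product, Finset.mem_range]
      exact ⟨by omega, Finset.mem_univ _⟩
    · simp only [Set.mem_ofPred_eq]
      simpa using hb)
  have hcard : (F.card : ℝ) = (N + 1) * 2 := by
    rw [hF, Finset.card_product, Finset.card_range, Finset.card_univ, Fintype.card_bool]
    push_cast
    ring
  have hfin : K1H38.DP.frProb β (fun _ => h) (K1H38.DP.fld (om ω) x)
      (K1H38.DP.tube N (fun _ => v) R)ᶜ ≤ Real.exp (-(N : ℝ) ^ c) := by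
    refine hun.trans ?_
    have h1 : ∑ q ∈ F, K1H38.DP.frProb β (fun _ : Fin 1 => h) (K1H38.DP.fld (om ω) x)
      {w : Fin N → TH967.DP.Step 1 |
        R ≤ K1H38.DP.sg q.2 * ((TH967.DP.pos w q.1 0 : ℝ) - q.1 * v)} ≤
      ∑ _q ∈ F, Real.exp (-(3 / (32 * C₁) * (N : ℝ) ^ (2 * a - 1)) + (A + 6) * (N : ℝ) ^ c) := by
      apply Finset.sum_le_sum
      intro q hq
      rw [hF, Finset.mem_product, Finset.mem_range] at hq
      exact one q.1 (by omega) q.2
    rw [Finset.sum_const, nsmul_eq_mul, hcard] at h1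
    refine h1.trans (le_trans ?_ hsm)
    apply mul_le_mul_of_nonneg_right _ (Real.exp_pos _).le
    nlinarith
  have h1 := K1H38.DP.frProb_compl β (fun _ : Fin 1 => h) (K1H38.DP.fld (om ω) x)
    (K1H38.DP.tube N (fun _ => v) R)
  have h2 : K1H38.DP.frProb β (fun _ : Fin 1 => h) (K1H38.DP.fld (om ω) x)
    (K1H38.DP.tube N (fun _ => v) R) = frProb β h (fld ω x) (tube N v R) :=
    K1H38.DP.frProb_up β h (fld ω x) v R
  rw [← h2]
  linarith

/-- the upper half: confinement from tails -/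
theorem upper_thm (he : IsEnv P ω) (hexp : HasExp P ω) (β : ℝ) {p : ℝ → ℝ}
    (hp : ∀ h, Tendsto (fun n : ℕ => FL P ω β h n / n) atTop (𝓝 (p h))) : S_upper P ω β p := by
  intro c s C hc hc1 hs h v C₁ r hG a ha ha1
  obtain ⟨A, s', C', hA, hs', hC', hincr, hu⟩ := incr_thm he hexp β hp c s C hc hc1 hs
  have hC10 := hG.C0
  have e1 : Tendsto (fun N : ℕ => 1 / (4 * C₁) * (N : ℝ) ^ (a - 1)) atTop (𝓝 0) := by
    have h1 : Tendsto (fun N : ℕ => (N : ℝ) ^ (-(1 - a))) atTop (𝓝 0) :=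
      (tendsto_rpow_neg_atTop (by linarith)).comp tendsto_natCast_atTop_atTop
    have h2 := h1.const_mul (1 / (4 * C₁))
    rw [mul_zero] at h2
    refine h2.congr (fun N => ?_)
    rw [neg_sub]
  have e2 := e1.eventually_lt_const hG.r0
  have e3 := K1H38.DP.asym (c := c) (e := 2 * a - 1) (b := 3 / (32 * C₁)) (K := A + 6) hc
    (by linarith) (by positivity) 2
  set s'' : ℝ := min c s' / 2 with hs''
  have hm0 : 0 < min c s' := lt_min hc hs'
  have hs0 : 0 < s'' := by rw [hs'']; linarith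
  have hs1 : s'' < c := by
    have := min_le_left c s'
    rw [hs'']; linarith
  have hs2 : s'' < s' := by
    have := min_le_right c s'
    rw [hs'']; linarith
  have e4 := ev_small 3 hs0 hs2 (3 * C')
  have e5 := ev_small 0 hs0 hs1 1
  have hall : ∀ᶠ N : ℕ in atTop,
      ∫ x, (1 - frProb β h (fun i y => ω i y x) (tube N v ((N : ℝ) ^ a))) ∂P ≤
        Real.exp (-(N : ℝ) ^ s'') := by
    filter_upwards [e2, e3, e4, e5, eventually_ge_atTop 1] with N hN1 hN2 hN4 hN5 hN3
    have hNR : (1 : ℝ) ≤ N := by exact_mod_cast hN3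
    have hN0 : (0 : ℝ) < N := by linarith
    set t := 1 / (4 * C₁) * (N : ℝ) ^ (a - 1) with ht
    have ht0 : 0 < t := by rw [ht]; positivity
    obtain ⟨gp, hgpE, hgp1, hgp2⟩ := hG.nbp t ht0 hN1.le
    obtain ⟨gm, hgmE, hgm1, hgm2⟩ := hG.nbm t ht0 hN1.le
    have hr1 := hG.r1
    have hip := hincr h hG.mem gp hgpE (by rw [abs_le]; constructor <;> linarith)
    have him := hincr h hG.mem gm hgmE (by rw [abs_le]; constructor <;> linarith)
    set Bd := K1H38.DP.BadEv P (om ω) β c (G3 h gp gm) N with hBd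
    have hgood : ∀ x ∉ Bd, 1 - frProb β h (fld ω x) (tube N v ((N : ℝ) ^ a)) ≤
        Real.exp (-(N : ℝ) ^ c) := by
      intro x hx
      exact conf_scale hc hN3 ht0 hN1.le hC10 hA hG.up hgp1 hgp2 hgm1 hgm2 hip him (by
        rw [ht]; field_simp) hN2 hx
    have hbd : P.real Bd ≤ 3 * (2 * (N : ℝ) + 1) ^ 3 * (C' * Real.exp (-(N : ℝ) ^ s')) := by
      have := K1H38.DP.bad_bound (P := P) (env_om he) β c (G3 h gp gm) N
        (B := C' * Real.exp (-(N : ℝ) ^ s')) (by positivity) (by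
          intro o k hk
          have : ∃ g ∈ TE P ω β c s C, G3 h gp gm o = fun _ => g := by
            match o with
            | none => exact ⟨h, hG.mem, rfl⟩
            | some true => exact ⟨gp, hgpE, rfl⟩
            | some false => exact ⟨gm, hgmE, rfl⟩
          obtain ⟨g, hg, e⟩ := this
          rw [e, ← DV_dev]
          exact hu g hg N hN3 k hk)
      simpa using this
    have hfr0 : ∀ x, 0 ≤ frProb β h (fld ω x) (tube N v ((N : ℝ) ^ a)) := by
      intro x
      unfold frProb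
      apply div_nonneg
      · exact Finset.sum_nonneg fun w _ => indicator_nonneg (fun w _ => (Real.exp_pos _).le) w
      · exact Finset.sum_nonneg fun w _ => (Real.exp_pos _).le
    set M := toMeasurable P Bd with hM
    have hpt : ∀ x, 1 - frProb β h (fld ω x) (tube N v ((N : ℝ) ^ a)) ≤
        M.indicator (fun _ => (1 : ℝ)) x + Real.exp (-(N : ℝ) ^ c) := by
      intro x
      by_cases hx : x ∈ Bd
      · rw [indicator_of_mem (subset_toMeasurable P Bd hx)]
        have := hfr0 x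
        have := Real.exp_pos (-(N : ℝ) ^ c)
        linarith
      · have h1 := hgood x hx
        have h2 : (0 : ℝ) ≤ M.indicator (fun _ => (1 : ℝ)) x :=
          indicator_nonneg (fun _ _ => zero_le_one) x
        linarith
    have hint : Integrable (fun x => M.indicator (fun _ => (1 : ℝ)) x +
        Real.exp (-(N : ℝ) ^ c)) P :=
      ((integrable_const 1).indicator (measurableSet_toMeasurable P Bd)).add (integrable_const _)
    have hint2 : Integrable (fun x => 1 - frProb β h (fun i y => ω i y x)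
        (tube N v ((N : ℝ) ^ a))) P := by
      apply Integrable.of_bound
        ((measurable_const.sub (measurable_frProb he β h N _)).aestronglyMeasurable) 1
      filter_upwards with x
      have h1 := hfr0 x
      have h2 := frProb_le_one β h (fun i y => ω i y x) N (tube N v ((N : ℝ) ^ a))
      have h1' : 0 ≤ frProb β h (fun i y => ω i y x) (tube N v ((N : ℝ) ^ a)) := h1
      rw [Real.norm_eq_abs]
      show |1 - frProb β h (fun i y => ω i y x) (tube N v ((N : ℝ) ^ a))| ≤ 1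
      rw [abs_le]
      constructor <;> linarith
    have h3 := integral_mono hint2 hint hpt
    rw [integral_add ((integrable_const 1).indicator (measurableSet_toMeasurable P Bd))
      (integrable_const _), integral_indicator_const _ (measurableSet_toMeasurable P Bd)] at h3
    have h4 : P.real M = P.real Bd := by
      rw [measureReal_def, measureReal_def, hM, measure_toMeasurable]
    rw [h4] at h3
    simp only [smul_eq_mul, mul_one, integral_const, probReal_univ, one_mul] at h3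
    rw [pow_zero, one_mul, one_mul] at hN5
    have h5 : 3 * (2 * (N : ℝ) + 1) ^ 3 * (C' * Real.exp (-(N : ℝ) ^ s')) =
      3 * C' * (2 * (N : ℝ) + 1) ^ 3 * Real.exp (-(N : ℝ) ^ s') := by ring
    linarith
  obtain ⟨N₀, hN₀⟩ := eventually_atTop.1 hall
  refine ⟨by linarith, s'', Real.exp ((N₀ : ℝ) ^ s''), hs0, fun n hn => ?_⟩
  have hnR : (1 : ℝ) ≤ n := by exact_mod_cast hn
  rcases le_or_gt N₀ n with hle | hlt
  · refine (hN₀ n hle).trans ?_
    have : 1 ≤ Real.exp ((N₀ : ℝ) ^ s'') := Real.one_le_exp (by positivity)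
    have h2 := Real.exp_pos (-(n : ℝ) ^ s'')
    nlinarith
  · have h1 : ∫ x, (1 - frProb β h (fun i y => ω i y x) (tube n v ((n : ℝ) ^ a))) ∂P ≤ 1 := by
      have : ∫ x, (1 - frProb β h (fun i y => ω i y x) (tube n v ((n : ℝ) ^ a))) ∂P ≤
          ∫ _, (1 : ℝ) ∂P := by
        apply integral_mono_of_nonneg _ (integrable_const _)
        · filter_upwards with x
          have h1 : 0 ≤ frProb β h (fun i y => ω i y x) (tube n v ((n : ℝ) ^ a)) := by
            unfold frProb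
            apply div_nonneg
            · exact Finset.sum_nonneg fun w _ =>
                indicator_nonneg (fun w _ => (Real.exp_pos _).le) w
            · exact Finset.sum_nonneg fun w _ => (Real.exp_pos _).le
          linarith
        · filter_upwards with x
          have := frProb_le_one β h (fun i y => ω i y x) n (tube n v ((n : ℝ) ^ a))
          simp only [Pi.zero_apply]
          linarith
      simpa using this
    refine h1.trans ?_
    rw [← Real.exp_add]
    apply Real.one_le_exp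
    have h2 : (n : ℝ) ^ s'' ≤ (N₀ : ℝ) ^ s'' :=
      Real.rpow_le_rpow (by positivity) (by exact_mod_cast hlt.le) hs0.le
    linarith

end Pool.Agent.K1H53.KZ
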