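import Pool.Agent.K1H53.KZ.An
import Pool.Agent.K1H53.KZ.Upper
import Pool.Agent.K1H53.KZ.Rev
import Pool.Agent.K1H53.KZ.Cen
import Pool.Agent.K1H53.KZ.PPThm
import Pool.Agent.K1H53.KZ.Low

/-!
Assembly: the relation between the exponents at almost every drift.
-/

open MeasureTheory ProbabilityTheory Set Filter
open scoped Topology
open Classical

set_option linter.unusedSectionVars false

namespace Pool.Agent.K1H53.KZ

open Pool.Agent.K1H53.SD Pool.Agent.K1H53.SF Pool.Agent.K1H53.KP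

variable {Ω : Type*} [MeasurableSpace Ω] {P : Measure Ω} [IsProbabilityMeasure P]
variable {ω : ℕ → ℤ → Ω → ℝ}

lemma dv_fr (β h : ℝ) (n : ℕ) (lam : ℝ) :
    {x | lam < |frEnergy β h (fun i y => ω i y x) n -
      ∫ x', frEnergy β h (fun i y => ω i y x') n ∂P|} = DV P ω β h n lam := by
  unfold DV FL
  simp_rw [frEnergy_eq]

lemma tail_of_TE {β c s C h : ℝ} (hc : 0 < c) (hs : 0 < s) (hh : h ∈ TE P ω β c s C) :
    c ∈ TailSet P ω β h := by
  refine ⟨hc, s, C, hs, fun n hn => ?_⟩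
  rw [dv_fr]
  exact hh n hn

lemma TE_of_tail {β c b h : ℝ} (hc : c ∈ TailSet P ω β h) (hcb : c < b) :
    ∃ c' s' C' : ℚ, c < c' ∧ (c' : ℝ) < b ∧ 0 < (s' : ℝ) ∧ h ∈ TE P ω β c' s' C' := by
  obtain ⟨hc0, s, C, hs, H⟩ := hc
  obtain ⟨c', hc1, hc2⟩ := exists_rat_btwn hcb
  obtain ⟨s', hs1, hs2⟩ := exists_rat_btwn hs
  obtain ⟨C', hC'⟩ := exists_rat_gt (max C 0)
  refine ⟨c', s', C', hc1, hc2, hs1, fun n hn => ?_⟩
  have hnR : (1 : ℝ) ≤ n := by exact_mod_cast hn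
  have h1 := H n hn
  rw [dv_fr] at h1
  have h2 : P.real (DV P ω β h n ((n : ℝ) ^ (c' : ℝ))) ≤ P.real (DV P ω β h n ((n : ℝ) ^ c)) := by
    apply measureReal_mono _ (measure_ne_top _ _)
    intro x hx
    have hx' : (n : ℝ) ^ (c' : ℝ) < |Real.log (Fr (wt β (fld ω x)) (dr h) n 0) - FL P ω β h n| := hx
    show (n : ℝ) ^ c < |Real.log (Fr (wt β (fld ω x)) (dr h) n 0) - FL P ω β h n|
    exact lt_of_le_of_lt (Real.rpow_le_rpow_of_exponent_le hnR hc1.le) hx'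
  refine h2.trans (h1.trans ?_)
  have h3 : Real.exp (-(n : ℝ) ^ s) ≤ Real.exp (-(n : ℝ) ^ (s' : ℝ)) := exp_mono_pow hn hs2.le
  have h4 : C ≤ (C' : ℝ) := (le_max_left C 0).trans hC'.le
  have h5 : (0 : ℝ) ≤ C' := (le_max_right C 0).trans hC'.le
  calc C * Real.exp (-(n : ℝ) ^ s) ≤ C' * Real.exp (-(n : ℝ) ^ s) :=
        mul_le_mul_of_nonneg_right h4 (Real.exp_pos _).le
    _ ≤ _ := mul_le_mul_of_nonneg_left h3 h5

lemma chi_le {β h c : ℝ} (hc : c ∈ TailSet P ω β h) : chi P ω β h ≤ c :=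
  csInf_le ⟨0, fun _ h => h.1.le⟩ hc

lemma chi_half (he : IsEnv P ω) (hexp : HasExp P ω) (β h : ℝ) : chi P ω β h ≤ 1 / 2 := by
  apply le_of_forall_gt_imp_ge_of_dense
  intro c hc
  rcases le_or_gt c 1 with h1 | h1
  · exact chi_le (tail_half1 he hexp β h hc h1)
  · exact (chi_le (tail_half1 he hexp β h (c := 1) (by norm_num) le_rfl)).trans h1.le

lemma exists_tail' (he : IsEnv P ω) (hexp : HasExp P ω) {β h b : ℝ} (hb : chi P ω β h < b) :
    ∃ c ∈ TailSet P ω β h, c < b :=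
  exists_lt_of_csInf_lt ⟨1, tail_half1 he hexp β h (by norm_num) le_rfl⟩ hb

lemma nu_le {β h v a : ℝ} (ha : a ∈ ConfSet P ω β h v) : nu P ω β h v ≤ a :=
  csInf_le ⟨0, fun _ h => h.1.le⟩ ha

lemma p_lip (he : IsEnv P ω) (hexp : HasExp P ω) {β : ℝ} {p : ℝ → ℝ}
    (hp : ∀ h, Tendsto (fun n : ℕ => FL P ω β h n / n) atTop (𝓝 (p h))) (h t : ℝ) :
    |p (h + t) - p h| ≤ |t| := by
  have h1 := ((hp (h + t)).sub (hp h)).abs
  refine le_of_tendsto h1 ?_
  filter_upwards [eventually_ge_atTop 1] with n hn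
  have hn0 : (0 : ℝ) < n := by exact_mod_cast hn
  rw [← sub_div, abs_div, abs_of_pos hn0, div_le_iff₀ hn0, FL_Lm, FL_Lm]
  have := K1H38.DP.Lm_lip (env_om he) (exp_om hexp) β (h := fun _ : Fin 1 => h + t)
    (g := fun _ => h) (r := |t|) (fun k => by simp) n
  linarith

theorem final (he : IsEnv P ω) (hexp : HasExp P ω) (hnc : ¬ ∃ c : ℝ, ∀ᵐ a ∂P, ω 1 0 a = c)
    {β : ℝ} (hβ : 0 < β) {p : ℝ → ℝ} (hconv : ConvexOn ℝ univ p)
    (hp : ∀ h, Tendsto (fun n : ℕ => FL P ω β h n / n) atTop (𝓝 (p h))) :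
    ∀ᵐ h : ℝ, ∃ v q : ℝ, HasDerivAt p v h ∧ 0 ≤ q ∧
      (∀ ε : ℝ, 0 < ε → ∃ δ : ℝ, 0 < δ ∧ ∀ t : ℝ, |t| ≤ δ →
        |p (h + t) - (p h + v * t + q / 2 * t ^ 2)| ≤ ε * t ^ 2) ∧
      1 / 5 ≤ chi P ω β h ∧ chi P ω β h ≤ 1 / 2 ∧ (1 - nu P ω β h v) / 2 ≤ chi P ω β h ∧
      2 * nu P ω β h v - 1 ≤ chi P ω β h ∧
      (q ≠ 0 → chi P ω β h = 2 * nu P ω β h v - 1 ∧ 3 / 5 ≤ nu P ω β h v) := by
  have hd : ∀ᵐ h : ℝ, ∀ c s C : ℚ, h ∈ TE P ω β c s C → ∃ r : ℝ, 0 < r ∧ ∀ t : ℝ, 0 < t → t ≤ r →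
      (∃ g ∈ TE P ω β c s C, h + t / 2 ≤ g ∧ g ≤ h + t) ∧
      ∃ g ∈ TE P ω β c s C, h - t ≤ g ∧ g ≤ h - t / 2 := by
    rw [ae_all_iff]; intro c
    rw [ae_all_iff]; intro s
    rw [ae_all_iff]; intro C
    exact dens _
  filter_upwards [hd, alex p hconv] with h hd ha
  obtain ⟨v, q, hq, hder, hexpn⟩ := ha
  refine ⟨v, q, hder, hq, hexpn, ?_⟩
  set χ := chi P ω β h with hχ
  set ν := nu P ω β h v with hν
  have hχ2 : χ ≤ 1 / 2 := chi_half he hexp β h
  -- the tangent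
  have hsub : ∀ t : ℝ, p h + v * t ≤ p (h + t) := by
    intro t
    rcases lt_trichotomy t 0 with ht | ht | ht
    · have h1 := hconv.slope_le_of_hasDerivAt (mem_univ (h + t)) (mem_univ h) (by linarith) hder
      rw [slope_def_field, div_le_iff₀ (by linarith)] at h1
      linarith
    · subst ht; simp
    · have h1 := hconv.le_slope_of_hasDerivAt (mem_univ h) (mem_univ (h + t)) (by linarith) hder
      rw [slope_def_field, le_div_iff₀ (by linarith)] at h1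
      linarith
  have hv1 : v ≤ 1 := by
    have h1 := hsub 1
    have h2 := (abs_le.1 (p_lip he hexp hp h 1)).2
    rw [abs_one] at h2
    linarith
  have hv2 : -1 ≤ v := by
    have h1 := hsub (-1)
    have h2 := (abs_le.1 (p_lip he hexp hp h (-1))).2
    rw [abs_neg, abs_one] at h2
    linarith
  obtain ⟨δ₁, hδ₁, hup⟩ := hexpn 1 one_pos
  have good : ∀ c s C : ℚ, h ∈ TE P ω β c s C → ∃ r₁ : ℝ, 0 < r₁ ∧ ∀ r : ℝ, 0 < r → r ≤ r₁ →
      GoodAt (TE P ω β c s C) p h v (q / 2 + 1) r := by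
    intro c s C hh
    obtain ⟨r₀, hr₀, hnb⟩ := hd c s C hh
    refine ⟨min (min r₀ δ₁) 1, by positivity, fun r hr hr1 => ?_⟩
    have r1 : r ≤ r₀ := hr1.trans ((min_le_left _ _).trans (min_le_left _ _))
    have r2 : r ≤ δ₁ := hr1.trans ((min_le_left _ _).trans (min_le_right _ _))
    have r3 : r ≤ 1 := hr1.trans (min_le_right _ _)
    refine ⟨hr, r3, by positivity, hh, fun t ht => ?_, hsub, fun t ht ht1 => ?_,
      fun t ht ht1 => ?_⟩
    · have := (abs_le.1 (hup t (ht.trans r2))).2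
      linarith
    · exact (hnb t ht (ht1.trans r1)).1
    · exact (hnb t ht (ht1.trans r1)).2
  -- the upper half
  have upper : ∀ a : ℝ, (1 + χ) / 2 < a → a < 1 → a ∈ ConfSet P ω β h v := by
    intro a ha ha1
    obtain ⟨c, hc, hcb⟩ := exists_tail' he hexp (β := β) (h := h) (b := 2 * a - 1)
      (by rw [← hχ]; linarith)
    obtain ⟨c', s', C', h1, h2, h3, h4⟩ := TE_of_tail hc hcb
    obtain ⟨r₁, hr₁, hg⟩ := good c' s' C' h4
    exact upper_thm he hexp β hp c' s' C' (lt_trans hc.1 h1) (by linarith) h3 h v _ r₁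
      (hg r₁ hr₁ le_rfl) a (by linarith) ha1
  have hνu : ν ≤ (1 + χ) / 2 := by
    apply le_of_forall_gt_imp_ge_of_dense
    intro b hb
    obtain ⟨a, ha1, ha2⟩ := exists_between (show (1 + χ) / 2 < min b 1 from
      lt_min hb (by linarith))
    exact (nu_le (upper a ha1 (lt_of_lt_of_le ha2 (min_le_right _ _)))).trans
      (ha2.le.trans (min_le_left _ _))
  have hne : (ConfSet P ω β h v).Nonempty := by
    obtain ⟨a, ha1, ha2⟩ := exists_between (show (1 + χ) / 2 < 1 by linarith)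
    exact ⟨a, upper a ha1 ha2⟩
  have hneT : (TailSet P ω β h).Nonempty := ⟨1, tail_half1 he hexp β h (by norm_num) le_rfl⟩
  -- anti-concentration
  have hanti : (1 - ν) / 2 ≤ χ := by
    apply le_csInf hneT
    intro c hc
    have h1 : 1 - 2 * c ≤ ν := by
      apply le_csInf hne
      intro a ha
      have := anti_thm he hexp β hβ hnc h v c a hv2 hv1 hc ha
      linarith
    linarith
  have hχ5 : 1 / 5 ≤ χ := by linarith
  refine ⟨hχ5, hχ2, hanti, by linarith, fun hq0 => ?_⟩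
  have hqp : 0 < q := lt_of_le_of_ne hq (Ne.symm hq0)
  obtain ⟨δ₂, hδ₂, hlo⟩ := hexpn (q / 4) (by positivity)
  have hlo' : ∀ t : ℝ, |t| ≤ δ₂ → p h + v * t + q / 4 * t ^ 2 ≤ p (h + t) := by
    intro t ht
    have := (abs_le.1 (hlo t ht)).1
    linarith
  have hv1' : v < 1 := by
    have h1 := hlo' δ₂ (by rw [abs_of_pos hδ₂])
    have h2 := (abs_le.1 (p_lip he hexp hp h δ₂)).2
    rw [abs_of_pos hδ₂] at h2
    have h3 : 0 < q / 4 * δ₂ ^ 2 := by positivity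
    by_contra hcon
    push Not at hcon
    nlinarith
  have hv2' : -1 < v := by
    have h1 := hlo' (-δ₂) (by rw [abs_neg, abs_of_pos hδ₂])
    have h2 := (abs_le.1 (p_lip he hexp hp h (-δ₂))).2
    rw [abs_neg, abs_of_pos hδ₂] at h2
    have h3 : 0 < q / 4 * (-δ₂) ^ 2 := by
      have : (-δ₂) ^ 2 = δ₂ ^ 2 := by ring
      rw [this]; positivity
    by_contra hcon
    push Not at hcon
    nlinarith
  -- the lower half
  have hνl : (1 + χ) / 2 ≤ ν := by
    apply le_csInf hne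
    intro κ hκ
    by_contra hcon
    push Not at hcon
    have hκ0 : 0 < κ := hκ.1
    have hχ0 : 0 < χ := by linarith
    obtain ⟨a, ha1, ha2, ha3⟩ : ∃ a : ℝ, (1 + χ) / 2 < a ∧ a < 1 ∧ κ * (2 * a - 1) / a < χ := by
      rcases le_or_gt (2 * κ - χ) 0 with h0 | h0
      · obtain ⟨a, ha1, ha2⟩ := exists_between (show (1 + χ) / 2 < 1 by linarith)
        refine ⟨a, ha1, ha2, ?_⟩
        have ha0 : 0 < a := by linarith
        rw [div_lt_iff₀ ha0]
        nlinarith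
      · have h1 : (1 + χ) / 2 < κ / (2 * κ - χ) := by
          rw [lt_div_iff₀ h0]
          nlinarith
        obtain ⟨a, ha1, ha2⟩ := exists_between (show (1 + χ) / 2 < min (κ / (2 * κ - χ)) 1 from
          lt_min h1 (by linarith))
        refine ⟨a, ha1, lt_of_lt_of_le ha2 (min_le_right _ _), ?_⟩
        have ha0 : 0 < a := by linarith
        have ha3 := lt_of_lt_of_le ha2 (min_le_left _ _)
        rw [lt_div_iff₀ h0] at ha3
        rw [div_lt_iff₀ ha0]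
        nlinarith
    obtain ⟨c, hc, hcb⟩ := exists_tail' he hexp (β := β) (h := h) (b := 2 * a - 1)
      (by rw [← hχ]; linarith)
    obtain ⟨c', s', C', h1, h2, h3, h4⟩ := TE_of_tail hc hcb
    obtain ⟨r₁, hr₁, hg⟩ := good c' s' C' h4
    set r := min r₁ δ₂ with hr
    have hr0 : 0 < r := by rw [hr]; positivity
    have hG := hg r hr0 (min_le_left _ _)
    have hpp := pp_thm he β (incr_thm he hexp β hp) (rev_thm he hexp β) c' s' C'
      (lt_trans hc.1 h1) (by linarith) h3 h v _ (q / 4) r hG (by positivity)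
      (fun t ht => hlo' t (ht.trans (min_le_right _ _))) a
    obtain ⟨c₁, hc₁, hc₂⟩ := exists_between ha3
    obtain ⟨c₃, hc₃, hc₄⟩ := exists_between hc₂
    have hc₁0 : 0 < c₁ := lt_trans (div_pos (mul_pos hκ0 (by linarith)) (by linarith)) hc₁
    have hlow := low_thm he β h v a κ c₁ hv2' hv1' (by linarith) ha2 hκ0 (by linarith) hκ hc₁
      (fun ρ hρ => ⟨fun N => FL P ω β h N, hpp ρ (by linarith) ha2 hρ⟩)
    have := center_thm he hexp β h c₁ hc₁0 hlow c₃ hc₃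
    have := chi_le this
    linarith
  constructor <;> linarith

end Pool.Agent.K1H53.KZ
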