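import Pool.Agent.K1H53.KZ.PPDet

/-!
Tails of the point-to-point polymers from tails of the free polymers.
-/

open MeasureTheory ProbabilityTheory Set Filter
open scoped Topology
open Classical

set_option linter.unusedSectionVars false

namespace Pool.Agent.K1H53.KZ

open Pool.Agent.K1H53.SD Pool.Agent.K1H53.SF Pool.Agent.K1H53.KP

lemma Rv_pos {K : ℕ → ℤ → ℝ} (hK : ∀ i x, 0 < K i x) (g : ℝ) (s : ℕ) (m : ℤ) :
    0 < Rv K g s m := by
  unfold Rv
  have h1 : 0 < Z K (m - s) s m * Real.exp (-(g * ((m - s : ℤ) : ℝ))) := by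
    apply mul_pos _ (Real.exp_pos _)
    apply Z_pos hK
    · rw [abs_le]; omega
    · omega
  refine lt_of_lt_of_le h1 ?_
  exact Finset.single_le_sum (f := fun x : ℤ => Z K x s m * Real.exp (-(g * (x : ℝ))))
    (fun x _ => mul_nonneg (Z_nonneg (fun i x => (hK i x).le) _ _ _) (Real.exp_pos _).le)
    (Finset.mem_Icc.2 ⟨le_rfl, by omega⟩)

/-- logarithmic form on the good event -/
lemma pp_log {K : ℕ → ℤ → ℝ} (hK : ∀ i x, 0 < K i x) {s : ℕ} (hs : 1 ≤ s) {m M : ℤ}
    (hm : |m| ≤ (s : ℤ)) (hp : (m - s) % 2 = 0)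
    {h gm gp g' : ℝ} (hg0 : gm ≤ h) (hg1 : h ≤ gp) (hg2 : gp ≤ g')
    {lam lam' Lam Fh Fp F' Fm : ℝ}
    (a1 : |Real.log (Fr K (dr h) s 0) - Fh| ≤ lam)
    (a2 : |Real.log (Fr K (dr gp) s 0) - Fp| ≤ lam)
    (a3 : |Real.log (Fr K (dr g') s 0) - F'| ≤ lam)
    (a4 : ∀ x : ℤ, 1 ≤ x → x ≤ m + s → |Real.log (Fr K (dr gm) s x) - gm * x - Fm| ≤ lam)
    (a5 : |Real.log (Rv K gm s m) - (Fm - gm * m)| ≤ lam')
    (a6 : |Real.log (Rv K h s m) - (Fh - h * m)| ≤ lam')
    (n1 : (gp - h) * m + Fh + lam ≤ Fp - lam - Real.log 4)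
    (n2 : -((g' - gp) * M) + F' + lam ≤ Fp - lam - Real.log 4)
    (n3 : Fh - h * m + lam' ≤ Fm - gm * m - lam' - Real.log 2)
    (n4 : Fh - h * m - Lam ≤ Fp - gm * m - (gp - gm) * M - 2 * lam - lam' - Real.log (8 * s))
    (n5 : lam ≤ Lam) :
    |Real.log (Z K 0 s m) - (Fh - h * m)| ≤ Lam := by
  have hK' : ∀ i x, 0 ≤ K i x := fun i x => (hK i x).le
  have hsR : (0 : ℝ) < s := by exact_mod_cast hs
  have f0 : 0 < Fr K (dr h) s 0 := Fr_pos hK (dr_pos h) _ _
  have fp : 0 < Fr K (dr gp) s 0 := Fr_pos hK (dr_pos gp) _ _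
  have f' : 0 < Fr K (dr g') s 0 := Fr_pos hK (dr_pos g') _ _
  have rm : 0 < Rv K gm s m := Rv_pos hK _ _ _
  have rh : 0 < Rv K h s m := Rv_pos hK _ _ _
  have zp : 0 < Z K 0 s m := by
    apply Z_pos hK
    · rwa [sub_zero]
    · omega
  have b1 := abs_le.1 a1
  have b2 := abs_le.1 a2
  have b3 := abs_le.1 a3
  have b5 := abs_le.1 a5
  have b6 := abs_le.1 a6
  have h1 : Real.exp ((gp - h) * m) * Fr K (dr h) s 0 ≤ Fr K (dr gp) s 0 / 4 := by
    have e1 : Real.exp ((gp - h) * m) * Fr K (dr h) s 0 =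
        Real.exp ((gp - h) * m + Real.log (Fr K (dr h) s 0)) := by
      rw [Real.exp_add, Real.exp_log f0]
    have e2 : Fr K (dr gp) s 0 / 4 = Real.exp (Real.log (Fr K (dr gp) s 0) - Real.log 4) := by
      rw [Real.exp_sub, Real.exp_log fp, Real.exp_log (by norm_num)]
    rw [e1, e2]
    apply Real.exp_le_exp.2
    linarith [b1.2, b2.1]
  have h2 : Real.exp (-((g' - gp) * M)) * Fr K (dr g') s 0 ≤ Fr K (dr gp) s 0 / 4 := by
    have e1 : Real.exp (-((g' - gp) * M)) * Fr K (dr g') s 0 =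
        Real.exp (-((g' - gp) * M) + Real.log (Fr K (dr g') s 0)) := by
      rw [Real.exp_add, Real.exp_log f']
    have e2 : Fr K (dr gp) s 0 / 4 = Real.exp (Real.log (Fr K (dr gp) s 0) - Real.log 4) := by
      rw [Real.exp_sub, Real.exp_log fp, Real.exp_log (by norm_num)]
    rw [e1, e2]
    apply Real.exp_le_exp.2
    linarith [b3.2, b2.1]
  have h3 : Rv K h s m ≤ Rv K gm s m / 2 := by
    have e1 : Rv K h s m = Real.exp (Real.log (Rv K h s m)) := (Real.exp_log rh).symm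
    have e2 : Rv K gm s m / 2 = Real.exp (Real.log (Rv K gm s m) - Real.log 2) := by
      rw [Real.exp_sub, Real.exp_log rm, Real.exp_log (by norm_num)]
    rw [e1, e2]
    apply Real.exp_le_exp.2
    linarith [b5.1, b6.2]
  have hd := pp_det hK hp hg0 hg1 hg2 h1 h2 h3
  -- the sum over the starting points
  have hsum : ∑ x ∈ Finset.Icc 1 (m + s), Real.exp (-(gm * x)) * Fr K (dr gm) s x ≤
      (2 * s) * Real.exp (Fm + lam) := by
    have h5 : ∀ x ∈ Finset.Icc (1 : ℤ) (m + s), Real.exp (-(gm * x)) * Fr K (dr gm) s x ≤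
        Real.exp (Fm + lam) := by
      intro x hx
      rw [Finset.mem_Icc] at hx
      have h6 := (abs_le.1 (a4 x hx.1 hx.2)).2
      have fx : 0 < Fr K (dr gm) s x := Fr_pos hK (dr_pos gm) _ _
      rw [← Real.exp_log fx, ← Real.exp_add]
      apply Real.exp_le_exp.2
      linarith
    refine (Finset.sum_le_sum h5).trans ?_
    rw [Finset.sum_const, nsmul_eq_mul]
    apply mul_le_mul_of_nonneg_right _ (Real.exp_pos _).le
    rw [Int.card_Icc]
    rw [abs_le] at hm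
    have : ((m + s + 1 - 1).toNat : ℤ) ≤ 2 * s := by omega
    exact_mod_cast this
  have hd2 : Fr K (dr gp) s 0 / 2 * (Rv K gm s m / 2) ≤ Z K 0 s m * (Real.exp ((gp - gm) * M) *
      ((2 * s) * Real.exp (Fm + lam))) := by
    refine hd.trans ?_
    apply mul_le_mul_of_nonneg_left _ zp.le
    exact mul_le_mul_of_nonneg_left hsum (Real.exp_pos _).le
  have l1 := Real.log_le_log (by positivity) hd2
  have e3 : Real.log (Fr K (dr gp) s 0 / 2 * (Rv K gm s m / 2)) =
      Real.log (Fr K (dr gp) s 0) + Real.log (Rv K gm s m) - Real.log 4 := by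
    rw [show Fr K (dr gp) s 0 / 2 * (Rv K gm s m / 2) =
      Fr K (dr gp) s 0 * Rv K gm s m / 4 by ring, Real.log_div (by positivity) (by norm_num),
      Real.log_mul fp.ne' rm.ne']
  have e4 : Real.log (Z K 0 s m * (Real.exp ((gp - gm) * M) * ((2 * s) * Real.exp (Fm + lam)))) =
      Real.log (Z K 0 s m) + ((gp - gm) * M + (Real.log (2 * s) + (Fm + lam))) := by
    rw [Real.log_mul zp.ne' (by positivity), Real.log_mul (Real.exp_pos _).ne' (by positivity),
      Real.log_exp, Real.log_mul (by positivity) (Real.exp_pos _).ne', Real.log_exp]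
  have e5 : Real.log (8 * s) = Real.log 4 + Real.log (2 * s) := by
    rw [← Real.log_mul (by norm_num) (by positivity)]
    congr 1; ring
  rw [e3, e4] at l1
  rw [abs_le]
  constructor
  · linarith [b2.1, b5.1]
  · -- the upper bound
    have h7 : Z K 0 s m * dr h m ≤ Fr K (dr h) s 0 := by
      have := Fr_ge_sub hK (dr_pos h) s 0 m m
      rwa [Finset.Icc_self, Finset.sum_singleton] at this
    have l2 := Real.log_le_log (mul_pos zp (dr_pos h m)) h7
    rw [Real.log_mul zp.ne' (dr_pos h m).ne'] at l2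
    unfold dr at l2
    rw [Real.log_exp] at l2
    unfold dr at b1
    linarith [b1.2]

variable {Ω : Type*} [MeasurableSpace Ω] {P : Measure Ω} [IsProbabilityMeasure P]
variable {ω : ℕ → ℤ → Ω → ℝ}

/-- translation of free deviations -/
lemma fr_shift (he : IsEnv P ω) (β g : ℝ) (n : ℕ) (x0 : ℤ) (lam : ℝ) :
    P.real {a | lam < |Real.log (Fr (wt β (fld ω a)) (dr g) n x0) - g * x0 - FL P ω β g n|} =
      P.real (DV P ω β g n lam) := by
  have hτ : Function.Injective (fun p : ℕ × ℤ => ((p.1, p.2 + x0) : ℕ × ℤ)) := by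
    rintro ⟨i, x⟩ ⟨j, y⟩ hh
    simp only [Prod.mk.injEq] at hh
    ext <;> simp <;> omega
  have hS : MeasurableSet {η : ℕ → ℤ → ℝ | lam < |Real.log (Fr (wt β η) (dr g) n 0) -
      FL P ω β g n|} :=
    measurableSet_lt measurable_const (((Real.measurable_log.comp
      (measurable_Fr (fun i x => measurable_wt β i x) _ _ _)).sub_const _).abs)
  have h1 := prob_inv he (τ := fun i x => (i, x + x0)) hτ hS
  simp only [Set.mem_ofPred_eq] at h1
  have h2 : DV P ω β g n lam = {a | lam < |Real.log (Fr (wt β (fun i x => ω i x a)) (dr g) n 0) -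
      FL P ω β g n|} := rfl
  rw [h2, ← h1]
  congr 1
  ext a
  simp only [Set.mem_ofPred_eq]
  have hpos : 0 < Fr (fun i u => wt β (fld ω a) i (u + x0)) (dr g) n 0 :=
    Fr_pos (fun i x => wt_pos _ _ _ _) (dr_pos g) _ _
  rw [Fr_trans, Real.log_mul (Real.exp_pos _).ne' hpos.ne', Real.log_exp]
  have e : g * (x0 : ℝ) + Real.log (Fr (fun i u => wt β (fld ω a) i (u + x0)) (dr g) n 0) -
      g * x0 - FL P ω β g n =
      Real.log (Fr (wt β fun i x => ω i (x + x0) a) (dr g) n 0) - FL P ω β g n := by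
    have : (fun i u => wt β (fld ω a) i (u + x0)) = wt β fun i x => ω i (x + x0) a := rfl
    rw [this]; ring
  rw [e]

/-- the probability estimate at a fixed scale -/
lemma pp_prob (he : IsEnv P ω) {β : ℝ} {s : ℕ} (hs : 1 ≤ s) {m M : ℤ}
    (hm : |m| ≤ (s : ℤ)) (hp : (m - s) % 2 = 0)
    {h gm gp g' : ℝ} (hg0 : gm ≤ h) (hg1 : h ≤ gp) (hg2 : gp ≤ g')
    {lam lam' Lam e1 e2 : ℝ} (he1 : 0 ≤ e1)
    (d1 : P.real (DV P ω β h s lam) ≤ e1) (d2 : P.real (DV P ω β gp s lam) ≤ e1)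
    (d3 : P.real (DV P ω β g' s lam) ≤ e1) (d4 : P.real (DV P ω β gm s lam) ≤ e1)
    (d5 : P.real {a | lam' < |Real.log (Rv (wt β (fld ω a)) gm s m) -
        (FL P ω β gm s - gm * m)|} ≤ e2)
    (d6 : P.real {a | lam' < |Real.log (Rv (wt β (fld ω a)) h s m) -
        (FL P ω β h s - h * m)|} ≤ e2)
    (n1 : (gp - h) * m + FL P ω β h s + lam ≤ FL P ω β gp s - lam - Real.log 4)
    (n2 : -((g' - gp) * M) + FL P ω β g' s + lam ≤ FL P ω β gp s - lam - Real.log 4)
    (n3 : FL P ω β h s - h * m + lam' ≤ FL P ω β gm s - gm * m - lam' - Real.log 2)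
    (n4 : FL P ω β h s - h * m - Lam ≤ FL P ω β gp s - gm * m - (gp - gm) * M - 2 * lam - lam' -
      Real.log (8 * s))
    (n5 : lam ≤ Lam) :
    P.real {x | Lam < |Real.log (Z (wt β (fld ω x)) 0 s m) - (FL P ω β h s - h * m)|} ≤
      3 * (2 * s + 1) * e1 + 2 * e2 := by
  set T : ℤ → Set Ω := fun x =>
    {a | lam < |Real.log (Fr (wt β (fld ω a)) (dr gm) s x) - gm * x - FL P ω β gm s|} with hT
  set R1 : Set Ω := {a | lam' < |Real.log (Rv (wt β (fld ω a)) gm s m) -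
        (FL P ω β gm s - gm * m)|} with hR1
  set R2 : Set Ω := {a | lam' < |Real.log (Rv (wt β (fld ω a)) h s m) -
        (FL P ω β h s - h * m)|} with hR2
  have hsub : {x | Lam < |Real.log (Z (wt β (fld ω x)) 0 s m) - (FL P ω β h s - h * m)|} ⊆
      DV P ω β h s lam ∪ (DV P ω β gp s lam ∪ (DV P ω β g' s lam ∪
        ((⋃ x ∈ Finset.Icc 1 (m + s), T x) ∪ (R1 ∪ R2)))) := by
    intro a ha
    by_contra hcon
    simp only [Set.mem_union, not_or] at hcon
    obtain ⟨c1, c2, c3, c4, c5, c6⟩ := hcon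
    simp only [DV, Set.mem_ofPred_eq, not_lt] at c1 c2 c3
    simp only [hR1, hR2, Set.mem_ofPred_eq, not_lt] at c5 c6
    have c4' : ∀ x : ℤ, 1 ≤ x → x ≤ m + s →
        |Real.log (Fr (wt β (fld ω a)) (dr gm) s x) - gm * x - FL P ω β gm s| ≤ lam := by
      intro x hx1 hx2
      by_contra h9
      push Not at h9
      apply c4
      simp only [Set.mem_iUnion]
      exact ⟨x, Finset.mem_Icc.2 ⟨hx1, hx2⟩, h9⟩
    have := pp_log (K := wt β (fld ω a)) (fun i x => wt_pos _ _ _ _) hs hm hp hg0 hg1 hg2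
      c1 c2 c3 c4' c5 c6 n1 n2 n3 n4 n5
    have ha' : Lam < |Real.log (Z (wt β (fld ω a)) 0 s m) - (FL P ω β h s - h * m)| := ha
    linarith
  have hTs : P.real (⋃ x ∈ Finset.Icc 1 (m + s), T x) ≤ (2 * s) * e1 := by
    refine (measureReal_biUnion_finset_le _ _).trans ?_
    have h2 : ∑ x ∈ Finset.Icc 1 (m + s), P.real (T x) ≤ ∑ _x ∈ Finset.Icc 1 (m + s), e1 := by
      apply Finset.sum_le_sum
      intro x _
      simp only [hT]
      rw [fr_shift he]
      exact d4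
    refine h2.trans ?_
    rw [Finset.sum_const, nsmul_eq_mul]
    apply mul_le_mul_of_nonneg_right _ he1
    rw [Int.card_Icc]
    rw [abs_le] at hm
    have : ((m + s + 1 - 1).toNat : ℤ) ≤ 2 * s := by omega
    exact_mod_cast this
  have u0 := measureReal_mono (μ := P) hsub (measure_ne_top _ _)
  have u1 := measureReal_union_le (μ := P) (DV P ω β h s lam) (DV P ω β gp s lam ∪
    (DV P ω β g' s lam ∪ ((⋃ x ∈ Finset.Icc 1 (m + s), T x) ∪ (R1 ∪ R2))))
  have u2 := measureReal_union_le (μ := P) (DV P ω β gp s lam)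
    (DV P ω β g' s lam ∪ ((⋃ x ∈ Finset.Icc 1 (m + s), T x) ∪ (R1 ∪ R2)))
  have u3 := measureReal_union_le (μ := P) (DV P ω β g' s lam)
    ((⋃ x ∈ Finset.Icc 1 (m + s), T x) ∪ (R1 ∪ R2))
  have u4 := measureReal_union_le (μ := P) (⋃ x ∈ Finset.Icc 1 (m + s), T x) (R1 ∪ R2)
  have u5 := measureReal_union_le (μ := P) R1 R2
  have hsR : (0 : ℝ) ≤ s := Nat.cast_nonneg s
  have h9 : 0 ≤ (s : ℝ) * e1 := mul_nonneg hsR he1
  have : 3 * (2 * (s : ℝ) + 1) * e1 + 2 * e2 = 6 * (s * e1) + 3 * e1 + 2 * e2 := by ring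
  rw [this]
  linarith

end Pool.Agent.K1H53.KZ
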