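import Pool.Agent.K1H53.KZ.Plan
import Pool.Agent.K1H53.KZ.SE

/-!
Point-to-point polymers from forward and backward free polymers: the deterministic inequality.
-/

open Finset

namespace Pool.Agent.K1H53.KZ

open Pool.Agent.K1H53.SD Pool.Agent.K1H53.SF Pool.Agent.K1H53.KP

lemma Fr_ge_sub {K : ℕ → ℤ → ℝ} (hK : ∀ i x, 0 < K i x) {φ : ℤ → ℝ} (hφ : ∀ x, 0 < φ x)
    (n : ℕ) (x0 a b : ℤ) : ∑ y ∈ Icc a b, Z K x0 n y * φ y ≤ Fr K φ n x0 := by
  have h1 := Fr_eq K φ n x0 (S := Icc (x0 - n) (x0 + n) ∪ Icc a b) subset_union_left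
  rw [h1]
  apply sum_le_sum_of_subset_of_nonneg subset_union_right
  intro y _ _
  exact mul_nonneg (Z_nonneg (fun i x => (hK i x).le) _ _ _) (hφ y).le

/-- planarity for a fixed starting point -/
lemma pp_x {K : ℕ → ℤ → ℝ} (hK : ∀ i x, 0 < K i x) {s : ℕ} {m M x : ℤ} (hp : (m - s) % 2 = 0)
    (hx : 1 ≤ x) {gm gp : ℝ} (hg : gm ≤ gp) :
    (∑ y ∈ Icc (m + 1) M, Z K 0 s y * dr gp y) * Z K x s m ≤
      Z K 0 s m * (Real.exp ((gp - gm) * M) * Fr K (dr gm) s x) := by
  have hK' : ∀ i x, 0 ≤ K i x := fun i x => (hK i x).le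
  have hFr : 0 < Fr K (dr gm) s x := Fr_pos hK (dr_pos gm) _ _
  by_cases hxp : x % 2 = 0
  · have h1 := Fr_ge_sub hK (dr_pos gm) s x (m + 1) M
    have h2 : (∑ y ∈ Icc (m + 1) M, Z K 0 s y * dr gp y) * Z K x s m ≤
        Z K 0 s m * (Real.exp ((gp - gm) * M) * ∑ y ∈ Icc (m + 1) M, Z K x s y * dr gm y) := by
      rw [sum_mul, mul_sum, mul_sum]
      apply sum_le_sum
      intro y hy
      rw [mem_Icc] at hy
      by_cases hyp : (y - s) % 2 = 0
      · have h := LR_end hK' hK' (fun i => LR.refl _) 0 (x / 2).toNat s m ((y - m) / 2).toNat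
        have e1 : m + 2 * (((y - m) / 2).toNat : ℤ) = y := by
          rw [Int.toNat_of_nonneg (by omega)]
          omega
        have e2 : (0 : ℤ) + 2 * ((x / 2).toNat : ℤ) = x := by
          rw [Int.toNat_of_nonneg (by omega)]
          omega
        rw [e1, e2] at h
        have h3 : dr gp y ≤ Real.exp ((gp - gm) * M) * dr gm y := by
          unfold dr
          rw [← Real.exp_add]
          apply Real.exp_le_exp.2
          have : (y : ℝ) ≤ M := by exact_mod_cast hy.2
          nlinarith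
        have h4 : Z K 0 s y * Z K x s m ≤ Z K 0 s m * Z K x s y := by linarith
        have z1 : 0 ≤ Z K 0 s y * Z K x s m := mul_nonneg (Z_nonneg hK' _ _ _) (Z_nonneg hK' _ _ _)
        calc Z K 0 s y * dr gp y * Z K x s m = (Z K 0 s y * Z K x s m) * dr gp y := by ring
          _ ≤ (Z K 0 s m * Z K x s y) * (Real.exp ((gp - gm) * M) * dr gm y) :=
              mul_le_mul h4 h3 (dr_pos gp y).le (z1.trans h4)
          _ = _ := by ring
      · rw [Z_parity K 0 s y (by omega)]
        have : 0 ≤ Z K 0 s m * (Real.exp ((gp - gm) * M) * (Z K x s y * dr gm y)) :=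
          mul_nonneg (Z_nonneg hK' _ _ _) (mul_nonneg (Real.exp_pos _).le
            (mul_nonneg (Z_nonneg hK' _ _ _) (dr_pos gm y).le))
        simpa using this
    refine h2.trans ?_
    apply mul_le_mul_of_nonneg_left _ (Z_nonneg hK' _ _ _)
    exact mul_le_mul_of_nonneg_left h1 (Real.exp_pos _).le
  · rw [Z_parity K x s m (by omega), mul_zero]
    exact mul_nonneg (Z_nonneg hK' _ _ _) (mul_nonneg (Real.exp_pos _).le hFr.le)

/-- the deterministic inequality -/
lemma pp_det {K : ℕ → ℤ → ℝ} (hK : ∀ i x, 0 < K i x) {s : ℕ} {m M : ℤ} (hp : (m - s) % 2 = 0)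
    {h gm gp g' : ℝ} (hg0 : gm ≤ h) (hg1 : h ≤ gp) (hg2 : gp ≤ g')
    (h1 : Real.exp ((gp - h) * m) * Fr K (dr h) s 0 ≤ Fr K (dr gp) s 0 / 4)
    (h2 : Real.exp (-((g' - gp) * M)) * Fr K (dr g') s 0 ≤ Fr K (dr gp) s 0 / 4)
    (h3 : Rv K h s m ≤ Rv K gm s m / 2) :
    Fr K (dr gp) s 0 / 2 * (Rv K gm s m / 2) ≤ Z K 0 s m * (Real.exp ((gp - gm) * M) *
      ∑ x ∈ Icc 1 (m + s), Real.exp (-(gm * x)) * Fr K (dr gm) s x) := by
  have hK' : ∀ i x, 0 ≤ K i x := fun i x => (hK i x).le
  -- forward localisation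
  have a1 : Fr K (dr gp) s 0 / 2 ≤ ∑ y ∈ Icc (m + 1) M, Z K 0 s y * dr gp y := by
    have hsplit : Fr K (dr gp) s 0 ≤ Real.exp ((gp - h) * m) * Fr K (dr h) s 0 +
        (Real.exp (-((g' - gp) * M)) * Fr K (dr g') s 0 +
          ∑ y ∈ Icc (m + 1) M, Z K 0 s y * dr gp y) := by
      set S := Icc ((0 : ℤ) - s) (0 + s) ∪ Icc (m + 1) M with hS
      have e1 := Fr_eq K (dr gp) s 0 (S := S) subset_union_left
      have e2 := Fr_eq K (dr h) s 0 (S := S) subset_union_left
      have e3 := Fr_eq K (dr g') s 0 (S := S) subset_union_left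
      have e4 : ∑ y ∈ Icc (m + 1) M, Z K 0 s y * dr gp y =
          ∑ y ∈ S, if y ∈ Icc (m + 1) M then Z K 0 s y * dr gp y else 0 := by
        rw [← sum_filter]
        congr 1
        ext y
        simp only [mem_filter, hS, mem_union]
        tauto
      rw [e1, e2, e3, e4, mul_sum, mul_sum, ← sum_add_distrib, ← sum_add_distrib]
      apply sum_le_sum
      intro y _
      have z0 : 0 ≤ Z K 0 s y := Z_nonneg hK' _ _ _
      have p1 : 0 ≤ Real.exp ((gp - h) * m) * (Z K 0 s y * dr h y) :=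
        mul_nonneg (Real.exp_pos _).le (mul_nonneg z0 (dr_pos h y).le)
      have p2 : 0 ≤ Real.exp (-((g' - gp) * M)) * (Z K 0 s y * dr g' y) :=
        mul_nonneg (Real.exp_pos _).le (mul_nonneg z0 (dr_pos g' y).le)
      by_cases hy1 : y ≤ m
      · rw [if_neg (by rw [mem_Icc]; omega)]
        have h5 : dr gp y ≤ Real.exp ((gp - h) * m) * dr h y := by
          unfold dr
          rw [← Real.exp_add]
          apply Real.exp_le_exp.2
          have : (y : ℝ) ≤ m := by exact_mod_cast hy1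
          nlinarith
        have h6 := mul_le_mul_of_nonneg_left h5 z0
        have e5 : Z K 0 s y * (Real.exp ((gp - h) * m) * dr h y) =
            Real.exp ((gp - h) * m) * (Z K 0 s y * dr h y) := by ring
        linarith
      · by_cases hy2 : y ≤ M
        · rw [if_pos (by rw [mem_Icc]; omega)]
          linarith
        · rw [if_neg (by rw [mem_Icc]; omega)]
          have h5 : dr gp y ≤ Real.exp (-((g' - gp) * M)) * dr g' y := by
            unfold dr
            rw [← Real.exp_add]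
            apply Real.exp_le_exp.2
            have : (M : ℝ) ≤ y := by exact_mod_cast (not_le.1 hy2).le
            nlinarith
          have h6 := mul_le_mul_of_nonneg_left h5 z0
          have e5 : Z K 0 s y * (Real.exp (-((g' - gp) * M)) * dr g' y) =
              Real.exp (-((g' - gp) * M)) * (Z K 0 s y * dr g' y) := by ring
          linarith
    linarith
  -- backward localisation
  have a2 : Rv K gm s m / 2 ≤ ∑ x ∈ Icc 1 (m + s), Z K x s m * Real.exp (-(gm * x)) := by
    have hsplit : Rv K gm s m ≤ Rv K h s m +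
        ∑ x ∈ Icc 1 (m + s), Z K x s m * Real.exp (-(gm * x)) := by
      have e4 : ∑ x ∈ Icc (m - s) (m + s), (if x ∈ Icc 1 (m + s) then
          Z K x s m * Real.exp (-(gm * x)) else 0) ≤
          ∑ x ∈ Icc 1 (m + s), Z K x s m * Real.exp (-(gm * x)) := by
        rw [← sum_filter]
        apply sum_le_sum_of_subset_of_nonneg
        · intro x hx
          rw [mem_filter] at hx
          exact hx.2
        · intro x _ _
          exact mul_nonneg (Z_nonneg hK' _ _ _) (Real.exp_pos _).le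
      refine le_trans ?_ (add_le_add le_rfl e4)
      unfold Rv
      rw [← sum_add_distrib]
      apply sum_le_sum
      intro x hx
      rw [mem_Icc] at hx
      have z0 : 0 ≤ Z K x s m := Z_nonneg hK' _ _ _
      by_cases hx1 : 1 ≤ x
      · rw [if_pos (by rw [mem_Icc]; omega)]
        have : 0 ≤ Z K x s m * Real.exp (-(h * x)) := mul_nonneg z0 (Real.exp_pos _).le
        linarith
      · rw [if_neg (by rw [mem_Icc]; omega), add_zero]
        apply mul_le_mul_of_nonneg_left _ z0
        apply Real.exp_le_exp.2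
        have : (x : ℝ) ≤ 0 := by exact_mod_cast (by omega : x ≤ 0)
        nlinarith
    linarith
  have F0 : 0 < Fr K (dr gp) s 0 := Fr_pos hK (dr_pos gp) _ _
  have R0 : 0 ≤ Rv K gm s m := by
    unfold Rv
    exact sum_nonneg fun x _ => mul_nonneg (Z_nonneg hK' _ _ _) (Real.exp_pos _).le
  calc Fr K (dr gp) s 0 / 2 * (Rv K gm s m / 2) ≤
      (∑ y ∈ Icc (m + 1) M, Z K 0 s y * dr gp y) *
        ∑ x ∈ Icc 1 (m + s), Z K x s m * Real.exp (-(gm * x)) :=
        mul_le_mul a1 a2 (by positivity) (le_trans (by positivity) a1)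
    _ ≤ _ := by
        rw [mul_sum, mul_sum, mul_sum]
        apply sum_le_sum
        intro x hx
        rw [mem_Icc] at hx
        have h5 := mul_le_mul_of_nonneg_right
          (pp_x hK (s := s) (m := m) (M := M) (x := x) hp hx.1 (hg0.trans hg1))
          (Real.exp_pos (-(gm * x))).le
        linarith

end Pool.Agent.K1H53.KZ
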