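import Pool.Agent.K1H53.KP.Conf

/-!
The relation between the exponents of the free polymer at almost every drift: definitions and
statements of the steps.
-/

open MeasureTheory ProbabilityTheory Set Filter
open scoped Topology

set_option linter.unusedSectionVars false

namespace Pool.Agent.K1H53.KZ

open Pool.Agent.K1H53.SD Pool.Agent.K1H53.SF Pool.Agent.K1H53.KP

variable {Ω : Type*} [MeasurableSpace Ω]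

/-- The exponents `c > 0` with: for some `s > 0` and `C`,
`ℙ(|F_n - 𝔼 F_n| > n^c) ≤ C exp(-n^s)` for all `n ≥ 1`, where `F_n` is the free energy
`log ∑_w exp(h S_n + β ∑_{i≤n} η(i, S_i))` of the free polymer with drift `h`. -/
def TailSet (P : Measure Ω) (ω : ℕ → ℤ → Ω → ℝ) (β h : ℝ) : Set ℝ :=
  {c : ℝ | 0 < c ∧ ∃ s C : ℝ, 0 < s ∧ ∀ n : ℕ, 1 ≤ n →
    P.real {x | (n : ℝ) ^ c < |frEnergy β h (fun i y => ω i y x) n -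
      ∫ x', frEnergy β h (fun i y => ω i y x') n ∂P|} ≤ C * Real.exp (-(n : ℝ) ^ s)}

/-- The fluctuation exponent `χ(h)` of the free polymer with drift `h`. -/
noncomputable def chi (P : Measure Ω) (ω : ℕ → ℤ → Ω → ℝ) (β h : ℝ) : ℝ :=
  sInf (TailSet P ω β h)

/-- The exponents `a > 0` with: for some `s > 0` and `C`,
`𝔼 P_n^h(max_{i≤n} |S_i - i v| > n^a) ≤ C exp(-n^s)` for all `n ≥ 1`. -/
def ConfSet (P : Measure Ω) (ω : ℕ → ℤ → Ω → ℝ) (β h v : ℝ) : Set ℝ :=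
  {a : ℝ | 0 < a ∧ ∃ s C : ℝ, 0 < s ∧ ∀ n : ℕ, 1 ≤ n →
    ∫ x, (1 - frProb β h (fun i y => ω i y x) (tube n v ((n : ℝ) ^ a))) ∂P ≤
      C * Real.exp (-(n : ℝ) ^ s)}

/-- The wandering exponent `ν(h, v)` of the free polymer with drift `h` around the line of slope
`v`. -/
noncomputable def nu (P : Measure Ω) (ω : ℕ → ℤ → Ω → ℝ) (β h v : ℝ) : ℝ :=
  sInf (ConfSet P ω β h v)

/-- mean free energy of the free polymer with drift `h` -/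
noncomputable def FL (P : Measure Ω) (ω : ℕ → ℤ → Ω → ℝ) (β h : ℝ) (n : ℕ) : ℝ :=
  ∫ a, Real.log (Fr (wt β (fld ω a)) (dr h) n 0) ∂P

/-- deviation event of the free polymer -/
def DV (P : Measure Ω) (ω : ℕ → ℤ → Ω → ℝ) (β h : ℝ) (n : ℕ) (lam : ℝ) : Set Ω :=
  {a | lam < |Real.log (Fr (wt β (fld ω a)) (dr h) n 0) - FL P ω β h n|}

/-- drifts with given tail constants -/
def TE (P : Measure Ω) (ω : ℕ → ℤ → Ω → ℝ) (β c s C : ℝ) : Set ℝ :=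
  {h : ℝ | ∀ n : ℕ, 1 ≤ n → P.real (DV P ω β h n ((n : ℝ) ^ c)) ≤ C * Real.exp (-(n : ℝ) ^ s)}

/-- `h` is a good point of `E`: parabola above `p`, elements of `E` on both sides at all scales -/
structure GoodAt (E : Set ℝ) (p : ℝ → ℝ) (h v C₁ r : ℝ) : Prop where
  r0 : 0 < r
  r1 : r ≤ 1
  C0 : 0 < C₁
  mem : h ∈ E
  up : ∀ t : ℝ, |t| ≤ r → p (h + t) ≤ p h + v * t + C₁ * t ^ 2
  sub : ∀ t : ℝ, p h + v * t ≤ p (h + t)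
  nbp : ∀ t : ℝ, 0 < t → t ≤ r → ∃ g ∈ E, h + t / 2 ≤ g ∧ g ≤ h + t
  nbm : ∀ t : ℝ, 0 < t → t ≤ r → ∃ g ∈ E, h - t ≤ g ∧ g ≤ h - t / 2

/-- (1) density -/
def S_dens : Prop := ∀ E : Set ℝ, ∀ᵐ h : ℝ, h ∈ E → ∃ r : ℝ, 0 < r ∧ ∀ t : ℝ, 0 < t → t ≤ r →
  (∃ g ∈ E, h + t / 2 ≤ g ∧ g ≤ h + t) ∧ ∃ g ∈ E, h - t ≤ g ∧ g ≤ h - t / 2

/-- (2) second order expansions of convex functions at almost every point -/
def S_alex : Prop := ∀ p : ℝ → ℝ, ConvexOn ℝ univ p → ∀ᵐ h : ℝ, ∃ v q : ℝ, 0 ≤ q ∧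
  HasDerivAt p v h ∧ ∀ ε : ℝ, 0 < ε → ∃ δ : ℝ, 0 < δ ∧ ∀ t : ℝ, |t| ≤ δ →
    |p (h + t) - (p h + v * t + q / 2 * t ^ 2)| ≤ ε * t ^ 2

/-- (3) increments of the mean free energies and uniform tails (Pool/Agent/K1H38/DP/Add.lean
`incr`, Tail.lean `tail_unif`, in dimension one) -/
def S_incr (P : Measure Ω) (ω : ℕ → ℤ → Ω → ℝ) (β : ℝ) (p : ℝ → ℝ) : Prop :=
  ∀ c s C : ℝ, 0 < c → c < 1 → 0 < s → ∃ A s' C' : ℝ, 0 ≤ A ∧ 0 < s' ∧ 0 ≤ C' ∧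
    (∀ h ∈ TE P ω β c s C, ∀ g ∈ TE P ω β c s C, |g - h| ≤ 1 → ∀ m : ℕ,
      |FL P ω β g m - FL P ω β h m - m * (p g - p h)| ≤ A * (m : ℝ) ^ c) ∧
    ∀ g ∈ TE P ω β c s C, ∀ N : ℕ, 1 ≤ N → ∀ n ≤ N,
      P.real (DV P ω β g n ((N : ℝ) ^ c)) ≤ C' * Real.exp (-(N : ℝ) ^ s')

/-- (4) the upper half: confinement from tails -/
def S_upper (P : Measure Ω) (ω : ℕ → ℤ → Ω → ℝ) (β : ℝ) (p : ℝ → ℝ) : Prop :=
  ∀ c s C : ℝ, 0 < c → c < 1 → 0 < s → ∀ h v C₁ r : ℝ, GoodAt (TE P ω β c s C) p h v C₁ r →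
    ∀ a : ℝ, 1 + c < 2 * a → a < 1 → a ∈ ConfSet P ω β h v

/-- reversed free polymer: all starting points, fixed end point `m` -/
noncomputable def Rv (K : ℕ → ℤ → ℝ) (g : ℝ) (s : ℕ) (m : ℤ) : ℝ :=
  ∑ x ∈ Finset.Icc (m - s) (m + s), Z K x s m * Real.exp (-(g * x))

/-- (5) tails of the reversed free polymer -/
def S_rev (P : Measure Ω) (ω : ℕ → ℤ → Ω → ℝ) (β : ℝ) : Prop :=
  ∀ c s C G : ℝ, 0 < c → c < 1 → 0 < s → ∃ A s' C' : ℝ, 0 ≤ A ∧ 0 < s' ∧ 0 ≤ C' ∧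
    ∀ g ∈ TE P ω β c s C, |g| ≤ G → ∀ N : ℕ, 1 ≤ N → ∀ m : ℤ,
      P.real {a | A * (N : ℝ) ^ c < |Real.log (Rv (wt β (fld ω a)) g N m) -
        (FL P ω β g N - g * m)|} ≤ C' * Real.exp (-(N : ℝ) ^ s')

/-- (6) tails of the point-to-point polymers from those of the free polymers -/
def S_pp (P : Measure Ω) (ω : ℕ → ℤ → Ω → ℝ) (β : ℝ) (p : ℝ → ℝ) : Prop :=
  ∀ c s C : ℝ, 0 < c → c < 1 → 0 < s → ∀ h v C₁ c₂ r : ℝ, GoodAt (TE P ω β c s C) p h v C₁ r →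
    0 < c₂ → (∀ t : ℝ, |t| ≤ r → p h + v * t + c₂ * t ^ 2 ≤ p (h + t)) →
    ∀ a ρ : ℝ, 1 + c < 2 * a → a < 1 → 0 < ρ → ∃ K s' C' : ℝ, 0 < K ∧ 0 < s' ∧ 0 ≤ C' ∧
      ∀ N : ℕ, 1 ≤ N → ∀ m : ℤ, |m| ≤ (N : ℤ) → (m - N) % 2 = 0 →
        |(m : ℝ) - N * v| ≤ ρ * (N : ℝ) ^ a →
        P.real {x | K * (N : ℝ) ^ (2 * a - 1) < |Real.log (Z (wt β (fld ω x)) 0 N m) -
          (FL P ω β h N - h * m)|} ≤ C' * Real.exp (-(N : ℝ) ^ s')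

/-- (7) the lower half: tails of the free polymer from those of the point-to-point polymers and
confinement, around some constants -/
def S_low (P : Measure Ω) (ω : ℕ → ℤ → Ω → ℝ) (β : ℝ) : Prop :=
  ∀ h v a κ c' : ℝ, -1 < v → v < 1 → 1 < 2 * a → a < 1 → 0 < κ → κ < a →
    κ ∈ ConfSet P ω β h v → κ * (2 * a - 1) / a < c' →
    (∀ ρ : ℝ, 0 < ρ → ∃ f : ℕ → ℝ, ∃ K s' C' : ℝ, 0 < K ∧ 0 < s' ∧ 0 ≤ C' ∧
      ∀ N : ℕ, 1 ≤ N → ∀ m : ℤ, |m| ≤ (N : ℤ) → (m - N) % 2 = 0 →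
        |(m : ℝ) - N * v| ≤ ρ * (N : ℝ) ^ a →
        P.real {x | K * (N : ℝ) ^ (2 * a - 1) < |Real.log (Z (wt β (fld ω x)) 0 N m) -
          (f N - h * m)|} ≤ C' * Real.exp (-(N : ℝ) ^ s')) →
    ∃ s C : ℝ, 0 < s ∧ ∀ n : ℕ, 1 ≤ n → ∃ m : ℝ,
      P.real {x | (n : ℝ) ^ c' < |Real.log (Fr (wt β (fld ω x)) (dr h) n 0) - m|} ≤
        C * Real.exp (-(n : ℝ) ^ s)

/-- (8) centring at the mean -/
def S_center (P : Measure Ω) (ω : ℕ → ℤ → Ω → ℝ) (β : ℝ) : Prop :=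
  ∀ h c' : ℝ, 0 < c' → (∃ s C : ℝ, 0 < s ∧ ∀ n : ℕ, 1 ≤ n → ∃ m : ℝ,
      P.real {x | (n : ℝ) ^ c' < |Real.log (Fr (wt β (fld ω x)) (dr h) n 0) - m|} ≤
        C * Real.exp (-(n : ℝ) ^ s)) → ∀ c'' : ℝ, c' < c'' → c'' ∈ TailSet P ω β h

/-- (9) fluctuations from confinement -/
def S_anti (P : Measure Ω) (ω : ℕ → ℤ → Ω → ℝ) (β : ℝ) : Prop :=
  0 < β → (¬ ∃ c : ℝ, ∀ᵐ a ∂P, ω 1 0 a = c) → ∀ h v c a : ℝ, -1 ≤ v → v ≤ 1 →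
    c ∈ TailSet P ω β h → a ∈ ConfSet P ω β h v → (1 - a) / 2 ≤ c

end Pool.Agent.K1H53.KZ
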